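import Pool.Agent.U403.Ldp.CU

/-! # Large deviations: the lower bound for the number of zeros -/

set_option autoImplicit false

open Filter Topology MeasureTheory Set
open Pool.Agent.R320.JL (YY YY_meas SS_gL varB)
open Pool.Agent.Y743.NC (dev dev_nonneg dev_int ff)
open Pool.Agent.Y743.LR (yv)
open Pool.Agent.R320.CL (SS SS_ge)
open SP (RHs)
open SG (NZ ord)
open Pool.Agent.U403.Max

namespace Pool.Agent.U403.Ldp

noncomputable section

/-- **the lower bound in a block** -/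
theorem cntLow (hRH : RHs) (α ε : ℝ) (hα : 0 ≤ α) (hε : 0 < ε) (s : ℝ) (hs : s = 1 ∨ s = -1) :
    ∀ᶠ r : ℕ in atTop, ∀ᶠ T : ℝ in atTop,
      Real.exp (-((Real.pi ^ 2 * α ^ 2 / 2 + ε) * Real.log r)) * (T * Real.log T) ≤
      (((Finset.Ioc (NZ T) (NZ (2 * T))).filter (fun n => α * Real.log r ≤ s * (St r n - r))).card : ℝ) := by
  have hpi := Real.pi_pos
  have hpi4 := Real.pi_lt_d2
  obtain ⟨e, he0, he1, he2, -, -⟩ := eps_choice hα (show 0 < ε / 2 by positivity)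
  obtain ⟨A, hA⟩ : ∃ A : ℝ, A = Real.pi ^ 2 * α ^ 2 / 2 + ε / 4 + 1 := ⟨_, rfl⟩
  have hA0 : 0 ≤ A := by rw [hA]; positivity
  have g1 := yyLow hRH (α + e) (ε / 8) (by positivity) (by positivity)
  have g2 := smallW hRH (e / 4) (by positivity) A hA0
  have g3 := ev_pow (3 * ε / 4) 0 (by positivity) 1 7 (show (0 : ℝ) < 1 by norm_num)
  have g4 : ∀ᶠ x : ℝ in atTop, 2 * ((α + 1) * Real.log x + 6) ≤ x := by
    have h2 := Real.isLittleO_log_id_atTop.bound (c := 1 / (4 * (α + 1))) (by positivity)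
    filter_upwards [h2, eventually_ge_atTop 24] with x hx h1
    rw [id, Real.norm_of_nonneg (Real.log_nonneg (by linarith)), Real.norm_of_nonneg (by linarith)] at hx
    have := mul_le_mul_of_nonneg_left hx (show 0 ≤ 2 * (α + 1) by positivity)
    have e : 2 * (α + 1) * (1 / (4 * (α + 1)) * x) = x / 2 := by field_simp; ring
    linarith
  filter_upwards [g1, g2, logr_top.eventually g3, tendsto_natCast_atTop_atTop.eventually g4,
    logr_top.eventually_ge_atTop (6 / e), logr_top.eventually_ge_atTop 3, eventually_ge_atTop 4]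
    with r g1 g2 g3 g4 g5 g7 hr4
  obtain ⟨q, hq⟩ : ∃ q : ℝ, q = Real.log r := ⟨_, rfl⟩
  rw [← hq] at g1 g2 g3 g4 g5 g7 ⊢
  have hq0 : 0 < q := by linarith
  rw [div_le_iff₀ he0] at g5
  have hr4' : (4 : ℝ) ≤ r := by exact_mod_cast hr4
  have hαq : 0 ≤ α * q := by positivity
  obtain ⟨w, hw⟩ : ∃ w : ℕ, w = ⌊e / 2 * q⌋₊ := ⟨_, rfl⟩
  have hw1 : (w : ℝ) ≤ e / 2 * q := by rw [hw]; exact Nat.floor_le (by positivity)
  have hw2 : e / 2 * q < w + 1 := by rw [hw]; exact Nat.lt_floor_add_one _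
  have hwq : (w : ℝ) ≤ q / 2 := by nlinarith
  have hw3 : e / 4 * q ≤ w := by linarith
  have hw4 : 1 ≤ w := by
    have : (0 : ℝ) < w := by linarith
    exact_mod_cast this
  have hw0 : (0 : ℝ) < w := by exact_mod_cast hw4
  -- the window
  have hd : ∃ d : ℕ, r ≤ 2 * d ∧ d ≤ 2 * r ∧ ((s = 1 ∧ r + α * q + w + 2 ≤ (d : ℝ) ∧ (d : ℝ) ≤ r + α * q + w + 3) ∨
      (s = -1 ∧ (d : ℝ) ≤ r - α * q - 2 ∧ r - α * q - 3 ≤ (d : ℝ))) := by
    rcases hs with h | h
    · obtain ⟨d, hd⟩ : ∃ d : ℕ, d = ⌈(r : ℝ) + α * q⌉₊ + w + 2 := ⟨_, rfl⟩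
      have c1 : r + α * q + w + 2 ≤ (d : ℝ) := by
        rw [hd]; push_cast; linarith [Nat.le_ceil ((r : ℝ) + α * q)]
      have c2 : (d : ℝ) ≤ r + α * q + w + 3 := by
        rw [hd]; push_cast; linarith [Nat.ceil_lt_add_one (show 0 ≤ (r : ℝ) + α * q by positivity)]
      refine ⟨d, ?_, ?_, Or.inl ⟨h, c1, c2⟩⟩
      · have : (r : ℝ) ≤ 2 * d := by linarith
        exact_mod_cast this
      · have : (d : ℝ) ≤ 2 * r := by linarith
        exact_mod_cast this
    · have h2 : 2 ≤ ⌊(r : ℝ) - α * q⌋₊ := by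
        apply Nat.le_floor
        push_cast
        linarith
      obtain ⟨d, hd⟩ : ∃ d : ℕ, d + 2 = ⌊(r : ℝ) - α * q⌋₊ := ⟨_, Nat.sub_add_cancel h2⟩
      have hd' : (d : ℝ) + 2 = (⌊(r : ℝ) - α * q⌋₊ : ℝ) := by exact_mod_cast hd
      have c1 : (d : ℝ) ≤ r - α * q - 2 := by
        linarith [Nat.floor_le (show 0 ≤ (r : ℝ) - α * q by linarith)]
      have c2 : r - α * q - 3 ≤ (d : ℝ) := by linarith [Nat.lt_floor_add_one ((r : ℝ) - α * q)]
      refine ⟨d, ?_, ?_, Or.inr ⟨h, c1, c2⟩⟩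
      · have : (r : ℝ) ≤ 2 * d := by linarith
        exact_mod_cast this
      · have : (d : ℝ) ≤ 2 * r := by linarith
        exact_mod_cast this
  obtain ⟨d, k1, k2, hd⟩ := hd
  filter_upwards [g1, g2, eventually_ge_atTop 100, eventually_ge_atTop (Real.exp (A * q)),
    Real.tendsto_log_atTop.eventually_ge_atTop (2 * Real.pi * w),
    Real.tendsto_log_atTop.eventually_ge_atTop (16 * (r + α * q + 2))] with T g1 g2 t1 t2 t3 t4
  have hT0 : 0 < T := by linarith
  have := PT_univ hT0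
  have hL0 : 0 < Real.log T := Real.log_pos (by linarith)
  have p1 := g1 d k1 k2 (-s) (by rcases hs with h | h <;> rw [h] <;> norm_num)
  have p2 := g2 w hw4 (by linarith)
  obtain ⟨u, hu⟩ : ∃ u : ℝ, u = 2 * Real.pi / Real.log T := ⟨_, rfl⟩
  have hu0 : 0 < u := by rw [hu]; positivity
  have hwu : w * u ≤ 1 := by
    have e1 : w * u = 2 * Real.pi * w / Real.log T := by rw [hu]; ring
    rw [e1, div_le_one hL0]
    exact t3
  obtain ⟨S, hS⟩ : ∃ S : Finset ℕ, S = (Finset.Ioc (NZ T) (NZ (2 * T))).filter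
    (fun n => α * q ≤ s * (St r n - r)) := ⟨_, rfl⟩
  rw [← hS]
  obtain ⟨F, hF⟩ : ∃ F : Set ℝ, F = {t | (α + e) * q ≤ -s * YY T d t} := ⟨_, rfl⟩
  obtain ⟨D, hD⟩ : ∃ D : Set ℝ, D = {t | e / 4 * q ≤ |YY T w t|} := ⟨_, rfl⟩
  rw [← hF] at p1
  rw [← hD] at p2
  have hsub : F ⊆ (⋃ n ∈ S, Ico (ord n - w * u) (ord n)) ∪ (D ∪ (Ioc T (2 * T - 1))ᶜ) := by
    intro t ht
    by_cases hDt : t ∈ D
    · exact Or.inr (Or.inl hDt)
    by_cases hI : t ∈ Ioc T (2 * T - 1)
    swap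
    · exact Or.inr (Or.inr hI)
    left
    rw [hD, Set.mem_ofPred_eq, not_le] at hDt
    rw [hF, Set.mem_ofPred_eq] at ht
    rw [mem_Ioc] at hI
    have hYw : -(w : ℝ) < YY T w t := by
      have := (abs_lt.1 hDt).1
      linarith
    obtain ⟨l1, l2, l3, l4⟩ := lo_pt (r := r) (d := d) hL0 hYw
    obtain ⟨n, hn⟩ : ∃ n : ℕ, n = NZ t + 1 := ⟨_, rfl⟩
    rw [← hn] at l1 l2 l3 l4
    rw [← hu] at l2
    have hn1 : 1 ≤ n := by omega
    have hTn : T ≤ ord n := by linarith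
    have hn2T : ord n ≤ 2 * T := by linarith
    simp only [Set.mem_iUnion]
    refine ⟨n, ?_, mem_Ico.2 ⟨by linarith, l1⟩⟩
    rw [hS, Finset.mem_filter, Finset.mem_Ioc]
    refine ⟨⟨?_, (SG.ord_le_iff hn1 _).mp hn2T⟩, ?_⟩
    · have := SG.NZ_mono hI.1.le
      omega
    · unfold YY at ht
      rcases hd with ⟨h, c1, c2⟩ | ⟨h, c1, c2⟩
      · rw [h] at ht ⊢
        have h5 := l3 (by linarith)
        have h6 := ff_ss_long (r := r) (Y := α * q) t1 hn1 hTn hαq t4 (by linarith)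
        linarith
      · rw [h] at ht ⊢
        have h5 := l4 (by linarith)
        have h6 := ff_ss_short (r := r) (Y := α * q) t1 hn1 hTn hn2T hαq t4 (by linarith)
        linarith
  have m1 : (PT T).real (⋃ n ∈ S, Ico (ord n - w * u) (ord n)) ≤ S.card * (w * u / T) := by
    refine (measureReal_biUnion_finset_le _ _).trans ?_
    have h1 : ∀ n ∈ S, (PT T).real (Ico (ord n - w * u) (ord n)) ≤ w * u / T := by
      intro n _
      rw [PT_real hT0 measurableSet_Ico]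
      apply div_le_div_of_nonneg_right _ hT0.le
      refine (measureReal_mono inter_subset_left (by rw [Real.volume_Ico]; exact ENNReal.ofReal_ne_top)).trans ?_
      rw [Real.volume_real_Ico_of_le (by
        have : 0 ≤ w * u := by positivity
        linarith)]
      linarith
    refine (Finset.sum_le_sum h1).trans (le_of_eq ?_)
    rw [Finset.sum_const, nsmul_eq_mul]
  have m2 : (PT T).real (Ioc T (2 * T - 1))ᶜ ≤ Real.exp (-(A * q)) := by
    rw [PT_real hT0 measurableSet_Ioc.compl]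
    have h1 : (Ioc T (2 * T - 1))ᶜ ∩ Ioc T (2 * T) ⊆ Ioc (2 * T - 1) (2 * T) := by
      rintro t ⟨a1, a2⟩
      rw [Set.mem_compl_iff, mem_Ioc, not_and_or, not_lt, not_le] at a1
      rw [mem_Ioc] at a2 ⊢
      rcases a1 with a1 | a1
      · linarith [a2.1]
      · exact ⟨a1, a2.2⟩
    have h2 : volume.real ((Ioc T (2 * T - 1))ᶜ ∩ Ioc T (2 * T)) ≤ 1 := by
      refine (measureReal_mono h1 (by rw [Real.volume_Ioc]; exact ENNReal.ofReal_ne_top)).trans ?_
      rw [Real.volume_real_Ioc_of_le (by linarith)]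
      linarith
    rw [div_le_iff₀ hT0]
    refine h2.trans ?_
    have h3 : Real.exp (-(A * q)) * Real.exp (A * q) = 1 := by rw [← Real.exp_add]; simp
    have h4 := mul_le_mul_of_nonneg_left t2 (Real.exp_pos (-(A * q))).le
    linarith
  have m3 := (measureReal_mono (μ := PT T) hsub (measure_ne_top _ _)).trans
    ((measureReal_union_le _ _).trans (add_le_add_right (measureReal_union_le D (Ioc T (2 * T - 1))ᶜ) _))
  obtain ⟨ρ, hρ⟩ : ∃ ρ : ℝ, ρ = Real.exp (-((Real.pi ^ 2 * α ^ 2 / 2 + ε / 4) * q)) := ⟨_, rfl⟩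
  have hρ0 : 0 < ρ := by rw [hρ]; exact Real.exp_pos _
  have r1 : ρ ≤ Real.exp (-((Real.pi ^ 2 * (α + e) ^ 2 / 2 + ε / 8) * q)) := by
    rw [hρ]
    apply Real.exp_le_exp.2
    have := mul_le_mul_of_nonneg_right (show Real.pi ^ 2 * (α + e) ^ 2 / 2 + ε / 8 ≤ Real.pi ^ 2 * α ^ 2 / 2 + ε / 4 by
      linarith) hq0.le
    linarith
  have r2 : Real.exp (-(A * q)) ≤ ρ / 4 := by
    have h1 : Real.exp (-(A * q)) = ρ * Real.exp (-q) := by
      rw [hρ, hA, ← Real.exp_add]; congr 1; ring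
    have h2 : Real.exp (-q) ≤ 1 / 4 := by
      rw [Real.exp_neg, ← one_div]
      apply one_div_le_one_div_of_le (by norm_num)
      have := Real.add_one_le_exp q
      linarith
    rw [h1]
    have := mul_le_mul_of_nonneg_left h2 hρ0.le
    linarith
  have r3 : ρ / 2 ≤ S.card * (w * u / T) := by linarith
  have r4 : Real.exp (-((Real.pi ^ 2 * α ^ 2 / 2 + ε) * q)) = ρ * Real.exp (-(3 * ε / 4 * q)) := by
    rw [hρ, ← Real.exp_add]; congr 1; ring
  rw [r4]
  have r5 : 7 * (q * Real.exp (-(3 * ε / 4 * q))) ≤ 1 := by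
    simpa using g3
  have hc0 : (0 : ℝ) ≤ S.card := Nat.cast_nonneg _
  have r6 : ρ / 2 * (T * Real.log T) ≤ S.card * (w * (2 * Real.pi)) := by
    have h1 := mul_le_mul_of_nonneg_right r3 (by positivity : 0 ≤ T * Real.log T)
    have hu' : u * Real.log T = 2 * Real.pi := by rw [hu, div_mul_cancel₀ _ hL0.ne']
    have h2 : (S.card : ℝ) * (w * u / T) * (T * Real.log T) = S.card * (w * (2 * Real.pi)) := by
      have h3 : (w * u / T) * (T * Real.log T) = w * (u * Real.log T) := by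
        rw [div_mul_eq_mul_div, div_eq_iff hT0.ne']; ring
      rw [mul_assoc, h3, hu']
    linarith
  have r7 : (w : ℝ) * (2 * Real.pi) ≤ 3.5 * q := by
    have : (w : ℝ) * (2 * Real.pi) ≤ q / 2 * (2 * 3.15) := by gcongr
    linarith
  have r8 : ρ * (T * Real.log T) ≤ S.card * (7 * q) := by
    have := mul_le_mul_of_nonneg_left r7 hc0
    linarith
  have r9 := mul_le_mul_of_nonneg_right r8 (Real.exp_pos (-(3 * ε / 4 * q))).le
  have r10 := mul_le_mul_of_nonneg_left r5 hc0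
  calc ρ * Real.exp (-(3 * ε / 4 * q)) * (T * Real.log T) = ρ * (T * Real.log T) * Real.exp (-(3 * ε / 4 * q)) := by ring
    _ ≤ S.card * (7 * q) * Real.exp (-(3 * ε / 4 * q)) := r9
    _ = S.card * (7 * (q * Real.exp (-(3 * ε / 4 * q)))) := by ring
    _ ≤ S.card * 1 := r10
    _ = _ := mul_one _

end

end Pool.Agent.U403.Ldp
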