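import Pool.Agent.U403.Ldp.Pt
import Pool.Agent.R320.JL.Fin

/-! # Large deviations: the upper bound for the number of zeros -/

set_option autoImplicit false

open Filter Topology MeasureTheory Set
open Pool.Agent.Y743.CL (XK Pr mem_Pr)
open Pool.Agent.R320.JL (YY YY_meas SS_gL varB)
open Pool.Agent.Y743.NC (dev dev_nonneg dev_int ff)
open Pool.Agent.Y743.LR (yv)
open Pool.Agent.R320.CL (SS SS_ge)
open SP (RHs)
open SG (NZ ord)
open Pool.Agent.U403.Max

namespace Pool.Agent.U403.Ldp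

noncomputable section

lemma PT_int_of {T : ℝ} (hT : 0 < T) {f : ℝ → ℝ} (h : IntegrableOn f (Ioc T (2 * T)) volume) : Integrable f (PT T) := by
  unfold PT
  refine Integrable.smul_measure h ?_
  rw [ENNReal.inv_ne_top]
  simpa using hT

/-- the second moment of the count in a unit window -/
lemma YY1_int : ∃ C T₀ : ℝ, 1 ≤ C ∧ 10 ≤ T₀ ∧ ∀ T : ℝ, T₀ ≤ T → Integrable (YY T 1) (PT T) ∧
    Integrable (fun t => YY T 1 t ^ 2) (PT T) ∧ ∫ t, YY T 1 t ^ 2 ∂(PT T) ≤ C := by
  obtain ⟨C, T₀, hC, hT₀, h⟩ := varB 1 le_rfl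
  refine ⟨C + Real.log 2, T₀, by linarith [Real.log_pos (show (1 : ℝ) < 2 by norm_num)], hT₀, fun T hT => ?_⟩
  have hT0 : 0 < T := by linarith
  have := PT_univ hT0
  have hdev : ∀ t, YY T 1 t ^ 2 = dev T 1 t := fun t => by unfold YY dev; rfl
  have h1 : Integrable (fun t => YY T 1 t ^ 2) (PT T) := by
    simp only [hdev]
    exact PT_int_of hT0 ((dev_int T 1 T (2 * T)).mono_set Ioc_subset_Icc_self)
  refine ⟨?_, h1, ?_⟩
  · refine Integrable.mono' ((integrable_const (1 : ℝ)).add h1) (YY_meas T 1).aestronglyMeasurable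
      (Eventually.of_forall fun t => ?_)
    rw [Real.norm_eq_abs, Pi.add_apply]
    nlinarith [sq_nonneg (|YY T 1 t| - 1), sq_abs (YY T 1 t)]
  · simp only [hdev]
    rw [PT_int hT0, intervalIntegral.integral_of_le (by linarith), div_le_iff₀ hT0, ← integral_Icc_eq_integral_Ioc]
    have h2 := h T hT 1 one_pos (by rw [Real.log_one]; linarith [Real.log_nonneg (show (1 : ℝ) ≤ T by linarith)])
    have e : (1 : ℝ) + 1 = 2 := by norm_num
    rw [e] at h2
    linarith

/-- counting zeros by a set of heights -/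
lemma cnt_int {T u : ℝ} (hT : 0 < T) (hu : u = 2 * Real.pi / Real.log T) (hu0 : 0 < u) (hu1 : u ≤ 1)
    (hint : Integrable (YY T 1) (PT T)) (S : Finset ℕ) {E : Set ℝ} (hE : MeasurableSet E)
    (hS : ∀ n ∈ S, 1 ≤ n ∧ T + 1 < ord n ∧ ord n ≤ 2 * T)
    (hin : ∀ n ∈ S, ∀ t, ord n - u ≤ t → t < ord n → t ∈ E) :
    (S.card : ℝ) * (u / T) ≤ ∫ t in E, (1 + YY T 1 t) ∂(PT T) := by
  have := PT_univ hT
  have h1 : ∀ n ∈ S, ∫ t, (Ico (ord n - u) (ord n)).indicator (fun _ => (1 : ℝ)) t ∂(PT T) = u / T := by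
    intro n hn
    obtain ⟨_, h2, h3⟩ := hS n hn
    rw [integral_indicator_const _ measurableSet_Ico, smul_eq_mul, mul_one, PT_real hT measurableSet_Ico]
    have h4 : Ico (ord n - u) (ord n) ∩ Ioc T (2 * T) = Ico (ord n - u) (ord n) := by
      apply Set.inter_eq_left.2
      intro t ht
      rw [mem_Ico] at ht
      rw [mem_Ioc]
      constructor <;> linarith [ht.1, ht.2]
    rw [h4, Real.volume_real_Ico_of_le (by linarith)]
    congr 1
    ring
  have h2 : (S.card : ℝ) * (u / T) =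
      ∫ t, ∑ n ∈ S, (Ico (ord n - u) (ord n)).indicator (fun _ => (1 : ℝ)) t ∂(PT T) := by
    rw [integral_finset_sum _ fun n _ => (integrable_const (1 : ℝ)).indicator measurableSet_Ico,
      Finset.sum_congr rfl h1, Finset.sum_const, nsmul_eq_mul]
  rw [h2, ← integral_indicator hE]
  refine integral_mono (integrable_finset_sum _ fun n _ => (integrable_const (1 : ℝ)).indicator measurableSet_Ico)
    (((integrable_const (1 : ℝ)).add hint).indicator hE) fun t => ?_
  have h3 : ∑ n ∈ S, (Ico (ord n - u) (ord n)).indicator (fun _ => (1 : ℝ)) t =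
      ((S.filter fun n => ord n - u ≤ t ∧ t < ord n).card : ℝ) := by
    rw [Finset.card_filter]
    push_cast
    refine Finset.sum_congr rfl fun n _ => ?_
    by_cases h : ord n - u ≤ t ∧ t < ord n
    · rw [Set.indicator_of_mem (mem_Ico.2 h), if_pos h]
    · rw [Set.indicator_of_notMem (fun h' => h (mem_Ico.1 h')), if_neg h]
  show ∑ n ∈ S, (Ico (ord n - u) (ord n)).indicator (fun _ => (1 : ℝ)) t ≤ E.indicator (fun t => 1 + YY T 1 t) t
  rw [h3]
  by_cases ht : t ∈ E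
  · rw [Set.indicator_of_mem ht]
    have h4 : (S.filter fun n => ord n - u ≤ t ∧ t < ord n) ⊆ Finset.Ioc (NZ t) (NZ (t + u)) := by
      intro n hn
      rw [Finset.mem_filter] at hn
      obtain ⟨hnS, k1, k2⟩ := hn
      have hn1 := (hS n hnS).1
      rw [Finset.mem_Ioc]
      constructor
      · by_contra hcon
        push Not at hcon
        have := (SG.ord_le_iff hn1 _).mpr hcon
        linarith
      · exact (SG.ord_le_iff hn1 _).mp (by linarith)
    have h5 := Finset.card_le_card h4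
    rw [Nat.card_Ioc] at h5
    have h6 : NZ t ≤ NZ (t + u) := SG.NZ_mono (by linarith)
    have h7 : ((S.filter fun n => ord n - u ≤ t ∧ t < ord n).card : ℝ) ≤ (NZ (t + u) : ℝ) - NZ t := by
      rw [← Nat.cast_sub h6]
      exact_mod_cast h5
    refine h7.trans (le_of_eq ?_)
    unfold YY
    rw [mul_one, ← hu]
    ring
  · rw [Set.indicator_of_notMem ht]
    have h4 : (S.filter fun n => ord n - u ≤ t ∧ t < ord n) = ∅ := by
      rw [Finset.filter_eq_empty_iff]
      intro n hn h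
      exact ht (hin n hn t h.1 h.2)
    rw [h4]
    simp

/-- **the upper bound in a block** -/
theorem cntUp (hRH : RHs) (α ε : ℝ) (hα : 0 < α) (hε : 0 < ε) : ∀ᶠ r : ℕ in atTop, ∀ᶠ T : ℝ in atTop,
    ∀ A B' : ℝ, T + 1 ≤ A → A + 1 ≤ B' → B' ≤ 2 * T →
      (((Finset.Ioc (NZ A) (NZ B')).filter (fun n => α * Real.log r ≤ |St r n - r|)).card : ℝ) ≤
        Real.exp (-((Real.pi ^ 2 * α ^ 2 / 2 - ε) * Real.log r)) * (T * Real.log T) := by
  have hpi := Real.pi_pos
  have hpi3 := Real.pi_gt_three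
  obtain ⟨e, he0, he1, -, he3, he4⟩ := eps_choice hα.le (show 0 < ε / 2 by positivity)
  have hα' : 0 < α - e := by linarith [he4 hα]
  obtain ⟨C, T₀, hC, hT₀, hYY⟩ := YY1_int
  have g1 := yyUp hRH (α - e) (ε / 8) hα' (by positivity)
  have g2 := smallW hRH (e / 2) (by positivity) (Real.pi ^ 2 * α ^ 2) (by positivity)
  have g3 := ev_pow (3 * ε / 4) (C + 3) (by positivity) 1 3 (show (0 : ℝ) < 1 by norm_num)
  have g4 : ∀ᶠ x : ℝ in atTop, 2 * (α * Real.log x) ≤ x := by
    have h2 := Real.isLittleO_log_id_atTop.bound (c := 1 / (2 * α)) (by positivity)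
    filter_upwards [h2, eventually_ge_atTop 1] with x hx h1
    rw [id, Real.norm_of_nonneg (Real.log_nonneg h1), Real.norm_of_nonneg (by linarith)] at hx
    have := mul_le_mul_of_nonneg_left hx (show 0 ≤ 2 * α by positivity)
    have e : 2 * α * (1 / (2 * α) * x) = x := by field_simp
    linarith
  filter_upwards [g1, g2, logr_top.eventually g3, tendsto_natCast_atTop_atTop.eventually g4,
    logr_top.eventually_ge_atTop (6 / e), logr_top.eventually_ge_atTop (1 / α), logr_top.eventually_ge_atTop 1,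
    eventually_ge_atTop 4] with r g1 g2 g3 g4 g5 g6 g7 hr4
  obtain ⟨q, hq⟩ : ∃ q : ℝ, q = Real.log r := ⟨_, rfl⟩
  rw [← hq] at g1 g2 g3 g4 g5 g6 g7 ⊢
  have hq0 : 0 < q := by linarith
  rw [div_le_iff₀ he0] at g5
  rw [div_le_iff₀ hα] at g6
  have hr4' : (4 : ℝ) ≤ r := by exact_mod_cast hr4
  obtain ⟨y, hy⟩ : ∃ y : ℝ, y = α * q - 1 := ⟨_, rfl⟩
  have hy0 : 0 ≤ y := by rw [hy]; linarith
  have hyr : y ≤ r := by rw [hy]; linarith
  have hyr2 : 2 * y ≤ r := by rw [hy]; linarith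
  obtain ⟨d1, hd1⟩ : ∃ d1 : ℕ, d1 = ⌊(r : ℝ) + y⌋₊ := ⟨_, rfl⟩
  obtain ⟨d2, hd2⟩ : ∃ d2 : ℕ, d2 = ⌈(r : ℝ) - y⌉₊ + 1 := ⟨_, rfl⟩
  have k1 : r ≤ 2 * d1 := by
    have : r ≤ d1 := by rw [hd1]; apply Nat.le_floor; linarith
    omega
  have k2 : d1 ≤ 2 * r := by
    have : (d1 : ℝ) ≤ 2 * r := by rw [hd1]; exact (Nat.floor_le (by positivity)).trans (by linarith)
    exact_mod_cast this
  have k3 : r ≤ 2 * d2 := by
    have : (r : ℝ) ≤ 2 * d2 := by rw [hd2]; push_cast; linarith [Nat.le_ceil ((r : ℝ) - y)]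
    exact_mod_cast this
  have k4 : d2 ≤ 2 * r := by
    have : (d2 : ℝ) ≤ 2 * r := by
      rw [hd2]; push_cast
      linarith [Nat.ceil_lt_add_one (show 0 ≤ (r : ℝ) - y by linarith)]
    exact_mod_cast this
  filter_upwards [g1, g2, eventually_ge_atTop T₀, eventually_ge_atTop 100,
    Real.tendsto_log_atTop.eventually_ge_atTop (2 * Real.pi),
    Real.tendsto_log_atTop.eventually_ge_atTop (16 * (r + α * q))] with T g1 g2 t1 t2 t3 t4
  intro A B' hA hAB hB
  have hT0 : 0 < T := by linarith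
  have := PT_univ hT0
  have hL0 : 0 < Real.log T := by linarith
  obtain ⟨i1, i2, i3⟩ := hYY T t1
  have p1 := g1 d1 k1 k2
  have p2 := g1 d2 k3 k4
  have p3 := g2 1 le_rfl (by rw [Nat.cast_one]; exact g7)
  rw [Nat.cast_one] at p3
  obtain ⟨D2, hD2⟩ : ∃ D2 : Set ℝ, D2 = {t | e / 2 * q ≤ |YY T 1 t|} := ⟨_, rfl⟩
  obtain ⟨E1, hE1⟩ : ∃ E1 : Set ℝ, E1 = {t | (α - e) * q ≤ |YY T d1 t|} := ⟨_, rfl⟩
  obtain ⟨E2, hE2⟩ : ∃ E2 : Set ℝ, E2 = {t | (α - e) * q ≤ |YY T d2 t|} := ⟨_, rfl⟩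
  rw [← hD2] at p3
  rw [← hE1] at p1
  rw [← hE2] at p2
  have mD : MeasurableSet D2 := by rw [hD2]; exact measurableSet_le measurable_const (YY_meas T 1).abs
  have mE1 : MeasurableSet E1 := by rw [hE1]; exact measurableSet_le measurable_const (YY_meas T d1).abs
  have mE2 : MeasurableSet E2 := by rw [hE2]; exact measurableSet_le measurable_const (YY_meas T d2).abs
  obtain ⟨E, hE⟩ : ∃ E : Set ℝ, E = E1 ∪ (E2 ∪ D2) := ⟨_, rfl⟩
  have mE : MeasurableSet E := by rw [hE]; exact mE1.union (mE2.union mD)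
  obtain ⟨u, hu⟩ : ∃ u : ℝ, u = 2 * Real.pi / Real.log T := ⟨_, rfl⟩
  have hu0 : 0 < u := by rw [hu]; positivity
  have hu1 : u ≤ 1 := by rw [hu, div_le_one hL0]; exact t3
  obtain ⟨S, hS⟩ : ∃ S : Finset ℕ, S = (Finset.Ioc (NZ A) (NZ B')).filter (fun n => α * q ≤ |St r n - r|) := ⟨_, rfl⟩
  rw [← hS]
  have hSp : ∀ n ∈ S, 1 ≤ n ∧ T + 1 < ord n ∧ ord n ≤ 2 * T ∧ α * q ≤ |St r n - r| := by
    intro n hn
    rw [hS, Finset.mem_filter, Finset.mem_Ioc] at hn
    obtain ⟨⟨a1, a2⟩, a3⟩ := hn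
    have hn1 : 1 ≤ n := by omega
    refine ⟨hn1, ?_, ?_, a3⟩
    · have : A < ord n := by
        by_contra hc
        push Not at hc
        have := (SG.ord_le_iff hn1 _).mp hc
        omega
      linarith
    · exact ((SG.ord_le_iff hn1 _).mpr a2).trans hB
  have hkey := cnt_int hT0 hu hu0 hu1 i1 S mE (fun n hn => ⟨(hSp n hn).1, (hSp n hn).2.1, (hSp n hn).2.2.1⟩) (by
    intro n hn t ht1 ht2
    obtain ⟨s1, s2, s3, s4⟩ := hSp n hn
    by_contra hcon
    rw [hE] at hcon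
    simp only [Set.mem_union, not_or] at hcon
    obtain ⟨c1, c2, c3⟩ := hcon
    rw [hE1, Set.mem_ofPred_eq, not_le] at c1
    rw [hE2, Set.mem_ofPred_eq, not_le] at c2
    rw [hD2, Set.mem_ofPred_eq, not_le] at c3
    have hff := ss_ff (by linarith) s1 (by linarith) s3 t4 s4
    have hY1 : YY T 1 t < e / 2 * q := (le_abs_self _).trans_lt c3
    rcases up_pt hL0 s1 hy0 hyr (by rw [← hu]; exact ht1) ht2 (by rw [hy]; exact hff) hY1 (by positivity) with h | h
    · rw [← hd1] at h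
      rw [hy] at h
      linarith
    · rw [← hd2] at h
      rw [hy] at h
      linarith)
  -- the integral
  have hI : ∫ t in E, (1 + YY T 1 t) ∂(PT T) ≤ (1 + e / 2 * q) * (PT T).real E + ((PT T).real D2 +
      Real.sqrt (C * (PT T).real D2)) := by
    have h1 : ∫ t in E, (1 + YY T 1 t) ∂(PT T) ≤ ∫ t, (E.indicator (fun _ => (1 + e / 2 * q)) t +
        D2.indicator (fun t => 1 + |YY T 1 t|) t) ∂(PT T) := by
      rw [← integral_indicator mE]
      refine integral_mono (((integrable_const (1 : ℝ)).add i1).indicator mE)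
        (((integrable_const _).indicator mE).add (((integrable_const (1 : ℝ)).add i1.abs).indicator mD)) fun t => ?_
      show E.indicator (fun t => 1 + YY T 1 t) t ≤ E.indicator (fun _ => (1 + e / 2 * q)) t +
        D2.indicator (fun t => 1 + |YY T 1 t|) t
      by_cases hD : t ∈ D2
      · have hEt : t ∈ E := by rw [hE]; exact Or.inr (Or.inr hD)
        rw [Set.indicator_of_mem hEt, Set.indicator_of_mem hEt, Set.indicator_of_mem hD]
        have h2 := le_abs_self (YY T 1 t)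
        have h3 : 0 ≤ 1 + e / 2 * q := by positivity
        linarith
      · rw [Set.indicator_of_notMem hD, add_zero]
        by_cases hEt : t ∈ E
        · rw [Set.indicator_of_mem hEt, Set.indicator_of_mem hEt]
          rw [hD2, Set.mem_ofPred_eq, not_le] at hD
          have h2 := le_abs_self (YY T 1 t)
          linarith
        · rw [Set.indicator_of_notMem hEt, Set.indicator_of_notMem hEt]
    refine h1.trans ?_
    have ii : Integrable (fun t => 1 + |YY T 1 t|) (PT T) := (integrable_const (1 : ℝ)).add i1.abs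
    rw [integral_add ((integrable_const _).indicator mE) (ii.indicator mD),
      integral_indicator_const _ mE, integral_indicator mD, smul_eq_mul,
      integral_add (integrable_const (1 : ℝ)).integrableOn i1.abs.integrableOn, setIntegral_const, smul_eq_mul, mul_one]
    have h2 := cs_ind mD i1 i2
    have h3 : ∫ t in D2, |YY T 1 t| ∂(PT T) ≤ Real.sqrt (C * (PT T).real D2) := by
      apply Real.le_sqrt_of_sq_le
      refine h2.trans ?_
      exact mul_le_mul_of_nonneg_right i3 measureReal_nonneg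
    linarith [mul_comm ((PT T).real E) (1 + e / 2 * q)]
  -- the rates
  obtain ⟨ρ, hρ⟩ : ∃ ρ : ℝ, ρ = Real.exp (-((Real.pi ^ 2 * α ^ 2 / 2 - ε / 4) * q)) := ⟨_, rfl⟩
  have hρ0 : 0 < ρ := by rw [hρ]; exact Real.exp_pos _
  have r1 : Real.exp (-((Real.pi ^ 2 * (α - e) ^ 2 / 2 - ε / 8) * q)) ≤ ρ := by
    rw [hρ]
    apply Real.exp_le_exp.2
    have := mul_le_mul_of_nonneg_right (show Real.pi ^ 2 * α ^ 2 / 2 - ε / 4 ≤ Real.pi ^ 2 * (α - e) ^ 2 / 2 - ε / 8 by
      linarith) hq0.le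
    linarith
  have r2 : Real.exp (-(Real.pi ^ 2 * α ^ 2 * q)) ≤ ρ ^ 2 := by
    rw [hρ, ← Real.exp_nat_mul]
    apply Real.exp_le_exp.2
    push_cast
    have : 0 < ε / 4 * q := by positivity
    linarith
  have r3 : Real.exp (-(Real.pi ^ 2 * α ^ 2 * q)) ≤ ρ := by
    rw [hρ]
    apply Real.exp_le_exp.2
    have h1 : 0 < ε / 4 * q := by positivity
    have h2 : 0 < Real.pi ^ 2 * α ^ 2 * q := by positivity
    linarith
  have r4 : (PT T).real E ≤ 3 * ρ := by
    rw [hE]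
    have h1 := measureReal_union_le (μ := PT T) E1 (E2 ∪ D2)
    have h2 := measureReal_union_le (μ := PT T) E2 D2
    linarith
  have r5 : Real.sqrt (C * (PT T).real D2) ≤ C * ρ := by
    apply Real.sqrt_le_iff.2
    refine ⟨by positivity, ?_⟩
    have h1 : (PT T).real D2 ≤ ρ ^ 2 := p3.trans r2
    have h2 : C ≤ C ^ 2 := by nlinarith
    calc C * (PT T).real D2 ≤ C ^ 2 * ρ ^ 2 := by gcongr
      _ = (C * ρ) ^ 2 := by ring
  have r6 : ∫ t in E, (1 + YY T 1 t) ∂(PT T) ≤ 3 * ((q + (C + 3)) * ρ) := by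
    refine hI.trans ?_
    have h1 : (1 + e / 2 * q) * (PT T).real E ≤ (1 + q / 2) * (3 * ρ) := by
      have : e / 2 * q ≤ q / 2 := by nlinarith
      gcongr
    have h2 : (PT T).real D2 ≤ ρ := p3.trans r3
    have h3 : 0 ≤ q * ρ := by positivity
    have h4 : 0 ≤ C * ρ := by positivity
    nlinarith
  have r7 : 3 * ((q + (C + 3)) * ρ) ≤ Real.exp (-((Real.pi ^ 2 * α ^ 2 / 2 - ε) * q)) := by
    have h1 : Real.exp (-((Real.pi ^ 2 * α ^ 2 / 2 - ε) * q)) = Real.exp (3 * ε / 4 * q) * ρ := by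
      rw [hρ, ← Real.exp_add]; congr 1; ring
    rw [h1, ← mul_assoc]
    apply mul_le_mul_of_nonneg_right _ hρ0.le
    have h2 : Real.exp (3 * ε / 4 * q) * Real.exp (-(3 * ε / 4 * q)) = 1 := by rw [← Real.exp_add]; simp
    have h3 := mul_le_mul_of_nonneg_right g3 (Real.exp_pos (3 * ε / 4 * q)).le
    rw [pow_one, one_mul] at h3
    calc 3 * (q + (C + 3)) = 3 * ((q + (C + 3)) * Real.exp (-(3 * ε / 4 * q))) * Real.exp (3 * ε / 4 * q) := by
          linear_combination (-(3 * (q + (C + 3)))) * h2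
      _ ≤ _ := h3
  have hfin := hkey.trans (r6.trans r7)
  obtain ⟨R, hR⟩ : ∃ R : ℝ, R = Real.exp (-((Real.pi ^ 2 * α ^ 2 / 2 - ε) * q)) := ⟨_, rfl⟩
  rw [← hR] at hfin ⊢
  have hR0 : 0 < R := by rw [hR]; exact Real.exp_pos _
  have h1 : (S.card : ℝ) * u ≤ R * T := by
    rw [← mul_div_assoc, div_le_iff₀ hT0] at hfin
    exact hfin
  have h2 : (S.card : ℝ) * (2 * Real.pi) ≤ R * T * Real.log T := by
    rw [hu, ← mul_div_assoc, div_le_iff₀ hL0] at h1
    exact h1
  have h3 : (0 : ℝ) ≤ S.card := Nat.cast_nonneg _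
  nlinarith

end

end Pool.Agent.U403.Ldp
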