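import Pool.Agent.U403.Ldp.Tl

/-! # Large deviations: comparison of the count with the main field -/

set_option autoImplicit false

open Filter Topology MeasureTheory Set
open Pool.Agent.Y743.CL
open Pool.Agent.R320.JL
open SP (RHs)
open SG (NZ)
open Pool.Agent.U403.Max

namespace Pool.Agent.U403.Ldp

noncomputable section

lemma six_exp {A q : ℝ} (hq : 1 ≤ q) : 6 * Real.exp (-((A + 2) * q)) ≤ Real.exp (-(A * q)) := by
  have h1 : (6 : ℝ) ≤ Real.exp (2 * q) := by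
    have h2 : Real.exp 2 ≤ Real.exp (2 * q) := Real.exp_le_exp.2 (by linarith)
    have h3 : Real.exp 2 = Real.exp 1 ^ 2 := by rw [← Real.exp_nat_mul]; norm_num
    have := Real.exp_one_gt_d9
    have h4 : (6 : ℝ) ≤ Real.exp 1 ^ 2 := by nlinarith
    linarith
  have e : Real.exp (-(A * q)) = Real.exp (2 * q) * Real.exp (-((A + 2) * q)) := by
    rw [← Real.exp_add]; congr 1; ring
  rw [e]
  exact mul_le_mul_of_nonneg_right h1 (Real.exp_pos _).le

/-- the variance of the difference of the small primes -/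
lemma low_var {l T D u : ℝ} (hl : 0 < l) (hL : 0 < Real.log T) (hT : 1 ≤ T) (hX1 : 1 ≤ XK (Real.exp (-u)) T)
    (hXl : Real.log (XK (Real.exp (-u)) T) ≤ Real.exp (-u) * Real.log T) {d : ℕ}
    (hD : (d : ℝ) ≤ D) (hD2 : D * Real.exp (-u) ≤ 2) (hLu : 6 * Real.exp u ≤ Real.log T) :
    VS (nz (zD l (2 * Real.pi * d / Real.log T))) (XK (Real.exp (-u)) T) ≤ 32 := by
  have hpi := Real.pi_pos
  refine (zD_VS hl hX1).trans ?_
  obtain ⟨L, hLd⟩ : ∃ L : ℝ, L = Real.log T := ⟨_, rfl⟩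
  rw [← hLd] at hL hXl hLu ⊢
  obtain ⟨e, he⟩ : ∃ e : ℝ, e = Real.exp (-u) := ⟨_, rfl⟩
  have he0 : 0 < e := by rw [he]; exact Real.exp_pos _
  have heu : e * Real.exp u = 1 := by rw [he, ← Real.exp_add]; simp
  rw [← he] at hXl hD2
  obtain ⟨x, hx⟩ : ∃ x : ℝ, x = Real.log (XK (Real.exp (-u)) T) := ⟨_, rfl⟩
  have hx0 : 0 ≤ x := by rw [hx]; exact Real.log_nonneg (by exact_mod_cast hX1)
  rw [← he] at hx
  rw [← he, ← hx] 
  rw [← hx] at hXl
  have hd0 : (0 : ℝ) ≤ d := Nat.cast_nonneg _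
  have e1 : (2 * Real.pi * d / L) ^ 2 / Real.pi ^ 2 = 4 * d ^ 2 / L ^ 2 := by field_simp; ring
  rw [e1]
  have h1 : x * (x + 6) ≤ (e * L) * (e * L + e * L) := by
    have h2 : 6 ≤ e * L := by
      have := mul_le_mul_of_nonneg_left hLu he0.le
      nlinarith
    gcongr
  calc 4 * (d : ℝ) ^ 2 / L ^ 2 * (x * (x + 6)) ≤ 4 * (d : ℝ) ^ 2 / L ^ 2 * ((e * L) * (e * L + e * L)) := by gcongr
    _ = 8 * (d * e) ^ 2 := by field_simp; ring
    _ ≤ 8 * 2 ^ 2 := by
      have : d * e ≤ 2 := (mul_le_mul_of_nonneg_right hD he0.le).trans hD2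
      gcongr
    _ = 32 := by norm_num

/-- **comparison with the main field** -/
theorem cmp (hRH : RHs) (ε : ℝ) (hε : 0 < ε) (A : ℝ) (hA : 0 ≤ A) : ∃ κ : ℝ, 0 < κ ∧ ∃ K₀ : ℕ, ∀ K : ℕ, K₀ ≤ K →
    3 ≤ K → ∀ᶠ r : ℕ in atTop, ∀ᶠ T : ℝ in atTop, ∀ d : ℕ, r ≤ 2 * d → d ≤ 2 * r →
      (PT T).real {t | ε * Real.log r ≤ |YY T d t - Gd κ K r d T t|} ≤ Real.exp (-(A * Real.log r)) := by
  obtain ⟨ε', hε'⟩ : ∃ ε' : ℝ, ε' = ε / 8 := ⟨_, rfl⟩
  have hε'0 : 0 < ε' := by rw [hε']; positivity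
  obtain ⟨A', hA'⟩ : ∃ A' : ℝ, A' = A + 2 := ⟨_, rfl⟩
  have hA'0 : 0 ≤ A' := by rw [hA']; positivity
  obtain ⟨κ, hκ0, hκ1, herr⟩ := errR hRH ε' hε'0
  obtain ⟨C1, hC1, hsum⟩ := sum_be
  have hpi := Real.pi_pos
  refine ⟨κ, hκ0, ⌈1 / (ε' ^ 2 * Real.exp (-(A' + 4)))⌉₊, fun K hK hK3 => ?_⟩
  have hKp : (0 : ℝ) < K := by exact_mod_cast (by omega : 0 < K)
  have hKA : 1 / (K : ℝ) ≤ ε' ^ 2 * Real.exp (-(A' + 4)) := by
    have h1 : 1 / (ε' ^ 2 * Real.exp (-(A' + 4))) ≤ K := (Nat.le_ceil _).trans (by exact_mod_cast hK)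
    rw [div_le_iff₀ (by positivity)] at h1
    rw [div_le_iff₀ hKp]
    linarith
  filter_upwards [herr A' hA'0, logr_top.eventually (numC A' ε' κ C1 hA'0 hε'0 hκ0 hC1 K hK3 hKA),
    eventually_ge_atTop 1] with r hE hn hr1
  have hr0 : (0 : ℝ) < r := by exact_mod_cast hr1
  unfold Gd
  obtain ⟨q, hq⟩ : ∃ q : ℝ, q = Real.log r := ⟨_, rfl⟩
  have hrq : (r : ℝ) = Real.exp q := by rw [hq, Real.exp_log hr0]
  rw [← hq] at hE hn ⊢
  obtain ⟨n1, n2, n3, n4, n5, n6, n7, n8, n9⟩ := hn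
  have hq0 : 0 < q := by linarith
  have hqK : q / K ≤ q := div_le_self hq0.le (by
    have : (1 : ℝ) ≤ K := by exact_mod_cast (by omega : 1 ≤ K)
    exact this)
  have hlog0 : 0 ≤ Real.log (4 * q) := Real.log_nonneg (by linarith)
  have hlogκ : Real.log (κ * q) ≤ Real.log (4 * q) :=
    Real.log_le_log (by positivity) (mul_le_mul_of_nonneg_right (by linarith) hq0.le)
  have hlogd : Real.log (4 * q) - Real.log (κ * q) = Real.log (4 / κ) := by
    rw [← Real.log_div (by positivity) (by positivity)]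
    congr 1
    field_simp
  filter_upwards [hE, hsum (q / K) (Real.log (4 * q)) n4, hsum (Real.log (4 * q)) (Real.log (κ * q)) hlogκ,
    eventually_ge_atTop 3, XK_log (Real.exp_pos (-q)),
    Real.tendsto_log_atTop.eventually_ge_atTop (6 * Real.exp q)] with T hET s2 s3 hT3 hXl hL6 d hd1 hd2
  have hT1 : 1 ≤ T := by linarith
  have hT0 : 0 < T := by linarith
  have := PT_univ hT0
  have hL0 : 0 < Real.log T := Real.log_pos (by linarith)
  obtain ⟨l, hl⟩ : ∃ l : ℝ, l = Real.log T / (κ * q) := ⟨_, rfl⟩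
  have hl0 : 0 < l := by rw [hl]; positivity
  obtain ⟨h, hh⟩ : ∃ h : ℝ, h = 2 * Real.pi * d / Real.log T := ⟨_, rfl⟩
  rw [← hl] at hET
  rw [← hl, ← hh]
  obtain ⟨k, hk⟩ : ∃ k : ℕ, k = ⌊q⌋₊ := ⟨_, rfl⟩
  have hkq : (k : ℝ) ≤ q := by rw [hk]; exact Nat.floor_le hq0.le
  have hkq1 : q - 1 ≤ k := by
    have := Nat.lt_floor_add_one q
    rw [← hk] at this
    linarith
  obtain ⟨m, hm⟩ : ∃ m : ℕ, m = ⌊κ * q / 4⌋₊ := ⟨_, rfl⟩
  have hmq : (m : ℝ) ≤ κ * q / 4 := by rw [hm]; exact Nat.floor_le (by positivity)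
  have hmq1 : κ * q / 4 - 1 ≤ m := by
    have := Nat.lt_floor_add_one (κ * q / 4)
    rw [← hm] at this
    linarith
  have x4 : Real.exp (-Real.log (4 * q)) * (2 * k) ≤ 1 / 2 := by
    rw [Real.exp_neg, Real.exp_log (by positivity), inv_mul_eq_div, div_le_iff₀ (by positivity)]
    linarith
  have xκ : Real.exp (-Real.log (κ * q)) * (2 * m) ≤ 1 / 2 := by
    rw [Real.exp_neg, Real.exp_log (by positivity), inv_mul_eq_div, div_le_iff₀ (by positivity)]
    linarith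
  have xq : Real.exp (-q) * (2 * k) ≤ 1 / 2 := by
    refine le_trans ?_ x4
    have : Real.exp (-q) ≤ Real.exp (-Real.log (4 * q)) := Real.exp_le_exp.2 (by linarith)
    gcongr
  have hX1 : 1 ≤ XK (Real.exp (-q)) T := by
    unfold XK
    apply Nat.le_floor
    rw [Nat.cast_one]
    exact Real.one_le_rpow hT1 (Real.exp_pos _).le
  have hεq : 0 < ε' * q := by positivity
  -- the low primes
  have hvar : VS (nz (zD l h)) (XK (Real.exp (-q)) T) ≤ 32 := by
    rw [hh]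
    refine low_var hl0 hL0 hT1 hX1 hXl.2.1 (D := 2 * r) (by exact_mod_cast hd2) ?_ hL6
    rw [hrq, mul_assoc, ← Real.exp_add]
    simp
  have b1 : (PT T).real {t | ε' * q ≤ ‖PP (zD l h) (XK (Real.exp (-q)) T) t‖} ≤ Real.exp (-(A' * q)) :=
    tailZ (A := A') (c := 1) (ρ := Real.exp (-((A' + 4) / 1))) (k := k) (Real.exp_pos _) hT1 xq hvar (by norm_num) hεq
      (le_trans (mul_le_mul_of_nonneg_right hkq (by norm_num)) n8) hA'0 one_pos (by rw [one_mul]; exact hkq1)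
      (Real.exp_pos _).le le_rfl (by rw [div_one]; linarith)
  have v2 : ∑ p ∈ PI T (q / K) (Real.log (4 * q)), be l p ^ 2 ≤ (q / K + C1) / Real.pi ^ 2 := by
    refine (s2 l hl0).trans ?_
    apply div_le_div_of_nonneg_right _ (by positivity)
    linarith
  have b2 : ∀ h' : ℝ, (PT T).real {t | ε' * q ≤ |fld l (PI T (q / K) (Real.log (4 * q))) (t + h')|} ≤
      Real.exp (-(A' * q)) := fun h' =>
    tailF (A := A') (c := 1) (ρ := Real.exp (-((A' + 4) / 1))) (k := k) (Real.exp_pos _) hT1 (PI_sub hT1 le_rfl) x4 v2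
      (by positivity) hεq
      (le_trans (mul_le_mul_of_nonneg_right hkq (by positivity)) n6) hA'0 one_pos (by rw [one_mul]; exact hkq1)
      (Real.exp_pos _).le le_rfl (by rw [div_one]; linarith)
  have v3 : ∑ p ∈ PI T (Real.log (4 * q)) (Real.log (κ * q)), be l p ^ 2 ≤ (Real.log (4 / κ) + C1) / Real.pi ^ 2 := by
    rw [← hlogd]
    exact s3 l hl0
  have v3' : 0 ≤ (Real.log (4 / κ) + C1) / Real.pi ^ 2 := le_trans (by positivity) v3
  have b3 : ∀ h' : ℝ, (PT T).real {t | ε' * q ≤ |fld l (PI T (Real.log (4 * q)) (Real.log (κ * q))) (t + h')|} ≤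
      Real.exp (-(A' * q)) := fun h' =>
    tailF (A := A') (c := κ / 4) (ρ := Real.exp (-((A' + 4) / (κ / 4)))) (k := m) (Real.exp_pos _) hT1
      (PI_sub hT1 le_rfl) xκ v3 v3' hεq
      (le_trans (mul_le_mul_of_nonneg_right hmq v3') n7) hA'0 (by positivity) (by linarith)
      (Real.exp_pos _).le le_rfl n3
  -- the inclusion
  obtain ⟨S0, hS0⟩ : ∃ S0 : Set ℝ, S0 = {t | ∃ b < 4 * r, 1 ≤ b ∧ ε' * q ≤
      |((NZ (t + 2 * Real.pi * b / Real.log T) : ℝ) - NZ t) - b -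
        (fld l (Pr (XK (1 / (κ * q)) T)) (t + 2 * Real.pi * b / Real.log T) -
        fld l (Pr (XK (1 / (κ * q)) T)) t)|} := ⟨_, rfl⟩
  rw [← hS0] at hET
  have hsub : {t | ε * q ≤ |YY T d t - (fld l (PI T q (q / K)) (t + h) - fld l (PI T q (q / K)) t)|} ⊆
      S0 ∪ ({t | ε' * q ≤ ‖PP (zD l h) (XK (Real.exp (-q)) T) t‖} ∪
        ({t | ε' * q ≤ |fld l (PI T (q / K) (Real.log (4 * q))) (t + h)|} ∪
        ({t | ε' * q ≤ |fld l (PI T (q / K) (Real.log (4 * q))) (t + 0)|} ∪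
        ({t | ε' * q ≤ |fld l (PI T (Real.log (4 * q)) (Real.log (κ * q))) (t + h)|} ∪
        {t | ε' * q ≤ |fld l (PI T (Real.log (4 * q)) (Real.log (κ * q))) (t + 0)|})))) := by
    intro t ht
    by_contra hcon
    simp only [Set.mem_union, not_or, Set.mem_ofPred_eq, not_le, add_zero] at hcon
    obtain ⟨g0, g1, g2, g3, g4, g5⟩ := hcon
    rw [Set.mem_ofPred_eq] at ht
    have g0' : |((NZ (t + 2 * Real.pi * d / Real.log T) : ℝ) - NZ t) - d -
        (fld l (Pr (XK (1 / (κ * q)) T)) (t + 2 * Real.pi * d / Real.log T) -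
        fld l (Pr (XK (1 / (κ * q)) T)) t)| < ε' * q := by
      by_contra hc
      push Not at hc
      exact g0 (by rw [hS0]; exact ⟨d, by omega, by omega, hc⟩)
    rw [← hh] at g0'
    have e0 : YY T d t = ((NZ (t + h) : ℝ) - NZ t) - d := by
      unfold YY
      rw [hh]
    rw [e0] at ht
    have f1 := fld_split2 (l := l) hT1 (by positivity : 0 < κ * q) hlogκ (n4.trans hqK) (t + h)
    have f2 := fld_split2 (l := l) hT1 (by positivity : 0 < κ * q) hlogκ (n4.trans hqK) t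
    have f3 : ∀ s, fld l (PI T q (Real.log (4 * q))) s = fld l (PI T q (q / K)) s +
        fld l (PI T (q / K) (Real.log (4 * q))) s := by
      intro s
      rw [PI_union hT1 hqK n4, fld_union (PI_disj hT1 le_rfl)]
    rw [f1, f2, f3, f3] at g0'
    have g1' : |fld l (Pr (XK (Real.exp (-q)) T)) (t + h) - fld l (Pr (XK (Real.exp (-q)) T)) t| < ε' * q := by
      rw [zD_PP]
      exact (Complex.abs_im_le_norm _).trans_lt g1
    have a0 := abs_lt.1 g0'
    have a1 := abs_lt.1 g1'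
    have a2 := abs_lt.1 g2
    have a3 := abs_lt.1 g3
    have a4 := abs_lt.1 g4
    have a5 := abs_lt.1 g5
    have e8 : ε * q = 8 * (ε' * q) := by rw [hε']; ring
    rw [e8] at ht
    have : |((NZ (t + h) : ℝ) - NZ t) - d - (fld l (PI T q (q / K)) (t + h) - fld l (PI T q (q / K)) t)| <
        8 * (ε' * q) := by
      rw [abs_lt]
      constructor <;> linarith [a0.1, a0.2, a1.1, a1.2, a2.1, a2.2, a3.1, a3.2, a4.1, a4.2, a5.1, a5.2]
    linarith
  refine (measureReal_mono hsub (measure_ne_top _ _)).trans ?_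
  have u1 := measureReal_union_le (μ := PT T) S0 ({t | ε' * q ≤ ‖PP (zD l h) (XK (Real.exp (-q)) T) t‖} ∪
        ({t | ε' * q ≤ |fld l (PI T (q / K) (Real.log (4 * q))) (t + h)|} ∪
        ({t | ε' * q ≤ |fld l (PI T (q / K) (Real.log (4 * q))) (t + 0)|} ∪
        ({t | ε' * q ≤ |fld l (PI T (Real.log (4 * q)) (Real.log (κ * q))) (t + h)|} ∪
        {t | ε' * q ≤ |fld l (PI T (Real.log (4 * q)) (Real.log (κ * q))) (t + 0)|}))))
  have u2 := measureReal_union_le (μ := PT T) {t | ε' * q ≤ ‖PP (zD l h) (XK (Real.exp (-q)) T) t‖}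
        ({t | ε' * q ≤ |fld l (PI T (q / K) (Real.log (4 * q))) (t + h)|} ∪
        ({t | ε' * q ≤ |fld l (PI T (q / K) (Real.log (4 * q))) (t + 0)|} ∪
        ({t | ε' * q ≤ |fld l (PI T (Real.log (4 * q)) (Real.log (κ * q))) (t + h)|} ∪
        {t | ε' * q ≤ |fld l (PI T (Real.log (4 * q)) (Real.log (κ * q))) (t + 0)|})))
  have u3 := measureReal_union_le (μ := PT T) {t | ε' * q ≤ |fld l (PI T (q / K) (Real.log (4 * q))) (t + h)|}
        ({t | ε' * q ≤ |fld l (PI T (q / K) (Real.log (4 * q))) (t + 0)|} ∪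
        ({t | ε' * q ≤ |fld l (PI T (Real.log (4 * q)) (Real.log (κ * q))) (t + h)|} ∪
        {t | ε' * q ≤ |fld l (PI T (Real.log (4 * q)) (Real.log (κ * q))) (t + 0)|}))
  have u4 := measureReal_union_le (μ := PT T) {t | ε' * q ≤ |fld l (PI T (q / K) (Real.log (4 * q))) (t + 0)|}
        ({t | ε' * q ≤ |fld l (PI T (Real.log (4 * q)) (Real.log (κ * q))) (t + h)|} ∪
        {t | ε' * q ≤ |fld l (PI T (Real.log (4 * q)) (Real.log (κ * q))) (t + 0)|})
  have u5 := measureReal_union_le (μ := PT T)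
        {t | ε' * q ≤ |fld l (PI T (Real.log (4 * q)) (Real.log (κ * q))) (t + h)|}
        {t | ε' * q ≤ |fld l (PI T (Real.log (4 * q)) (Real.log (κ * q))) (t + 0)|}
  have w1 := b2 h
  have w2 := b2 0
  have w3 := b3 h
  have w4 := b3 0
  have w6 := six_exp (A := A) (q := q) (by linarith)
  rw [← hA'] at w6
  linarith

/-- **small windows** -/
theorem smallW (hRH : RHs) (ε : ℝ) (hε : 0 < ε) (A : ℝ) (hA : 0 ≤ A) :
    ∀ᶠ r : ℕ in atTop, ∀ᶠ T : ℝ in atTop, ∀ d : ℕ, 1 ≤ d → (d : ℝ) ≤ Real.log r →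
      (PT T).real {t | ε * Real.log r ≤ |YY T d t|} ≤ Real.exp (-(A * Real.log r)) := by
  obtain ⟨ε', hε'⟩ : ∃ ε' : ℝ, ε' = ε / 8 := ⟨_, rfl⟩
  have hε'0 : 0 < ε' := by rw [hε']; positivity
  obtain ⟨A', hA'⟩ : ∃ A' : ℝ, A' = A + 2 := ⟨_, rfl⟩
  have hA'0 : 0 ≤ A' := by rw [hA']; positivity
  obtain ⟨κ, hκ0, hκ1, herr⟩ := errR hRH ε' hε'0
  obtain ⟨C1, hC1, hsum⟩ := sum_be
  have hpi := Real.pi_pos
  obtain ⟨K, hK⟩ : ∃ K : ℕ, K = ⌈1 / (ε' ^ 2 * Real.exp (-(A' + 4)))⌉₊ + 3 := ⟨_, rfl⟩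
  have hK3 : 3 ≤ K := by omega
  have hKp : (0 : ℝ) < K := by exact_mod_cast (by omega : 0 < K)
  have hKA : 1 / (K : ℝ) ≤ ε' ^ 2 * Real.exp (-(A' + 4)) := by
    have h1 : 1 / (ε' ^ 2 * Real.exp (-(A' + 4))) ≤ K := by
      refine (Nat.le_ceil _).trans ?_
      rw [hK]
      push_cast
      linarith
    rw [div_le_iff₀ (by positivity)] at h1
    rw [div_le_iff₀ hKp]
    linarith
  filter_upwards [herr A' hA'0, logr_top.eventually (numC A' ε' κ C1 hA'0 hε'0 hκ0 hC1 K hK3 hKA),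
    eventually_ge_atTop 1] with r hE hn hr1
  have hr0 : (0 : ℝ) < r := by exact_mod_cast hr1
  obtain ⟨q, hq⟩ : ∃ q : ℝ, q = Real.log r := ⟨_, rfl⟩
  have hrq : (r : ℝ) = Real.exp q := by rw [hq, Real.exp_log hr0]
  rw [← hq] at hE hn ⊢
  obtain ⟨n1, n2, n3, n4, n5, n6, n7, n8, n9⟩ := hn
  have hq0 : 0 < q := by linarith
  have hlog0 : 0 ≤ Real.log (4 * q) := Real.log_nonneg (by linarith)
  have hlogκ : Real.log (κ * q) ≤ Real.log (4 * q) :=
    Real.log_le_log (by positivity) (mul_le_mul_of_nonneg_right (by linarith) hq0.le)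
  have hlogd : Real.log (4 * q) - Real.log (κ * q) = Real.log (4 / κ) := by
    rw [← Real.log_div (by positivity) (by positivity)]
    congr 1
    field_simp
  obtain ⟨u, hu⟩ : ∃ u : ℝ, u = 2 * Real.log q := ⟨_, rfl⟩
  rw [← hu] at n5 n9
  have hexu : Real.exp u = q ^ 2 := by
    rw [hu, ← Real.log_rpow hq0, Real.exp_log (by positivity)]
    norm_num
  have hexu' : Real.exp (-u) = 1 / q ^ 2 := by rw [Real.exp_neg, hexu, one_div]
  filter_upwards [hE, hsum u (Real.log (4 * q)) n5, hsum (Real.log (4 * q)) (Real.log (κ * q)) hlogκ,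
    eventually_ge_atTop 3, XK_log (Real.exp_pos (-u)),
    Real.tendsto_log_atTop.eventually_ge_atTop (6 * Real.exp u)] with T hET s2 s3 hT3 hXl hL6 d hd1 hd2
  have hT1 : 1 ≤ T := by linarith
  have hT0 : 0 < T := by linarith
  have := PT_univ hT0
  have hL0 : 0 < Real.log T := Real.log_pos (by linarith)
  obtain ⟨l, hl⟩ : ∃ l : ℝ, l = Real.log T / (κ * q) := ⟨_, rfl⟩
  have hl0 : 0 < l := by rw [hl]; positivity
  obtain ⟨h, hh⟩ : ∃ h : ℝ, h = 2 * Real.pi * d / Real.log T := ⟨_, rfl⟩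
  rw [← hl] at hET
  obtain ⟨k, hk⟩ : ∃ k : ℕ, k = ⌊q⌋₊ := ⟨_, rfl⟩
  have hkq : (k : ℝ) ≤ q := by rw [hk]; exact Nat.floor_le hq0.le
  have hkq1 : q - 1 ≤ k := by
    have := Nat.lt_floor_add_one q
    rw [← hk] at this
    linarith
  obtain ⟨m, hm⟩ : ∃ m : ℕ, m = ⌊κ * q / 4⌋₊ := ⟨_, rfl⟩
  have hmq : (m : ℝ) ≤ κ * q / 4 := by rw [hm]; exact Nat.floor_le (by positivity)
  have hmq1 : κ * q / 4 - 1 ≤ m := by
    have := Nat.lt_floor_add_one (κ * q / 4)
    rw [← hm] at this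
    linarith
  have x4 : Real.exp (-Real.log (4 * q)) * (2 * k) ≤ 1 / 2 := by
    rw [Real.exp_neg, Real.exp_log (by positivity), inv_mul_eq_div, div_le_iff₀ (by positivity)]
    linarith
  have xκ : Real.exp (-Real.log (κ * q)) * (2 * m) ≤ 1 / 2 := by
    rw [Real.exp_neg, Real.exp_log (by positivity), inv_mul_eq_div, div_le_iff₀ (by positivity)]
    linarith
  have xq : Real.exp (-u) * (2 * k) ≤ 1 / 2 := by
    refine le_trans ?_ x4
    have : Real.exp (-u) ≤ Real.exp (-Real.log (4 * q)) := Real.exp_le_exp.2 (by linarith)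
    gcongr
  have hX1 : 1 ≤ XK (Real.exp (-u)) T := by
    unfold XK
    apply Nat.le_floor
    rw [Nat.cast_one]
    exact Real.one_le_rpow hT1 (Real.exp_pos _).le
  have hεq : 0 < ε' * q := by positivity
  -- the low primes
  have hvar : VS (nz (zD l h)) (XK (Real.exp (-u)) T) ≤ 32 := by
    rw [hh]
    refine low_var hl0 hL0 hT1 hX1 hXl.2.1 (D := q) hd2 ?_ hL6
    rw [hexu', mul_one_div, div_le_iff₀ (by positivity)]
    nlinarith
  have b1 : (PT T).real {t | ε' * q ≤ ‖PP (zD l h) (XK (Real.exp (-u)) T) t‖} ≤ Real.exp (-(A' * q)) :=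
    tailZ (A := A') (c := 1) (ρ := Real.exp (-((A' + 4) / 1))) (k := k) (Real.exp_pos _) hT1 xq hvar (by norm_num) hεq
      (le_trans (mul_le_mul_of_nonneg_right hkq (by norm_num)) n8) hA'0 one_pos (by rw [one_mul]; exact hkq1)
      (Real.exp_pos _).le le_rfl (by rw [div_one]; linarith)
  have v2 : ∑ p ∈ PI T u (Real.log (4 * q)), be l p ^ 2 ≤ (u + C1) / Real.pi ^ 2 := by
    refine (s2 l hl0).trans ?_
    apply div_le_div_of_nonneg_right _ (by positivity)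
    linarith
  have v2' : 0 ≤ (u + C1) / Real.pi ^ 2 := le_trans (by positivity) v2
  have b2 : ∀ h' : ℝ, (PT T).real {t | ε' * q ≤ |fld l (PI T u (Real.log (4 * q))) (t + h')|} ≤
      Real.exp (-(A' * q)) := fun h' =>
    tailF (A := A') (c := 1) (ρ := Real.exp (-((A' + 4) / 1))) (k := k) (Real.exp_pos _) hT1 (PI_sub hT1 le_rfl) x4 v2
      v2' hεq
      (le_trans (mul_le_mul_of_nonneg_right hkq v2') n9) hA'0 one_pos (by rw [one_mul]; exact hkq1)
      (Real.exp_pos _).le le_rfl (by rw [div_one]; linarith)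
  have v3 : ∑ p ∈ PI T (Real.log (4 * q)) (Real.log (κ * q)), be l p ^ 2 ≤ (Real.log (4 / κ) + C1) / Real.pi ^ 2 := by
    rw [← hlogd]
    exact s3 l hl0
  have v3' : 0 ≤ (Real.log (4 / κ) + C1) / Real.pi ^ 2 := le_trans (by positivity) v3
  have b3 : ∀ h' : ℝ, (PT T).real {t | ε' * q ≤ |fld l (PI T (Real.log (4 * q)) (Real.log (κ * q))) (t + h')|} ≤
      Real.exp (-(A' * q)) := fun h' =>
    tailF (A := A') (c := κ / 4) (ρ := Real.exp (-((A' + 4) / (κ / 4)))) (k := m) (Real.exp_pos _) hT1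
      (PI_sub hT1 le_rfl) xκ v3 v3' hεq
      (le_trans (mul_le_mul_of_nonneg_right hmq v3') n7) hA'0 (by positivity) (by linarith)
      (Real.exp_pos _).le le_rfl n3
  -- the inclusion
  obtain ⟨S0, hS0⟩ : ∃ S0 : Set ℝ, S0 = {t | ∃ b < 4 * r, 1 ≤ b ∧ ε' * q ≤
      |((NZ (t + 2 * Real.pi * b / Real.log T) : ℝ) - NZ t) - b -
        (fld l (Pr (XK (1 / (κ * q)) T)) (t + 2 * Real.pi * b / Real.log T) -
        fld l (Pr (XK (1 / (κ * q)) T)) t)|} := ⟨_, rfl⟩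
  rw [← hS0] at hET
  have hdr : d < 4 * r := by
    have h1 : (d : ℝ) ≤ r := by
      refine hd2.trans ?_
      rw [hrq]
      have := Real.add_one_le_exp q
      linarith
    have h2 : d ≤ r := by exact_mod_cast h1
    omega
  have hsub : {t | ε * q ≤ |YY T d t|} ⊆
      S0 ∪ ({t | ε' * q ≤ ‖PP (zD l h) (XK (Real.exp (-u)) T) t‖} ∪
        ({t | ε' * q ≤ |fld l (PI T u (Real.log (4 * q))) (t + h)|} ∪
        ({t | ε' * q ≤ |fld l (PI T u (Real.log (4 * q))) (t + 0)|} ∪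
        ({t | ε' * q ≤ |fld l (PI T (Real.log (4 * q)) (Real.log (κ * q))) (t + h)|} ∪
        {t | ε' * q ≤ |fld l (PI T (Real.log (4 * q)) (Real.log (κ * q))) (t + 0)|})))) := by
    intro t ht
    by_contra hcon
    simp only [Set.mem_union, not_or, Set.mem_ofPred_eq, not_le, add_zero] at hcon
    obtain ⟨g0, g1, g2, g3, g4, g5⟩ := hcon
    rw [Set.mem_ofPred_eq] at ht
    have g0' : |((NZ (t + 2 * Real.pi * d / Real.log T) : ℝ) - NZ t) - d -
        (fld l (Pr (XK (1 / (κ * q)) T)) (t + 2 * Real.pi * d / Real.log T) -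
        fld l (Pr (XK (1 / (κ * q)) T)) t)| < ε' * q := by
      by_contra hc
      push Not at hc
      exact g0 (by rw [hS0]; exact ⟨d, hdr, hd1, hc⟩)
    rw [← hh] at g0'
    have e0 : YY T d t = ((NZ (t + h) : ℝ) - NZ t) - d := by
      unfold YY
      rw [hh]
    rw [e0] at ht
    have f1 := fld_split2 (l := l) hT1 (by positivity : 0 < κ * q) hlogκ n5 (t + h)
    have f2 := fld_split2 (l := l) hT1 (by positivity : 0 < κ * q) hlogκ n5 t
    rw [f1, f2] at g0'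
    have g1' : |fld l (Pr (XK (Real.exp (-u)) T)) (t + h) - fld l (Pr (XK (Real.exp (-u)) T)) t| < ε' * q := by
      rw [zD_PP]
      exact (Complex.abs_im_le_norm _).trans_lt g1
    have a0 := abs_lt.1 g0'
    have a1 := abs_lt.1 g1'
    have a2 := abs_lt.1 g2
    have a3 := abs_lt.1 g3
    have a4 := abs_lt.1 g4
    have a5 := abs_lt.1 g5
    have e8 : ε * q = 8 * (ε' * q) := by rw [hε']; ring
    rw [e8] at ht
    have : |((NZ (t + h) : ℝ) - NZ t) - d| < 8 * (ε' * q) := by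
      rw [abs_lt]
      constructor <;> linarith [a0.1, a0.2, a1.1, a1.2, a2.1, a2.2, a3.1, a3.2, a4.1, a4.2, a5.1, a5.2]
    linarith
  refine (measureReal_mono hsub (measure_ne_top _ _)).trans ?_
  have u1 := measureReal_union_le (μ := PT T) S0 ({t | ε' * q ≤ ‖PP (zD l h) (XK (Real.exp (-u)) T) t‖} ∪
        ({t | ε' * q ≤ |fld l (PI T u (Real.log (4 * q))) (t + h)|} ∪
        ({t | ε' * q ≤ |fld l (PI T u (Real.log (4 * q))) (t + 0)|} ∪
        ({t | ε' * q ≤ |fld l (PI T (Real.log (4 * q)) (Real.log (κ * q))) (t + h)|} ∪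
        {t | ε' * q ≤ |fld l (PI T (Real.log (4 * q)) (Real.log (κ * q))) (t + 0)|}))))
  have u2 := measureReal_union_le (μ := PT T) {t | ε' * q ≤ ‖PP (zD l h) (XK (Real.exp (-u)) T) t‖}
        ({t | ε' * q ≤ |fld l (PI T u (Real.log (4 * q))) (t + h)|} ∪
        ({t | ε' * q ≤ |fld l (PI T u (Real.log (4 * q))) (t + 0)|} ∪
        ({t | ε' * q ≤ |fld l (PI T (Real.log (4 * q)) (Real.log (κ * q))) (t + h)|} ∪
        {t | ε' * q ≤ |fld l (PI T (Real.log (4 * q)) (Real.log (κ * q))) (t + 0)|})))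
  have u3 := measureReal_union_le (μ := PT T) {t | ε' * q ≤ |fld l (PI T u (Real.log (4 * q))) (t + h)|}
        ({t | ε' * q ≤ |fld l (PI T u (Real.log (4 * q))) (t + 0)|} ∪
        ({t | ε' * q ≤ |fld l (PI T (Real.log (4 * q)) (Real.log (κ * q))) (t + h)|} ∪
        {t | ε' * q ≤ |fld l (PI T (Real.log (4 * q)) (Real.log (κ * q))) (t + 0)|}))
  have u4 := measureReal_union_le (μ := PT T) {t | ε' * q ≤ |fld l (PI T u (Real.log (4 * q))) (t + 0)|}
        ({t | ε' * q ≤ |fld l (PI T (Real.log (4 * q)) (Real.log (κ * q))) (t + h)|} ∪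
        {t | ε' * q ≤ |fld l (PI T (Real.log (4 * q)) (Real.log (κ * q))) (t + 0)|})
  have u5 := measureReal_union_le (μ := PT T)
        {t | ε' * q ≤ |fld l (PI T (Real.log (4 * q)) (Real.log (κ * q))) (t + h)|}
        {t | ε' * q ≤ |fld l (PI T (Real.log (4 * q)) (Real.log (κ * q))) (t + 0)|}
  have w1 := b2 h
  have w2 := b2 0
  have w3 := b3 h
  have w4 := b3 0
  have w6 := six_exp (A := A) (q := q) (by linarith)
  rw [← hA'] at w6
  linarith

end

end Pool.Agent.U403.Ldp
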