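import Pool.Agent.U403.Ldp.Vsb

/-! # Large deviations: Cramer's argument -/

set_option autoImplicit false

open Filter Topology MeasureTheory Set
open Pool.Agent.Y743.CL
open Pool.Agent.R320.JL
open Pool.Agent.U403.Max

namespace Pool.Agent.U403.Ldp

noncomputable section

/-- **Cramér's argument** -/
lemma cramer {Ω : Type*} [MeasurableSpace Ω] {P : Measure Ω} [IsProbabilityMeasure P] {Y : Ω → ℝ} {A : Set Ω}
    {V0 W lam θ η : ℝ} (hY : Measurable Y) (hA : MeasurableSet A) (hYA : ∀ ω ∈ A, |Y ω| ≤ V0)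
    (hlam : 0 ≤ lam) (hθ : 0 ≤ θ)
    (h0 : (1 - η) * Real.exp (lam ^ 2 * W / 2) ≤ ∫ ω in A, Real.exp (lam * Y ω) ∂P)
    (h1 : ∫ ω in A, Real.exp ((lam + θ) * Y ω) ∂P ≤ (1 + η) * Real.exp ((lam + θ) ^ 2 * W / 2))
    (h2 : ∫ ω in A, Real.exp ((lam - θ) * Y ω) ∂P ≤ (1 + η) * Real.exp ((lam - θ) ^ 2 * W / 2)) :
    Real.exp (-(lam ^ 2 * W / 2 + lam * θ * W)) * (1 - η - 2 * (1 + η) * Real.exp (-(θ ^ 2 * W / 2))) ≤
      P.real {ω | (lam - θ) * W ≤ Y ω} := by
  obtain ⟨S, hS⟩ : ∃ S : Set Ω, S = {ω | (lam - θ) * W ≤ Y ω} := ⟨_, rfl⟩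
  have hSm : MeasurableSet S := by rw [hS]; exact measurableSet_le measurable_const hY
  have hint : ∀ μ : ℝ, IntegrableOn (fun ω => Real.exp (μ * Y ω)) A P := by
    intro μ
    refine bdd_int hA (by fun_prop) (M := Real.exp (|μ| * V0)) fun ω hω => ?_
    rw [abs_of_pos (Real.exp_pos _)]
    apply Real.exp_le_exp.2
    refine (le_abs_self _).trans ?_
    rw [abs_mul]
    exact mul_le_mul_of_nonneg_left (hYA ω hω) (abs_nonneg _)
  have hindi : IntegrableOn (S.indicator (fun _ => (1 : ℝ))) A P :=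
    ((integrable_const (1 : ℝ)).indicator hSm).integrableOn
  have hpt : ∀ ω, Real.exp (lam * Y ω) ≤ Real.exp (lam * (lam + θ) * W) * S.indicator (fun _ => (1 : ℝ)) ω +
      (Real.exp (-(θ * (lam + θ) * W)) * Real.exp ((lam + θ) * Y ω) +
        Real.exp (θ * (lam - θ) * W) * Real.exp ((lam - θ) * Y ω)) := by
    intro ω
    have p1 : 0 ≤ Real.exp (-(θ * (lam + θ) * W)) * Real.exp ((lam + θ) * Y ω) := by positivity
    have p2 : 0 ≤ Real.exp (θ * (lam - θ) * W) * Real.exp ((lam - θ) * Y ω) := by positivity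
    have p3 : 0 ≤ Real.exp (lam * (lam + θ) * W) * S.indicator (fun _ => (1 : ℝ)) ω :=
      mul_nonneg (Real.exp_pos _).le (Set.indicator_nonneg (fun _ _ => zero_le_one) _)
    rcases le_total ((lam + θ) * W) (Y ω) with c | c
    · have : Real.exp (lam * Y ω) ≤ Real.exp (-(θ * (lam + θ) * W)) * Real.exp ((lam + θ) * Y ω) := by
        rw [← Real.exp_add]
        apply Real.exp_le_exp.2
        have := mul_le_mul_of_nonneg_left c hθ
        linarith
      linarith
    · rcases le_total (Y ω) ((lam - θ) * W) with c' | c'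
      · have : Real.exp (lam * Y ω) ≤ Real.exp (θ * (lam - θ) * W) * Real.exp ((lam - θ) * Y ω) := by
          rw [← Real.exp_add]
          apply Real.exp_le_exp.2
          have := mul_le_mul_of_nonneg_left c' hθ
          linarith
        linarith
      · have hω : ω ∈ S := by rw [hS]; exact c'
        rw [Set.indicator_of_mem hω, mul_one]
        have : Real.exp (lam * Y ω) ≤ Real.exp (lam * (lam + θ) * W) := by
          apply Real.exp_le_exp.2
          have := mul_le_mul_of_nonneg_left c hlam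
          linarith
        linarith
  have hi : ∫ ω in A, Real.exp (lam * Y ω) ∂P ≤
      ∫ ω in A, (Real.exp (lam * (lam + θ) * W) * S.indicator (fun _ => (1 : ℝ)) ω +
      (Real.exp (-(θ * (lam + θ) * W)) * Real.exp ((lam + θ) * Y ω) +
        Real.exp (θ * (lam - θ) * W) * Real.exp ((lam - θ) * Y ω))) ∂P := by
    apply integral_mono (hint lam) _ hpt
    exact (hindi.const_mul _).add (((hint _).const_mul _).add ((hint _).const_mul _))
  have hadd : Integrable (fun ω => Real.exp (-(θ * (lam + θ) * W)) * Real.exp ((lam + θ) * Y ω) +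
      Real.exp (θ * (lam - θ) * W) * Real.exp ((lam - θ) * Y ω)) (P.restrict A) :=
    ((hint _).const_mul _).add ((hint _).const_mul _)
  rw [integral_add (hindi.const_mul _) hadd,
    integral_add ((hint _).const_mul _) ((hint _).const_mul _), integral_const_mul, integral_const_mul,
    integral_const_mul] at hi
  have hS1 : ∫ ω in A, S.indicator (fun _ => (1 : ℝ)) ω ∂P ≤ P.real S := by
    rw [setIntegral_indicator hSm, setIntegral_const, smul_eq_mul, mul_one]
    exact measureReal_mono inter_subset_right (measure_ne_top _ _)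
  rw [← hS]
  have e1 : Real.exp (-(θ * (lam + θ) * W)) * ∫ ω in A, Real.exp ((lam + θ) * Y ω) ∂P ≤
      (1 + η) * Real.exp ((lam ^ 2 - θ ^ 2) * W / 2) := by
    refine (mul_le_mul_of_nonneg_left h1 (Real.exp_pos _).le).trans (le_of_eq ?_)
    rw [mul_left_comm, ← Real.exp_add]
    congr 2
    ring
  have e2 : Real.exp (θ * (lam - θ) * W) * ∫ ω in A, Real.exp ((lam - θ) * Y ω) ∂P ≤
      (1 + η) * Real.exp ((lam ^ 2 - θ ^ 2) * W / 2) := by
    refine (mul_le_mul_of_nonneg_left h2 (Real.exp_pos _).le).trans (le_of_eq ?_)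
    rw [mul_left_comm, ← Real.exp_add]
    congr 2
    ring
  have e3 : Real.exp (lam * (lam + θ) * W) * ∫ ω in A, S.indicator (fun _ => (1 : ℝ)) ω ∂P ≤
      Real.exp (lam * (lam + θ) * W) * P.real S := mul_le_mul_of_nonneg_left hS1 (Real.exp_pos _).le
  have key : (1 - η) * Real.exp (lam ^ 2 * W / 2) ≤ Real.exp (lam * (lam + θ) * W) * P.real S +
      2 * (1 + η) * Real.exp ((lam ^ 2 - θ ^ 2) * W / 2) := by linarith
  have k1 := mul_le_mul_of_nonneg_left key (Real.exp_pos (-(lam * (lam + θ) * W))).le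
  have k2 : Real.exp (-(lam * (lam + θ) * W)) * (Real.exp (lam * (lam + θ) * W) * P.real S +
      2 * (1 + η) * Real.exp ((lam ^ 2 - θ ^ 2) * W / 2)) = P.real S +
      2 * (1 + η) * (Real.exp (-(lam * (lam + θ) * W)) * Real.exp ((lam ^ 2 - θ ^ 2) * W / 2)) := by
    have : Real.exp (-(lam * (lam + θ) * W)) * Real.exp (lam * (lam + θ) * W) = 1 := by
      rw [← Real.exp_add]; simp
    linear_combination (P.real S) * this
  have k3 : Real.exp (-(lam * (lam + θ) * W)) * Real.exp ((lam ^ 2 - θ ^ 2) * W / 2) =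
      Real.exp (-(lam ^ 2 * W / 2 + lam * θ * W)) * Real.exp (-(θ ^ 2 * W / 2)) := by
    rw [← Real.exp_add, ← Real.exp_add]
    congr 1
    ring
  have k4 : Real.exp (-(lam * (lam + θ) * W)) * ((1 - η) * Real.exp (lam ^ 2 * W / 2)) =
      (1 - η) * Real.exp (-(lam ^ 2 * W / 2 + lam * θ * W)) := by
    rw [mul_left_comm, ← Real.exp_add]
    congr 2
    ring
  rw [k2, k3, k4] at k1
  linarith

/-- numerical conditions -/
lemma numL (K : ℕ) (hK : 3 ≤ K) (a C2 : ℝ) (ha : 0 ≤ a) (hC2 : 0 ≤ C2) (B : ℕ) (hB : 2 * a ^ 2 + 4 ≤ B) :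
    ∀ᶠ q : ℝ in atTop, ∀ M : ℕ, M = ⌊Real.exp (q / K) / 8⌋₊ → ∀ v : ℝ, 0 ≤ v → v ≤ a ^ 2 * (q / Real.pi ^ 2 + C2) →
      ∀ P : ℝ, 0 ≤ P → P ≤ 17 * (((B * K).factorial : ℝ) * (2 * (q / Real.pi ^ 2 + C2)) ^ (B * K) /
        Real.exp (q / (2 * K)) ^ (2 * (B * K))) →
      Real.exp (Real.exp 1 * (a * Real.exp (q / (2 * K)))) / Real.exp 1 ^ (2 * M + 1) +
        Real.exp (Real.exp 1 * (v / 2)) / Real.exp 1 ^ (M + 1) + 3 * (1 / 100) +
        2 * (2 * M + 1) * Real.exp v * Real.sqrt P ≤ 1 / 10 := by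
  have hK0 : 0 < K := by omega
  have hKr : (0 : ℝ) < K := by exact_mod_cast hK0
  have hpi3 := Real.pi_gt_three
  have q1 := (y_top hK0).eventually (ev_quad (Real.exp 1 * a) 0 (show (0 : ℝ) < 1 / 100 by norm_num))
  have q2 := (y_top hK0).eventually (ev_quad (Real.exp 1 * a ^ 2 * K) (Real.exp 1 * a ^ 2 * C2 / 2)
    (show (0 : ℝ) < 1 / 100 by norm_num))
  have q3 := ev_pow 2 C2 (by norm_num) (B * K) (Real.exp (2 * (a ^ 2 * C2)) * (17 * ((B * K).factorial : ℝ)) * 2 ^ (B * K))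
    (show (0 : ℝ) < (1 / 1000) ^ 2 by norm_num)
  filter_upwards [q1, q2, q3, eventually_ge_atTop 1] with q q1 q2 q3 hq M hM v hv0 hv P hP0 hP
  have hq0 : 0 < q := by linarith
  obtain ⟨x, hx⟩ : ∃ x : ℝ, x = Real.exp (q / (2 * K)) := ⟨_, rfl⟩
  have hx0 : 0 < x := by rw [hx]; exact Real.exp_pos _
  have hx2 : x ^ 2 = Real.exp (q / K) := by
    rw [hx, ← Real.exp_nat_mul]
    congr 1
    push_cast
    field_simp
  rw [← hx] at q1 q2 hP ⊢
  rw [← hx2] at hM
  have hM1 : x ^ 2 / 8 ≤ (M : ℝ) + 1 := by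
    have := Nat.lt_floor_add_one (x ^ 2 / 8)
    rw [← hM] at this
    linarith
  have hM2 : (M : ℝ) ≤ x ^ 2 / 8 := by rw [hM]; exact Nat.floor_le (by positivity)
  have hM0 : (0 : ℝ) ≤ M := Nat.cast_nonneg _
  have he : ∀ n : ℕ, Real.exp 1 ^ n = Real.exp n := fun n => by rw [← Real.exp_nat_mul, mul_one]
  have hqx : q ≤ 2 * K * x := by
    have h1 : q / (2 * K) + 1 ≤ x := by rw [hx]; exact Real.add_one_le_exp _
    have h2 : q / (2 * K) ≤ x := by linarith
    rw [div_le_iff₀ (by positivity)] at h2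
    linarith
  have hpi1 : q / Real.pi ^ 2 ≤ q := by
    rw [div_le_iff₀ (by positivity)]
    have : 1 ≤ Real.pi ^ 2 := by nlinarith
    nlinarith
  have t1 : Real.exp (Real.exp 1 * (a * x)) / Real.exp 1 ^ (2 * M + 1) ≤ 1 / 100 := by
    refine le_trans ?_ q1
    rw [he, ← Real.exp_sub]
    apply Real.exp_le_exp.2
    push_cast
    linarith
  have hv' : v ≤ a ^ 2 * (q + C2) := hv.trans (by gcongr)
  have t2 : Real.exp (Real.exp 1 * (v / 2)) / Real.exp 1 ^ (M + 1) ≤ 1 / 100 := by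
    refine le_trans ?_ q2
    rw [he, ← Real.exp_sub]
    apply Real.exp_le_exp.2
    push_cast
    have h1 : v ≤ a ^ 2 * (2 * K * x + C2) := hv'.trans (by gcongr)
    have h2 := mul_le_mul_of_nonneg_left h1 (Real.exp_pos 1).le
    linarith
  have t4 : 2 * (2 * M + 1) * Real.exp v * Real.sqrt P ≤ 1 / 100 := by
    have hx2q : x ^ 2 ≤ Real.exp q := by
      rw [hx2]
      apply Real.exp_le_exp.2
      rw [div_le_iff₀ hKr]
      have : (1 : ℝ) ≤ K := by exact_mod_cast hK0
      nlinarith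
    have hMq : 2 * (2 * (M : ℝ) + 1) ≤ 3 * Real.exp q := by
      have : 1 ≤ Real.exp q := Real.one_le_exp hq0.le
      linarith
    have hP' : P ≤ (1 / 1000 * (Real.exp (-q) * Real.exp (-(a ^ 2 * (q + C2))))) ^ 2 := by
      refine hP.trans ?_
      have h1 : x ^ (2 * (B * K)) = Real.exp (B * q) := by
        rw [hx, ← Real.exp_nat_mul]
        congr 1
        push_cast
        field_simp
      have e0 : (1 / 1000 * (Real.exp (-q) * Real.exp (-(a ^ 2 * (q + C2))))) ^ 2 =
          (1 / 1000) ^ 2 * Real.exp (-(2 * q) - 2 * (a ^ 2 * (q + C2))) := by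
        rw [mul_pow, ← Real.exp_add, ← Real.exp_nat_mul]
        congr 2
        push_cast
        ring
      rw [h1, e0, ← mul_div_assoc, div_le_iff₀ (Real.exp_pos _), mul_assoc ((1 / 1000 : ℝ) ^ 2), ← Real.exp_add]
      have h2 : (q / Real.pi ^ 2 + C2) ^ (B * K) ≤ (q + C2) ^ (B * K) := by gcongr
      calc 17 * (((B * K).factorial : ℝ) * (2 * (q / Real.pi ^ 2 + C2)) ^ (B * K)) =
          17 * ((B * K).factorial : ℝ) * 2 ^ (B * K) * (q / Real.pi ^ 2 + C2) ^ (B * K) := by rw [mul_pow]; ring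
        _ ≤ 17 * ((B * K).factorial : ℝ) * 2 ^ (B * K) * (q + C2) ^ (B * K) := by gcongr
        _ = (Real.exp (2 * (a ^ 2 * C2)) * (17 * ((B * K).factorial : ℝ)) * 2 ^ (B * K) *
            ((q + C2) ^ (B * K) * Real.exp (-(2 * q)))) * Real.exp (2 * q - 2 * (a ^ 2 * C2)) := by
            have e5 : Real.exp (2 * q - 2 * (a ^ 2 * C2)) = Real.exp (2 * q) * Real.exp (-(2 * (a ^ 2 * C2))) := by
              rw [← Real.exp_add]; congr 1
            have e6 : Real.exp (2 * (a ^ 2 * C2)) * Real.exp (-(2 * (a ^ 2 * C2))) = 1 := by rw [← Real.exp_add]; simp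
            have e7 : Real.exp (-(2 * q)) * Real.exp (2 * q) = 1 := by rw [← Real.exp_add]; simp
            rw [e5]
            linear_combination (-(17 * ((B * K).factorial : ℝ) * 2 ^ (B * K) * (q + C2) ^ (B * K))) * e6 -
              (17 * ((B * K).factorial : ℝ) * 2 ^ (B * K) * (q + C2) ^ (B * K)) *
                (Real.exp (2 * (a ^ 2 * C2)) * Real.exp (-(2 * (a ^ 2 * C2)))) * e7
        _ ≤ (1 / 1000) ^ 2 * Real.exp (2 * q - 2 * (a ^ 2 * C2)) := by
            apply mul_le_mul_of_nonneg_right q3 (Real.exp_pos _).le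
        _ ≤ _ := by
            apply mul_le_mul_of_nonneg_left _ (by norm_num)
            apply Real.exp_le_exp.2
            have h3 := mul_le_mul_of_nonneg_right hB hq0.le
            push_cast
            linarith
    have hsq : Real.sqrt P ≤ 1 / 1000 * (Real.exp (-q) * Real.exp (-(a ^ 2 * (q + C2)))) := by
      refine (Real.sqrt_le_sqrt hP').trans (le_of_eq ?_)
      rw [Real.sqrt_sq (by positivity)]
    calc 2 * (2 * M + 1) * Real.exp v * Real.sqrt P ≤ 3 * Real.exp q * Real.exp (a ^ 2 * (q + C2)) *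
        (1 / 1000 * (Real.exp (-q) * Real.exp (-(a ^ 2 * (q + C2))))) := by
          have h4 : Real.exp v ≤ Real.exp (a ^ 2 * (q + C2)) := Real.exp_le_exp.2 hv'
          gcongr
      _ = 3 / 1000 := by
          have e6 : Real.exp q * Real.exp (-q) = 1 := by rw [← Real.exp_add]; simp
          have e7 : Real.exp (a ^ 2 * (q + C2)) * Real.exp (-(a ^ 2 * (q + C2))) = 1 := by rw [← Real.exp_add]; simp
          linear_combination (3 / 1000) * e6 * (Real.exp (a ^ 2 * (q + C2)) * Real.exp (-(a ^ 2 * (q + C2)))) +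
            (3 / 1000) * e7
      _ ≤ 1 / 100 := by norm_num
  linarith

end

end Pool.Agent.U403.Ldp
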