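import Pool.Agent.U403.Ldp.Cra

/-! # Large deviations: the lower bound for the main field -/

set_option autoImplicit false

open Filter Topology MeasureTheory Set
open Pool.Agent.Y743.CL
open Pool.Agent.R320.JL
open Pool.Agent.U403.Max

namespace Pool.Agent.U403.Ldp

noncomputable section

lemma Gd_cont (κ : ℝ) (K r d : ℕ) (T : ℝ) : Continuous (Gd κ K r d T) := by
  unfold Gd
  exact ((fld_cont _ _).comp (by fun_prop)).sub (fld_cont _ _)

/-- the choice of the parameters -/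
lemma choose_delta {α ε : ℝ} (hε : 0 < ε) : ∃ δ : ℝ, 0 < δ ∧ δ ≤ 1 / 2 ∧
    Real.pi ^ 2 * ((1 + δ) * ((α + 2 * δ) * (α + 4 * δ))) / 2 ≤ Real.pi ^ 2 * α ^ 2 / 2 + ε / 2 := by
  have hc : Continuous fun δ : ℝ => Real.pi ^ 2 * ((1 + δ) * ((α + 2 * δ) * (α + 4 * δ))) / 2 := by fun_prop
  have h0 := hc.tendsto 0
  have h1 : ∀ᶠ δ : ℝ in 𝓝 0, Real.pi ^ 2 * ((1 + δ) * ((α + 2 * δ) * (α + 4 * δ))) / 2 <
      Real.pi ^ 2 * α ^ 2 / 2 + ε / 2 := by
    apply h0.eventually (gt_mem_nhds _)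
    have e : Real.pi ^ 2 * ((1 + 0) * ((α + 2 * 0) * (α + 4 * 0))) / 2 = Real.pi ^ 2 * α ^ 2 / 2 := by ring
    rw [e]
    linarith
  have h2 : ∀ᶠ δ : ℝ in 𝓝[>] 0, δ ≤ 1 / 2 := by
    have : ∀ᶠ δ : ℝ in 𝓝 0, δ < 1 / 2 := gt_mem_nhds (by norm_num)
    filter_upwards [this.filter_mono nhdsWithin_le_nhds] with δ h
    exact h.le
  obtain ⟨δ, h3, h4, h5⟩ := ((h1.filter_mono nhdsWithin_le_nhds).and (h2.and self_mem_nhdsWithin)).exists
  exact ⟨δ, h5, h4, h3.le⟩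

lemma PP_smul (μ : ℝ) (z : ℕ → ℂ) (X : ℕ) (t : ℝ) :
    (PP (fun p => (μ : ℂ) * z p) X t).re = μ * (PP z X t).re := by
  unfold PP
  have : ∑ p ∈ Pr X, (μ : ℂ) * z p * (p : ℂ) ^ (-(t : ℂ) * Complex.I) =
      (μ : ℂ) * ∑ p ∈ Pr X, z p * (p : ℂ) ^ (-(t : ℂ) * Complex.I) := by
    rw [Finset.mul_sum]
    exact Finset.sum_congr rfl fun p _ => by ring
  rw [this, Complex.re_ofReal_mul]

lemma VS_smul (μ : ℝ) (z : ℕ → ℂ) (X : ℕ) :
    VS (nz (fun p => (μ : ℂ) * z p)) X = μ ^ 2 * VS (nz z) X := by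
  unfold VS nz
  rw [Finset.mul_sum]
  refine Finset.sum_congr rfl fun p _ => ?_
  rw [norm_mul, Complex.norm_real, Real.norm_eq_abs, mul_pow, sq_abs]

/-- **the lower bound for the main field** -/
theorem mainLow (α ε : ℝ) (hα : 0 ≤ α) (hε : 0 < ε) : ∃ K₀ : ℕ, ∀ K : ℕ, K₀ ≤ K → 3 ≤ K → ∀ κ : ℝ, 0 < κ →
    ∀ᶠ r : ℕ in atTop, ∀ᶠ T : ℝ in atTop, ∀ d : ℕ, r ≤ 2 * d → d ≤ 2 * r → ∀ σ : ℝ, σ = 1 ∨ σ = -1 →
      Real.exp (-((Real.pi ^ 2 * α ^ 2 / 2 + ε) * Real.log r)) ≤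
        (PT T).real {t | α * Real.log r ≤ σ * Gd κ K r d T t} := by
  obtain ⟨C2, hC2, hvs⟩ := vsb
  obtain ⟨δ, hδ0, hδ1, hδ⟩ := choose_delta (α := α) hε
  have hpi3 := Real.pi_gt_three
  have hpi := Real.pi_pos
  have hpi2 : 0 < Real.pi ^ 2 := by positivity
  obtain ⟨δ', hδ'⟩ : ∃ δ' : ℝ, δ' = δ / (α + 1) := ⟨_, rfl⟩
  have hδ'0 : 0 < δ' := by rw [hδ']; positivity
  have hδ'1 : δ' ≤ δ := by
    rw [hδ', div_le_iff₀ (by positivity)]
    nlinarith
  have hδ'2 : δ' * (α + δ) ≤ δ := by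
    rw [hδ', div_mul_eq_mul_div, div_le_iff₀ (by positivity)]
    nlinarith
  obtain ⟨lam, hlam⟩ : ∃ lam : ℝ, lam = Real.pi ^ 2 * (α + 2 * δ) := ⟨_, rfl⟩
  obtain ⟨θ, hθ⟩ : ∃ θ : ℝ, θ = Real.pi ^ 2 * δ := ⟨_, rfl⟩
  have hlam0 : 0 ≤ lam := by rw [hlam]; positivity
  have hθ0 : 0 < θ := by rw [hθ]; positivity
  obtain ⟨a, ha⟩ : ∃ a : ℝ, a = lam + θ := ⟨_, rfl⟩
  have ha0 : 0 ≤ a := by rw [ha]; positivity
  obtain ⟨B, hB⟩ : ∃ B : ℕ, B = ⌈2 * a ^ 2 + 4⌉₊ := ⟨_, rfl⟩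
  have hB1 : 2 * a ^ 2 + 4 ≤ B := by rw [hB]; exact Nat.le_ceil _
  refine ⟨⌈2 / δ'⌉₊, fun K hK0 hK3 κ hκ => ?_⟩
  have hKpos : 0 < K := by omega
  have hKr : (0 : ℝ) < K := by exact_mod_cast hKpos
  have hKδ : 1 / (K : ℝ) ≤ δ' / 2 := by
    have h1 : 2 / δ' ≤ K := (Nat.le_ceil _).trans (by exact_mod_cast hK0)
    rw [div_le_iff₀ hδ'0] at h1
    rw [div_le_iff₀ hKr]
    linarith
  filter_upwards [hvs κ hκ K hK3, logr_top.eventually (numL K hK3 a C2 ha0 hC2 B hB1),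
    logr_top.eventually (ev_small hKpos (4 * (B * K : ℝ)) 0 0 (show (0 : ℝ) < 1 by norm_num)),
    logr_top.eventually_ge_atTop (2 * Real.pi ^ 2 * C2 / δ'), logr_top.eventually_ge_atTop 1,
    logr_top.eventually_ge_atTop (20 * Real.pi ^ 2 / θ ^ 2), logr_top.eventually_ge_atTop (2 / ε)]
    with r hv hn he hq1 hq2 hq3 hq4
  have hGc := fun d T => Gd_cont κ K r d T
  unfold Gd at hGc ⊢
  obtain ⟨q, hq⟩ : ∃ q : ℝ, q = Real.log r := ⟨_, rfl⟩
  rw [← hq] at hv hn he hq1 hq2 hq3 hq4 hGc ⊢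
  have hq0 : 0 < q := by linarith
  simp only [pow_zero, one_mul] at he
  have hC2q : C2 ≤ δ' / 2 * (q / Real.pi ^ 2) := by
    rw [div_le_iff₀ hδ'0] at hq1
    rw [← mul_div_assoc, le_div_iff₀ hpi2]
    linarith
  have hθq : 5 ≤ θ ^ 2 * (q / (2 * Real.pi ^ 2)) / 2 := by
    rw [div_le_iff₀ (by positivity)] at hq3
    rw [le_div_iff₀ (by norm_num), ← mul_div_assoc, le_div_iff₀ (by positivity)]
    linarith
  have hεq : 1 ≤ ε / 2 * q := by
    rw [div_le_iff₀ hε] at hq4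
    linarith
  obtain ⟨M, hM⟩ : ∃ M : ℕ, M = ⌊Real.exp (q / K) / 8⌋₊ := ⟨_, rfl⟩
  have hn := hn M hM
  obtain ⟨D, hD1, hD⟩ := mom_near (4 * M) (2 * (a ^ 2 * (q / Real.pi ^ 2 + C2))) (1 / 100) (by positivity) (by norm_num)
  have hD0 : 0 < D := by linarith
  filter_upwards [hv (1 / (4 * ((a ^ 2 + 1) * D))) (by positivity), eventually_ge_atTop 1, eventually_ge_atTop D]
    with T hT hT1 hTD d hd1 hd2 σ hσ
  have hT0 : 0 < T := by linarith
  have hPT := PT_univ hT0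
  obtain ⟨hbe, hVd⟩ := hT
  obtain ⟨hVl, hVu⟩ := hVd d hd1 hd2
  have hGc := hGc d T
  obtain ⟨l, hl⟩ : ∃ l : ℝ, l = Real.log T / (κ * q) := ⟨_, rfl⟩
  obtain ⟨I, hI⟩ : ∃ I : Finset ℕ, I = PI T q (q / K) := ⟨_, rfl⟩
  obtain ⟨h, hh⟩ : ∃ h : ℝ, h = 2 * Real.pi * d / Real.log T := ⟨_, rfl⟩
  rw [← hl, ← hI, ← hh] at hVl hVu hGc ⊢
  rw [← hl, ← hI] at hbe
  obtain ⟨G, hG⟩ : ∃ G : ℝ → ℝ, G = fun t => fld l I (t + h) - fld l I t := ⟨_, rfl⟩
  have hGe : ∀ t, fld l I (t + h) - fld l I t = G t := fun t => by rw [hG]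
  simp only [hGe] at hGc ⊢
  have hGc' : Continuous G := hGc
  obtain ⟨W, hW⟩ : ∃ W : ℝ, W = 2 * (vI l I - cI l I h) := ⟨_, rfl⟩
  rw [← hW] at hVl hVu
  obtain ⟨X, hX⟩ : ∃ X : ℕ, X = XK (Real.exp (-(q / K))) T := ⟨_, rfl⟩
  have hX1 : 1 ≤ X := by
    rw [hX]
    unfold XK
    apply Nat.le_floor
    rw [Nat.cast_one]
    exact Real.one_le_rpow hT1 (Real.exp_pos _).le
  have hIX : I ⊆ Pr X := by rw [hI, hX]; exact PI_sub hT1 le_rfl
  have hVS : VS (nz (zd l I h)) X = 2 * W := by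
    rw [zd_VS l hIX h, hW]
    ring
  -- bounds for the variance
  have hWl : (1 - δ') * (q / Real.pi ^ 2) ≤ W := by
    have h1 : (1 - 1 / (K : ℝ)) * q / Real.pi ^ 2 = (1 - 1 / (K : ℝ)) * (q / Real.pi ^ 2) := by ring
    rw [h1] at hVl
    have h2 : 0 ≤ q / Real.pi ^ 2 := by positivity
    nlinarith
  have hWu : W ≤ (1 + δ') * (q / Real.pi ^ 2) := by
    have h2 : 0 ≤ δ' / 2 * (q / Real.pi ^ 2) := by positivity
    linarith
  have hW0 : 0 ≤ W := by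
    refine le_trans ?_ hWl
    have : 0 ≤ 1 - δ' := by linarith
    positivity
  have hWl2 : q / (2 * Real.pi ^ 2) ≤ W := by
    refine le_trans ?_ hWl
    have h1 : q / (2 * Real.pi ^ 2) = 1 / 2 * (q / Real.pi ^ 2) := by field_simp
    rw [h1]
    have h2 : 0 ≤ q / Real.pi ^ 2 := by positivity
    apply mul_le_mul_of_nonneg_right _ h2
    linarith
  -- the bounded part
  obtain ⟨A, hA⟩ : ∃ A : Set ℝ, A = {t | |G t| ≤ Real.exp (q / (2 * K))} := ⟨_, rfl⟩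
  have hAm : MeasurableSet A := by rw [hA]; exact measurableSet_le hGc'.abs.measurable measurable_const
  have hAc : (PT T).real Aᶜ ≤ 17 * (((B * K).factorial : ℝ) * (2 * (q / Real.pi ^ 2 + C2)) ^ (B * K) /
        Real.exp (q / (2 * K)) ^ (2 * (B * K))) := by
    have hXT : ((X ^ (B * K + B * K) : ℕ) : ℝ) ≤ Real.sqrt T := by
      rw [hX]
      apply XK_pow hT1
      push_cast
      linarith
    refine le_trans (measureReal_mono ?_ (measure_ne_top _ _)) (pp_tail (zd l I h) X hX1 T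
      (2 * (q / Real.pi ^ 2 + C2)) (Real.exp (q / (2 * K))) hT1 (B * K) hXT (by rw [hVS]; linarith) (Real.exp_pos _))
    intro t ht
    rw [hA, Set.mem_compl_iff, Set.mem_ofPred_eq, not_le] at ht
    rw [Set.mem_ofPred_eq]
    refine ht.le.trans ?_
    rw [← hGe, ← zd_re l hIX h t]
    exact Complex.abs_re_le_norm _
  have hXM : ((X ^ (4 * M) : ℕ) : ℝ) ≤ Real.sqrt T := by
    rw [hX]
    apply XK_pow hT1
    push_cast
    have h1 : (M : ℝ) ≤ Real.exp (q / K) / 8 := by rw [hM]; exact Nat.floor_le (by positivity)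
    have h2 : Real.exp (-(q / K)) * Real.exp (q / K) = 1 := by rw [← Real.exp_add]; simp
    have h3 := mul_le_mul_of_nonneg_left h1 (Real.exp_pos (-(q / K))).le
    nlinarith
  -- the Laplace transforms
  have hlap : ∀ μ : ℝ, |μ| ≤ a → |∫ t in A, Real.exp (μ * G t) ∂(PT T) - Real.exp (μ ^ 2 * W / 2)| ≤ 1 / 10 := by
    intro μ hμ
    have hμ2 : μ ^ 2 ≤ a ^ 2 := by
      rw [← sq_abs]
      exact pow_le_pow_left₀ (abs_nonneg _) hμ 2
    have hv0 : 0 ≤ μ ^ 2 * W := by positivity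
    have hv1 : μ ^ 2 * W ≤ a ^ 2 * (q / Real.pi ^ 2 + C2) := by
      have : 0 ≤ q / Real.pi ^ 2 + C2 := by positivity
      nlinarith [sq_nonneg μ]
    have hmom : ∀ m ≤ 4 * M, |∫ t, (μ * G t) ^ m ∂(PT T) - Gm (μ ^ 2 * W) m| ≤ 1 / 100 := by
      intro m hm
      have h1 := hD (fun p => (μ : ℂ) * zd l I h p) X T hTD hX1 (by
        intro p
        rw [norm_mul, Complex.norm_real, Real.norm_eq_abs, mul_pow, sq_abs]
        have h2 := zd_bd l hIX h (by positivity) hbe p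
        calc μ ^ 2 * ‖zd l I h p‖ ^ 2 ≤ a ^ 2 * (4 * (1 / (4 * ((a ^ 2 + 1) * D)))) := by gcongr
          _ ≤ 1 / D := by
            have e : a ^ 2 * (4 * (1 / (4 * ((a ^ 2 + 1) * D)))) = a ^ 2 / (a ^ 2 + 1) * (1 / D) := by field_simp
            rw [e]
            have h3 : a ^ 2 / (a ^ 2 + 1) ≤ 1 := by
              rw [div_le_one (by positivity)]
              linarith
            have h4 : 0 ≤ 1 / D := by positivity
            nlinarith) hXM (by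
        rw [VS_smul, hVS]
        linarith) m hm
      rw [VS_smul, hVS] at h1
      have e1 : μ ^ 2 * (2 * W) / 2 = μ ^ 2 * W := by ring
      rw [e1] at h1
      have e2 : ∀ t, (PP (fun p => (μ : ℂ) * zd l I h p) X t).re = μ * G t := by
        intro t
        rw [PP_smul, zd_re l hIX h t, hGe]
      simp only [e2] at h1
      exact h1
    have h1 := lap (P := PT T) (Y := fun t => μ * G t) (A := A) (V1 := a * Real.exp (q / (2 * K))) (v := μ ^ 2 * W)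
      (δ := 1 / 100) (s := Real.exp 1) (M := M) (hGc'.measurable.const_mul μ) hAm (by
        intro t ht
        rw [hA] at ht
        rw [abs_mul]
        exact mul_le_mul hμ ht (abs_nonneg _) ha0) hv0 (by norm_num) (by norm_num) (Real.one_le_exp zero_le_one)
      (fun m _ => PT_integrable hT0 ((hGc'.const_mul μ).pow m)) hmom
    exact h1.trans (hn _ hv0 hv1 _ measureReal_nonneg hAc)
  -- Cramér
  have hσ2 : σ ^ 2 = 1 := by rcases hσ with h | h <;> rw [h] <;> norm_num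
  have hσa : |σ| = 1 := by rcases hσ with h | h <;> rw [h] <;> norm_num
  have hlapσ : ∀ μ : ℝ, |μ| ≤ a → |∫ t in A, Real.exp (μ * (σ * G t)) ∂(PT T) - Real.exp (μ ^ 2 * W / 2)| ≤ 1 / 10 := by
    intro μ hμ
    have h1 := hlap (μ * σ) (by rw [abs_mul, hσa, mul_one]; exact hμ)
    rw [mul_pow, hσ2, mul_one] at h1
    simp only [mul_assoc] at h1 ⊢
    exact h1
  have hone : ∀ μ : ℝ, 1 ≤ Real.exp (μ ^ 2 * W / 2) := fun μ => Real.one_le_exp (by positivity)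
  have hlθ : 0 ≤ lam - θ := by
    rw [hlam, hθ]
    have : Real.pi ^ 2 * (α + 2 * δ) - Real.pi ^ 2 * δ = Real.pi ^ 2 * (α + δ) := by ring
    rw [this]
    positivity
  have c0 := abs_le.1 (hlapσ lam (by rw [abs_of_nonneg hlam0, ha]; linarith))
  have c1 := abs_le.1 (hlapσ (lam + θ) (by rw [abs_of_nonneg (by positivity), ha]))
  have c2 := abs_le.1 (hlapσ (lam - θ) (by rw [abs_of_nonneg hlθ, ha]; linarith))
  have d0 := hone lam
  have d1 := hone (lam + θ)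
  have d2 := hone (lam - θ)
  have hcr := cramer (P := PT T) (Y := fun t => σ * G t) (A := A) (V0 := Real.exp (q / (2 * K))) (W := W)
    (lam := lam) (θ := θ) (η := 1 / 10) (hGc'.measurable.const_mul σ) hAm (by
      intro t ht
      rw [hA] at ht
      rw [abs_mul, hσa, one_mul]
      exact ht) hlam0 hθ0.le (by linarith) (by linarith) (by linarith)
  have hsub : {t | (lam - θ) * W ≤ σ * G t} ⊆ {t | α * q ≤ σ * G t} := by
    intro t ht
    rw [Set.mem_ofPred_eq] at ht ⊢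
    refine le_trans ?_ ht
    have h1 : lam - θ = Real.pi ^ 2 * (α + δ) := by rw [hlam, hθ]; ring
    have h2 := mul_le_mul_of_nonneg_left hWl hlθ
    refine le_trans ?_ h2
    rw [h1]
    have h3 : Real.pi ^ 2 * (α + δ) * ((1 - δ') * (q / Real.pi ^ 2)) = (α + δ) * (1 - δ') * q := by field_simp
    rw [h3]
    apply mul_le_mul_of_nonneg_right _ hq0.le
    linarith
  refine le_trans ?_ (hcr.trans (measureReal_mono hsub (measure_ne_top _ _)))
  have hE : Real.exp (-(θ ^ 2 * W / 2)) ≤ 1 / 100 := by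
    have h1 : 5 ≤ θ ^ 2 * W / 2 := by
      refine hθq.trans ?_
      gcongr
    have h2 : Real.exp (-(θ ^ 2 * W / 2)) ≤ Real.exp (-5) := Real.exp_le_exp.2 (by linarith)
    have h3 : (100 : ℝ) ≤ Real.exp 5 := by
      have h4 : Real.exp 5 = Real.exp 1 ^ 5 := by rw [← Real.exp_nat_mul]; norm_num
      rw [h4]
      have := Real.exp_one_gt_d9
      calc (100 : ℝ) ≤ 2.7 ^ 5 := by norm_num
        _ ≤ Real.exp 1 ^ 5 := pow_le_pow_left₀ (by norm_num) (by linarith) 5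
    have h5 : Real.exp (-5) ≤ 1 / 100 := by
      rw [Real.exp_neg, ← one_div]
      exact one_div_le_one_div_of_le (by norm_num) h3
    linarith
  have hexpo : lam ^ 2 * W / 2 + lam * θ * W ≤ (Real.pi ^ 2 * α ^ 2 / 2 + ε / 2) * q := by
    have h1 : lam ^ 2 * W / 2 + lam * θ * W = lam * (lam / 2 + θ) * W := by ring
    have h2 : 0 ≤ lam * (lam / 2 + θ) := by positivity
    have h3 : W ≤ (1 + δ) * (q / Real.pi ^ 2) := by
      refine hWu.trans ?_
      gcongr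
    rw [h1]
    refine (mul_le_mul_of_nonneg_left h3 h2).trans ?_
    have h4 : lam * (lam / 2 + θ) * ((1 + δ) * (q / Real.pi ^ 2)) =
        Real.pi ^ 2 * ((1 + δ) * ((α + 2 * δ) * (α + 4 * δ))) / 2 * q := by
      rw [hlam, hθ]
      field_simp
      ring
    rw [h4]
    exact mul_le_mul_of_nonneg_right hδ hq0.le
  have hhalf : Real.exp (-(ε / 2 * q)) ≤ 1 / 2 := by
    have h1 : Real.exp (-(ε / 2 * q)) ≤ Real.exp (-1) := Real.exp_le_exp.2 (by linarith)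
    have h2 : Real.exp (-1) ≤ 1 / 2 := by
      rw [Real.exp_neg, ← one_div]
      apply one_div_le_one_div_of_le (by norm_num)
      have := Real.exp_one_gt_d9
      linarith
    linarith
  calc Real.exp (-((Real.pi ^ 2 * α ^ 2 / 2 + ε) * q)) =
      Real.exp (-((Real.pi ^ 2 * α ^ 2 / 2 + ε / 2) * q)) * Real.exp (-(ε / 2 * q)) := by
        rw [← Real.exp_add]
        congr 1
        ring
    _ ≤ Real.exp (-(lam ^ 2 * W / 2 + lam * θ * W)) * (1 - 1 / 10 - 2 * (1 + 1 / 10) * Real.exp (-(θ ^ 2 * W / 2))) := by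
        apply mul_le_mul (Real.exp_le_exp.2 (by linarith)) (by linarith) (Real.exp_pos _).le (Real.exp_pos _).le

end

end Pool.Agent.U403.Ldp
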