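import Pool.Agent.U403.Max.Err2
import Pool.Agent.U403.Ldp.Lo

/-! # Large deviations: the error terms, with rates -/

set_option autoImplicit false

open Complex Filter Topology MeasureTheory Set
open Pool.Agent.TH850.UV
open Pool.Agent.R320.VQ
open Pool.Agent.R320.VR (kap_norm split_pp pp3_sum VS2_bd)
open Pool.Agent.R320.JL (PP ze be G_PP PP_cont XK_pow)
open Pool.Agent.Y743.CL
open H370 (Zf mult mem_Zf good_zeta)
open SP (RHs Mk Q1 mu)
open SG (NZ)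
open Pool.Agent.U403.Max

namespace Pool.Agent.U403.Ldp

noncomputable section

/-- the numerical conditions -/
lemma numR (A₀ κ ε CQ C4 CC C3 : ℝ) (hA₀ : 0 ≤ A₀) (hκ : 0 < κ) (hε : 0 < ε) (hCQ : 0 < CQ) (hC4 : 0 ≤ C4)
    (hCC : 32 * CC * κ ≤ ε / 4) (hCC0 : 0 ≤ CC) : ∀ᶠ q : ℝ in atTop, 16 ≤ κ * q ∧ 1 ≤ q ∧
    4 * Real.exp q * (6 * (CQ / ⌈2 * Real.pi * (κ * q)⌉₊) ^ ⌈2 * Real.pi * (κ * q)⌉₊) ≤ Real.exp (-(A₀ * q)) / 4 ∧
    4 * Real.exp q * (18 * ((⌊κ * q / 4⌋₊.factorial : ℝ) * C4 ^ ⌊κ * q / 4⌋₊ / (ε / 4 * q) ^ (2 * ⌊κ * q / 4⌋₊))) ≤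
      Real.exp (-(A₀ * q)) / 4 ∧
    1 + (4 * CC * ⌈2 * Real.pi * (κ * q)⌉₊ + 2) + ε / 4 * q + C3 < ε * q := by
  have hpi := Real.pi_pos
  have hpi3 := Real.pi_gt_three
  have hpi4 := Real.pi_lt_d2
  obtain ⟨cA, hcA⟩ : ∃ cA : ℝ, cA = (A₀ + 6) / (6 * κ) := ⟨_, rfl⟩
  obtain ⟨cB, hcB⟩ : ∃ cB : ℝ, cB = (4 * A₀ + 12) / κ := ⟨_, rfl⟩
  have hcA0 : 0 < cA := by rw [hcA]; positivity
  have hcB0 : 0 < cB := by rw [hcB]; positivity
  have t2 := ev_pow 5 0 (by norm_num) 0 24 (show (0 : ℝ) < 1 / 4 by norm_num)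
  have t3 := ev_pow 2 0 (by norm_num) 0 (72 * Real.exp cB) (show (0 : ℝ) < 1 / 4 by norm_num)
  have c1 : ∀ᶠ q : ℝ in atTop, 16 / κ ≤ q := eventually_ge_atTop _
  have c2 : ∀ᶠ q : ℝ in atTop, CQ * Real.exp cA / (6 * κ) ≤ q := eventually_ge_atTop _
  have c4 : ∀ᶠ q : ℝ in atTop, κ * C4 / (4 * (ε / 4) ^ 2) * Real.exp cB ≤ q := eventually_ge_atTop _
  have c5 : ∀ᶠ q : ℝ in atTop, 4 * (4 + |C3|) / ε ≤ q := eventually_ge_atTop _
  filter_upwards [t2, t3, c1, c2, c4, c5, eventually_ge_atTop 1] with q q2 q3 d1 d2 d4 d5 hq1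
  simp only [pow_zero, one_mul] at q2 q3
  have hq0 : 0 < q := by linarith
  have hκq : 16 ≤ κ * q := by
    rw [div_le_iff₀ hκ] at d1
    linarith
  obtain ⟨k, hk⟩ : ∃ k : ℕ, k = ⌈2 * Real.pi * (κ * q)⌉₊ := ⟨_, rfl⟩
  have hk1 : 2 * Real.pi * (κ * q) ≤ k := by rw [hk]; exact Nat.le_ceil _
  have hk2 : (k : ℝ) < 2 * Real.pi * (κ * q) + 1 := by rw [hk]; exact Nat.ceil_lt_add_one (by positivity)
  have hk6 : 6 * (κ * q) ≤ k := by
    have : 6 * (κ * q) ≤ 2 * Real.pi * (κ * q) := mul_le_mul_of_nonneg_right (by linarith) (by positivity)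
    linarith
  have hk0 : (0 : ℝ) < k := by linarith
  rw [← hk]
  refine ⟨hκq, hq1, ?_, ?_, ?_⟩
  · have h1 : CQ / k ≤ Real.exp (-cA) := by
      rw [div_le_iff₀ hk0]
      rw [div_le_iff₀ (by positivity)] at d2
      have h3 : CQ * Real.exp cA ≤ k := by linarith
      have h4 := mul_le_mul_of_nonneg_left h3 (Real.exp_pos (-cA)).le
      have h5 : Real.exp (-cA) * Real.exp cA = 1 := by rw [← Real.exp_add]; simp
      calc CQ = Real.exp (-cA) * (CQ * Real.exp cA) := by linear_combination (-CQ) * h5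
        _ ≤ _ := h4
    have h2 : (CQ / k) ^ k ≤ Real.exp (-((A₀ + 6) * q)) := by
      refine (pow_le_pow_left₀ (by positivity) h1 k).trans ?_
      rw [← Real.exp_nat_mul]
      apply Real.exp_le_exp.2
      have h3 := mul_le_mul_of_nonneg_right hk6 hcA0.le
      have h4 : 6 * (κ * q) * cA = (A₀ + 6) * q := by rw [hcA]; field_simp
      rw [h4] at h3
      linarith
    calc 4 * Real.exp q * (6 * (CQ / k) ^ k) ≤ 4 * Real.exp q * (6 * Real.exp (-((A₀ + 6) * q))) := by gcongr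
      _ = 24 * Real.exp (-(5 * q)) * Real.exp (-(A₀ * q)) := by
        have : Real.exp (-((A₀ + 6) * q)) = Real.exp (-q) * (Real.exp (-(5 * q)) * Real.exp (-(A₀ * q))) := by
          rw [← Real.exp_add, ← Real.exp_add]; congr 1; ring
        rw [this]
        have h5 : Real.exp q * Real.exp (-q) = 1 := by rw [← Real.exp_add]; simp
        linear_combination (24 * (Real.exp (-(5 * q)) * Real.exp (-(A₀ * q)))) * h5
      _ ≤ 1 / 4 * Real.exp (-(A₀ * q)) := by gcongr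
      _ = _ := by ring
  · obtain ⟨m, hm⟩ : ∃ m : ℕ, m = ⌊κ * q / 4⌋₊ := ⟨_, rfl⟩
    rw [← hm]
    have hmq : (m : ℝ) ≤ κ * q / 4 := by rw [hm]; exact Nat.floor_le (by positivity)
    have hmq1 : κ * q / 4 - 1 ≤ m := by
      have := Nat.lt_floor_add_one (κ * q / 4)
      rw [← hm] at this
      linarith
    have h1 : (m : ℝ) * C4 ≤ Real.exp (-cB) * (ε / 4 * q) ^ 2 := by
      have h2 : (m : ℝ) * C4 ≤ κ * q / 4 * C4 := mul_le_mul_of_nonneg_right hmq hC4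
      refine h2.trans ?_
      have h3 : κ * C4 / (4 * (ε / 4) ^ 2) ≤ Real.exp (-cB) * q := by
        have h4 := mul_le_mul_of_nonneg_left d4 (Real.exp_pos (-cB)).le
        have h5 : Real.exp (-cB) * Real.exp cB = 1 := by rw [← Real.exp_add]; simp
        calc κ * C4 / (4 * (ε / 4) ^ 2) =
            Real.exp (-cB) * (κ * C4 / (4 * (ε / 4) ^ 2) * Real.exp cB) := by
              linear_combination (-(κ * C4 / (4 * (ε / 4) ^ 2))) * h5
          _ ≤ _ := h4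
      rw [div_le_iff₀ (by positivity)] at h3
      have h6 := mul_le_mul_of_nonneg_left h3 (by positivity : 0 ≤ q / 4)
      calc κ * q / 4 * C4 = q / 4 * (κ * C4) := by ring
        _ ≤ q / 4 * (Real.exp (-cB) * q * (4 * (ε / 4) ^ 2)) := h6
        _ = _ := by ring
    have h2 := fact_ratio hC4 (by positivity : 0 < ε / 4 * q) h1
    refine le_trans (mul_le_mul_of_nonneg_left (mul_le_mul_of_nonneg_left h2 (by norm_num)) (by positivity)) ?_
    have h3 : Real.exp (-cB) ^ m ≤ Real.exp (cB - (A₀ + 3) * q) := by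
      rw [← Real.exp_nat_mul]
      apply Real.exp_le_exp.2
      have h4 := mul_le_mul_of_nonneg_right hmq1 hcB0.le
      have h5 : (κ * q / 4 - 1) * cB = (A₀ + 3) * q - cB := by rw [hcB]; field_simp; ring
      rw [h5] at h4
      linarith only [h4]
    calc 4 * Real.exp q * (18 * Real.exp (-cB) ^ m) ≤ 4 * Real.exp q * (18 * Real.exp (cB - (A₀ + 3) * q)) := by gcongr
      _ = 72 * Real.exp cB * Real.exp (-(2 * q)) * Real.exp (-(A₀ * q)) := by
        have : Real.exp (cB - (A₀ + 3) * q) = Real.exp cB * Real.exp (-(2 * q)) * Real.exp (-(A₀ * q)) * Real.exp (-q) := by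
          rw [← Real.exp_add, ← Real.exp_add, ← Real.exp_add]; congr 1; ring
        rw [this]
        have h5 : Real.exp q * Real.exp (-q) = 1 := by rw [← Real.exp_add]; simp
        linear_combination (72 * Real.exp cB * Real.exp (-(2 * q)) * Real.exp (-(A₀ * q))) * h5
      _ ≤ 1 / 4 * Real.exp (-(A₀ * q)) := by gcongr
      _ = _ := by ring
  · have h1 : (k : ℝ) ≤ 8 * (κ * q) := by
      have : 2 * Real.pi * (κ * q) ≤ 6.3 * (κ * q) := mul_le_mul_of_nonneg_right (by linarith) (by positivity)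
      linarith
    have h2 : 4 * CC * k ≤ ε / 4 * q := by
      calc 4 * CC * k ≤ 4 * CC * (8 * (κ * q)) := mul_le_mul_of_nonneg_left h1 (by positivity)
        _ = 32 * CC * κ * q := by ring
        _ ≤ ε / 4 * q := mul_le_mul_of_nonneg_right hCC hq0.le
    rw [div_le_iff₀ hε] at d5
    have h3 := le_abs_self C3
    have h4 : 0 < ε * q := by positivity
    linarith

/-- **the error is small off a very small set** -/
theorem errR (hRH : RHs) (ε : ℝ) (hε : 0 < ε) : ∃ κ : ℝ, 0 < κ ∧ κ ≤ 1 ∧ ∀ A₀ : ℝ, 0 ≤ A₀ → ∀ᶠ r : ℕ in atTop,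
    ∀ᶠ T : ℝ in atTop, (PT T).real {t | ∃ b < 4 * r, 1 ≤ b ∧ ε * Real.log r ≤
      |((NZ (t + 2 * Real.pi * b / Real.log T) : ℝ) - NZ t) - b -
        (fld (Real.log T / (κ * Real.log r)) (Pr (XK (1 / (κ * Real.log r)) T)) (t + 2 * Real.pi * b / Real.log T) -
        fld (Real.log T / (κ * Real.log r)) (Pr (XK (1 / (κ * Real.log r)) T)) t)|} ≤ Real.exp (-(A₀ * Real.log r)) := by
  obtain ⟨CJ, hCJ, hJ⟩ := J_bd hRH
  obtain ⟨CM, TM, hCM, hTM, hM⟩ := SP.Mk_bound hRH (1 / 4) (by norm_num) (by norm_num)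
  obtain ⟨CQ, TQ, hCQ, hTQ, hQ⟩ := LG.CTAux.leb_mom (1 / 4) (by norm_num) (by norm_num)
  obtain ⟨C3, hC3, hDb⟩ := Db_dec
  obtain ⟨C4, hC4, hV2⟩ := VS2_bd
  have hpi := Real.pi_pos
  have hpi3 := Real.pi_gt_three
  obtain ⟨κ, hκd⟩ : ∃ κ : ℝ, κ = min 1 (ε / (128 * (CJ * CM))) := ⟨_, rfl⟩
  have hκ0 : 0 < κ := by rw [hκd]; exact lt_min one_pos (by positivity)
  have hκ1 : κ ≤ 1 := by rw [hκd]; exact min_le_left _ _
  have hκ2 : 32 * (CJ * CM) * κ ≤ ε / 4 := by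
    have : κ ≤ ε / (128 * (CJ * CM)) := by rw [hκd]; exact min_le_right _ _
    rw [le_div_iff₀ (by positivity)] at this
    linarith
  refine ⟨κ, hκ0, hκ1, fun A₀ hA₀ => ?_⟩
  have hlogr : Tendsto (fun r : ℕ => Real.log (r : ℝ)) atTop atTop :=
    Real.tendsto_log_atTop.comp tendsto_natCast_atTop_atTop
  filter_upwards [hlogr.eventually (numR A₀ κ ε CQ C4 (CJ * CM) C3 hA₀ hκ0 hε hCQ hC4 hκ2 (by positivity)),
    eventually_ge_atTop 1] with r hn hr1
  have hr0 : (0 : ℝ) < r := by exact_mod_cast hr1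
  obtain ⟨q, hq⟩ : ∃ q : ℝ, q = Real.log r := ⟨_, rfl⟩
  have hrq : (r : ℝ) = Real.exp q := by rw [hq, Real.exp_log hr0]
  rw [← hq] at hn ⊢
  obtain ⟨n1, n2, n3, n4, n5⟩ := hn
  obtain ⟨η, hη'⟩ : ∃ η : ℝ, η = Real.exp (-(A₀ * q)) := ⟨_, rfl⟩
  rw [← hη'] at n3 n4 ⊢
  have hη : 0 < η := by rw [hη']; exact Real.exp_pos _
  have hq0 : 0 < q := by linarith
  obtain ⟨lam, hlam⟩ : ∃ lam : ℝ, lam = κ * q := ⟨_, rfl⟩
  rw [← hlam] at n1 n3 n4 n5 ⊢
  have hlam0 : 0 < lam := by linarith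
  obtain ⟨k, hk⟩ : ∃ k : ℕ, k = ⌈2 * Real.pi * lam⌉₊ := ⟨_, rfl⟩
  have hkl : 2 * Real.pi * lam ≤ k := by rw [hk]; exact Nat.le_ceil _
  have hk0 : (0 : ℝ) < k := lt_of_lt_of_le (by positivity) hkl
  have hk1 : 1 ≤ k := by
    have : 0 < k := by exact_mod_cast hk0
    omega
  rw [← hk] at n3 n5
  obtain ⟨m, hm⟩ : ∃ m : ℕ, m = ⌊lam / 4⌋₊ := ⟨_, rfl⟩
  have hmq : (m : ℝ) ≤ lam / 4 := by rw [hm]; exact Nat.floor_le (by positivity)
  rw [← hm] at n4
  have hn4 : ((4 * r : ℕ) : ℝ) = 4 * Real.exp q := by push_cast; rw [hrq]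
  have hrpos : 0 < 4 * (r : ℝ) := by positivity
  have hR : ∀ᶠ T : ℝ in atTop, ∀ b ∈ Finset.Ico 1 (4 * r),
    ∃ U1 U2 : ℝ, T ≤ U1 ∧ U1 ≤ T + 1 ∧ 2 * T - 1 ≤ U2 ∧ U2 ≤ 2 * T ∧ ∃ R : ℝ → ℝ, Continuous R ∧
    (∀ t, NS (Zf riemannZeta U1 U2) (2 * Real.pi * (b : ℝ) / Real.log T) t - b +
        Db (Real.log T / lam) (2 * Real.pi * (b : ℝ) / Real.log T) (XT T) t =
      R t - (GS Jk (Zf riemannZeta U1 U2) (Real.log T / lam) t -
        GS Jk (Zf riemannZeta U1 U2) (Real.log T / lam) (t + 2 * Real.pi * (b : ℝ) / Real.log T))) ∧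
    ∫ t in (T + Real.log T)..(2 * T - Real.log T - 7), R t ^ 2 ≤ (η / (16 * r)) * T := by
    rw [Filter.eventually_all_finset]
    intro b hb
    have hb1 := (Finset.mem_Ico.1 hb).1
    exact Rdec hRH n1 b (by exact_mod_cast hb1) (η / (16 * r)) (by positivity)
  have hev : ∀ᶠ T : ℝ in atTop, 2 * Real.log T + 7 ≤ η / 4 * T := by
    have h1 : (fun T : ℝ => 2 * Real.log T + 7) =o[atTop] fun T : ℝ => T :=
      (Real.isLittleO_log_id_atTop.const_mul_left 2).add (Asymptotics.isLittleO_const_id_atTop _)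
    have h2 := h1.bound (c := η / 4) (by positivity)
    filter_upwards [h2, eventually_ge_atTop 1] with T hT hT1
    rw [Real.norm_of_nonneg (by linarith : (0 : ℝ) ≤ T)] at hT
    exact (le_abs_self _).trans hT
  have hev2 : ∀ᶠ T : ℝ in atTop, 2 * Real.log T + 8 ≤ T := by
    have h1 : (fun T : ℝ => 2 * Real.log T + 8) =o[atTop] fun T : ℝ => T :=
      (Real.isLittleO_log_id_atTop.const_mul_left 2).add (Asymptotics.isLittleO_const_id_atTop _)
    have h2 := h1.bound (c := 1) (by norm_num)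
    filter_upwards [h2, eventually_ge_atTop 1] with T hT hT1
    rw [Real.norm_of_nonneg (by linarith : (0 : ℝ) ≤ T), one_mul] at hT
    exact (le_abs_self _).trans hT
  filter_upwards [hR, hev, hev2, hDb lam n1, eventually_ge_atTop TM, eventually_ge_atTop TQ,
    Real.tendsto_log_atTop.eventually_ge_atTop (CJ * lam ^ 2), Real.tendsto_log_atTop.eventually_ge_atTop 1,
    Real.tendsto_log_atTop.eventually_ge_atTop (8 * Real.pi * r / 7)] with T hRT hT1' hT2' hDbT hTTM hTTQ hL1 hL2 hL3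
  have hT10 : 10 ≤ T := hTM.trans hTTM
  have hT1 : 1 ≤ T := by linarith
  have hT0 : 0 < T := by linarith
  have := PT_univ hT0
  obtain ⟨L, hL⟩ : ∃ L : ℝ, L = Real.log T := ⟨_, rfl⟩
  rw [← hL] at hRT hT1' hT2' hDbT hL1 hL2 hL3 ⊢
  have hL0 : 0 < L := by linarith
  obtain ⟨l, hl⟩ : ∃ l : ℝ, l = L / lam := ⟨_, rfl⟩
  have hl0 : 0 < l := by rw [hl]; positivity
  rw [← hl] at hRT hDbT ⊢
  obtain ⟨X, hX⟩ : ∃ X : ℕ, X = XK (1 / lam) T := ⟨_, rfl⟩
  rw [← hX] at hDbT ⊢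
  have hX1 : 1 ≤ X := by
    rw [hX]
    unfold XK
    apply Nat.le_floor
    rw [Nat.cast_one]
    exact Real.one_le_rpow hT1 (by positivity)
  have hXm : ((X ^ (m + m) : ℕ) : ℝ) ≤ Real.sqrt T := by
    rw [hX]
    apply XK_pow hT1
    push_cast
    rw [one_div_mul_eq_div, div_le_iff₀ hlam0]
    linarith
  obtain ⟨A, hA⟩ : ∃ A : ℝ, A = T + L := ⟨_, rfl⟩
  obtain ⟨B, hB⟩ : ∃ B : ℝ, B = 2 * T - L - 7 := ⟨_, rfl⟩
  have hAB : A ≤ B := by rw [hA, hB]; linarith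
  choose! U1 U2 u1 u2 u3 u4 R rc1 rc2 rc3 using hRT
  have hh7 : ∀ b : ℕ, b < 4 * r → 2 * Real.pi * (b : ℝ) / L ≤ 7 ∧ 0 ≤ 2 * Real.pi * (b : ℝ) / L := by
    intro b hb
    refine ⟨?_, by positivity⟩
    rw [div_le_iff₀ hL0]
    have hb' : (b : ℝ) ≤ 4 * r := by exact_mod_cast hb.le
    have h1 : 8 * Real.pi * r ≤ 7 * L := by
      rw [div_le_iff₀ (by norm_num)] at hL3
      linarith
    have h2 := mul_le_mul_of_nonneg_left hb' (by positivity : 0 ≤ 2 * Real.pi)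
    linarith
  -- the exceptional sets
  obtain ⟨E0, hE0⟩ : ∃ E0 : Set ℝ, E0 = (Ioc A B)ᶜ := ⟨_, rfl⟩
  obtain ⟨E1, hE1⟩ : ∃ E1 : ℕ → Set ℝ, E1 = fun b : ℕ => {t | 1 ≤ ‖Q1 (1 / 4) T k (t + 2 * Real.pi * b / L)‖} ∩ Ioc A B := ⟨_, rfl⟩
  obtain ⟨E2, hE2⟩ : ∃ E2 : ℕ → Set ℝ, E2 = fun b : ℕ => {t | ε / 4 * q ≤ ‖G (fun p => rc l (2 * Real.pi * b / L) (p ^ 2)) (Nat.sqrt X)
    (2 * t + 2 * Real.pi * b / L)‖} ∩ Ioc A B := ⟨_, rfl⟩
  obtain ⟨E3, hE3⟩ : ∃ E3 : ℕ → Set ℝ, E3 = fun b : ℕ => {t | 1 ≤ |R b t|} ∩ Ioc A B := ⟨_, rfl⟩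
  have hAIoc : Ioc A B ⊆ Ioc T (2 * T) := by
    intro t ht
    rw [hA, hB, mem_Ioc] at ht
    rw [mem_Ioc]
    constructor <;> linarith [ht.1, ht.2]
  have m1 : ∀ b, MeasurableSet (E1 b) := by
    intro b
    rw [hE1]
    exact (measurableSet_le measurable_const
      ((LG.CTAux.Q1_cont (1 / 4) T k).norm.measurable.comp (measurable_id.add_const _))).inter measurableSet_Ioc
  have m2 : ∀ b, MeasurableSet (E2 b) := by
    intro b
    rw [hE2]
    refine (measurableSet_le measurable_const (Continuous.measurable ?_)).inter measurableSet_Ioc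
    exact ((G_cont _ _).comp (by fun_prop)).norm
  have m3 : ∀ b ∈ Finset.Ico 1 (4 * r), MeasurableSet (E3 b) := by
    intro b hb
    rw [hE3]
    exact (measurableSet_le measurable_const (rc1 b hb).abs.measurable).inter measurableSet_Ioc
  have v0 : (PT T).real E0 ≤ η / 4 := by
    rw [PT_real hT0 (by rw [hE0]; exact measurableSet_Ioc.compl), div_le_iff₀ hT0]
    have h1 : E0 ∩ Ioc T (2 * T) ⊆ Ioc T A ∪ Ioc B (2 * T) := by
      intro t ht
      rw [hE0] at ht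
      obtain ⟨a1, a2⟩ := ht
      rw [Set.mem_compl_iff, mem_Ioc, not_and_or, not_lt, not_le] at a1
      rcases a1 with a1 | a1
      · exact Or.inl ⟨a2.1, a1⟩
      · exact Or.inr ⟨a1, a2.2⟩
    refine (measureReal_mono h1 (by
      refine (measure_union_lt_top ?_ ?_).ne <;> rw [Real.volume_Ioc] <;> exact ENNReal.ofReal_lt_top)).trans ?_
    refine (measureReal_union_le _ _).trans ?_
    rw [Real.volume_real_Ioc_of_le (by rw [hA]; linarith), Real.volume_real_Ioc_of_le (by rw [hB]; linarith), hA, hB]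
    linarith
  have v1 : ∀ b < 4 * r, (PT T).real (E1 b) ≤ 6 * (CQ / k) ^ k := by
    intro b hb
    rw [PT_real hT0 (m1 b), div_le_iff₀ hT0]
    have e : E1 b ∩ Ioc T (2 * T) = {t | 1 ≤ ‖Q1 (1 / 4) T k (t + 2 * Real.pi * b / L)‖} ∩ Ioc A B := by
      rw [hE1]
      show _ ∩ Ioc A B ∩ Ioc T (2 * T) = _
      rw [Set.inter_assoc, Set.inter_eq_left.2 hAIoc]
    rw [e]
    have hc : Continuous fun t => ‖Q1 (1 / 4) T k (t + 2 * Real.pi * b / L)‖ :=
      ((LG.CTAux.Q1_cont (1 / 4) T k).comp (by fun_prop)).norm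
    refine (cheb_vol hc (fun t => norm_nonneg _) (2 * k) one_pos hAB).trans ?_
    rw [one_pow, div_one]
    obtain ⟨g1, g2⟩ := hh7 b hb
    have e2 : ∫ t in A..B, ‖Q1 (1 / 4) T k (t + 2 * Real.pi * b / L)‖ ^ (2 * k) =
        ∫ t in (A + 2 * Real.pi * b / L)..(B + 2 * Real.pi * b / L), ‖Q1 (1 / 4) T k t‖ ^ (2 * k) :=
      intervalIntegral.integral_comp_add_right (fun t => ‖Q1 (1 / 4) T k t‖ ^ (2 * k)) (2 * Real.pi * b / L)
    rw [e2]
    refine (hQ T hTTQ k hk1 _ _ (by rw [hA]; linarith) (by linarith) (by rw [hB]; linarith)).trans (le_of_eq ?_)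
    ring
  have v2 : ∀ b < 4 * r, (PT T).real (E2 b) ≤ 18 * ((m.factorial : ℝ) * C4 ^ m / (ε / 4 * q) ^ (2 * m)) := by
    intro b hb
    rw [PT_real hT0 (m2 b), div_le_iff₀ hT0]
    have e : E2 b ∩ Ioc T (2 * T) ⊆ {t | ε / 4 * q ≤ ‖G (fun p => rc l (2 * Real.pi * b / L) (p ^ 2)) (Nat.sqrt X)
        (2 * t + 2 * Real.pi * b / L)‖} ∩ Ioc T (2 * T) := by
      rw [hE2]
      intro t ht
      exact ⟨ht.1.1, ht.2⟩
    refine (measureReal_mono e (by
      refine ne_top_of_le_ne_top (b := volume (Ioc T (2 * T))) ?_ (measure_mono inter_subset_right)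
      rw [Real.volume_Ioc]; exact ENNReal.ofReal_ne_top)).trans ?_
    have hc : Continuous fun t : ℝ => ‖G (fun p => rc l (2 * Real.pi * b / L) (p ^ 2)) (Nat.sqrt X)
        (2 * t + 2 * Real.pi * b / L)‖ := ((G_cont _ _).comp (by fun_prop)).norm
    refine (cheb_vol hc (fun t => norm_nonneg _) (2 * m) (by positivity : 0 < ε / 4 * q) (by linarith)).trans ?_
    have h1 := P2_int hV2 (T := T) (l := l) (h := 2 * Real.pi * b / L) hT1 hl0 hX1 hXm
    have h2 := div_le_div_of_nonneg_right h1 (by positivity : 0 ≤ (ε / 4 * q) ^ (2 * m))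
    refine h2.trans (le_of_eq ?_)
    ring
  have v3 : ∀ b ∈ Finset.Ico 1 (4 * r), (PT T).real (E3 b) ≤ η / (16 * r) := by
    intro b hb
    rw [PT_real hT0 (m3 b hb), div_le_iff₀ hT0]
    have e : E3 b ∩ Ioc T (2 * T) = {t | 1 ≤ |R b t|} ∩ Ioc A B := by
      rw [hE3]
      show _ ∩ Ioc A B ∩ Ioc T (2 * T) = _
      rw [Set.inter_assoc, Set.inter_eq_left.2 hAIoc]
    rw [e]
    refine (cheb_vol (rc1 b hb).abs (fun t => abs_nonneg _) 2 one_pos hAB).trans ?_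
    rw [one_pow, div_one]
    simp only [sq_abs]
    have := rc3 b hb
    rw [← hA, ← hB] at this
    exact this
  -- the inclusion
  have hsub : {t | ∃ b < 4 * r, 1 ≤ b ∧ ε * q ≤
      |((NZ (t + 2 * Real.pi * b / L) : ℝ) - NZ t) - b -
        (fld l (Pr X) (t + 2 * Real.pi * b / L) - fld l (Pr X) t)|} ⊆
      E0 ∪ ((⋃ b ∈ Finset.range (4 * r), E1 b) ∪ ((⋃ b ∈ Finset.range (4 * r), E2 b) ∪ (⋃ b ∈ Finset.Ico 1 (4 * r), E3 b))) := by
    intro t ht
    by_contra hcon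
    simp only [Set.mem_union, Set.mem_iUnion, Finset.mem_range, Finset.mem_Ico, not_or, not_exists] at hcon
    obtain ⟨k0, k1, k2, k3⟩ := hcon
    obtain ⟨b, hb, hb1, hge⟩ := ht
    have htI : t ∈ Ioc A B := by
      by_contra h
      exact k0 (by rw [hE0]; exact h)
    have hbI : b ∈ Finset.Ico 1 (4 * r) := Finset.mem_Ico.2 ⟨hb1, hb⟩
    have a1 : ‖Q1 (1 / 4) T k (t + 2 * Real.pi * b / L)‖ < 1 := by
      by_contra h
      push Not at h
      exact k1 b hb (by rw [hE1]; exact ⟨h, htI⟩)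
    have a0 : ‖Q1 (1 / 4) T k t‖ < 1 := by
      by_contra h
      push Not at h
      refine k1 0 (by omega) ?_
      rw [hE1]
      refine ⟨?_, htI⟩
      have e : t + 2 * Real.pi * ((0 : ℕ) : ℝ) / L = t := by simp
      show 1 ≤ ‖Q1 (1 / 4) T k (t + 2 * Real.pi * ((0 : ℕ) : ℝ) / L)‖
      rw [e]
      exact h
    have a2 : ‖G (fun p => rc l (2 * Real.pi * b / L) (p ^ 2)) (Nat.sqrt X) (2 * t + 2 * Real.pi * b / L)‖ < ε / 4 * q := by
      by_contra h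
      push Not at h
      exact k2 b hb (by rw [hE2]; exact ⟨h, htI⟩)
    have a3 : |R b t| < 1 := by
      by_contra h
      push Not at h
      exact k3 b ⟨hb1, hb⟩ (by rw [hE3]; exact ⟨h, htI⟩)
    obtain ⟨g1, g2⟩ := hh7 b hb
    obtain ⟨h, hh⟩ : ∃ h : ℝ, h = 2 * Real.pi * b / L := ⟨_, rfl⟩
    have r2 := rc2 b hbI t
    rw [← hh] at hge a1 a2 g1 g2 r2
    have htI' := htI
    rw [hA, hB, mem_Ioc] at htI'
    have hNZ : ((NZ (t + h) : ℝ) - NZ t) = NS (Zf riemannZeta (U1 b) (U2 b)) h t := by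
      rw [← Pool.Agent.Y743.LR.cnt_NZ (by linarith [htI'.1]) g2]
      exact cnt_eq (by linarith [u1 b hbI]) (by linarith [htI'.1, u2 b hbI]) (by linarith [htI'.2, u3 b hbI])
    have hS : Zf riemannZeta (U1 b) (U2 b) ⊆ Zf riemannZeta T (2 * T) := by
      intro s hs
      have hU : 1 ≤ U1 b := by linarith [u1 b hbI]
      rw [mem_Zf good_zeta hU] at hs
      rw [mem_Zf good_zeta (by linarith)]
      exact ⟨hs.1, hs.2.1, by linarith [hs.2.2.1, u1 b hbI], by linarith [hs.2.2.2.1, u4 b hbI], hs.2.2.2.2⟩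
    have hlam1 : 1 ≤ lam := by linarith
    have j0 := hJ lam hlam1 T hT10 k hkl _ hS t
    have j1 := hJ lam hlam1 T hT10 k hkl _ hS (t + h)
    rw [← hL, ← hl] at j0 j1
    have q0 := hM T hTTM t (by rw [← hL]; linarith [htI'.1]) (by rw [← hL]; linarith [htI'.2]) k hk1
    have q1 := hM T hTTM (t + h) (by rw [← hL]; linarith [htI'.1]) (by rw [← hL]; linarith [htI'.2]) k hk1
    have hl1 : CJ * lam ^ 2 / L ≤ 1 := by rw [div_le_one hL0]; exact hL1
    have q0' : CJ * Mk T k t ≤ 2 * (CJ * CM) * k := by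
      calc CJ * Mk T k t ≤ CJ * (CM * k * (1 + ‖Q1 (1 / 4) T k t‖)) := mul_le_mul_of_nonneg_left q0 hCJ.le
        _ ≤ CJ * (CM * k * (1 + 1)) := by gcongr
        _ = _ := by ring
    have q1' : CJ * Mk T k (t + h) ≤ 2 * (CJ * CM) * k := by
      calc CJ * Mk T k (t + h) ≤ CJ * (CM * k * (1 + ‖Q1 (1 / 4) T k (t + h)‖)) := mul_le_mul_of_nonneg_left q1 hCJ.le
        _ ≤ CJ * (CM * k * (1 + 1)) := by gcongr
        _ = _ := by ring
    have d1 := hDbT h t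
    rw [ze_re] at d1
    have key : ((NZ (t + h) : ℝ) - NZ t) - b - (fld l (Pr X) (t + h) - fld l (Pr X) t) =
        R b t - (GS Jk (Zf riemannZeta (U1 b) (U2 b)) l t - GS Jk (Zf riemannZeta (U1 b) (U2 b)) l (t + h)) -
        (Db l h (XT T) t - (fld l (Pr X) t - fld l (Pr X) (t + h))) := by
      rw [hNZ]
      linarith [r2]
    rw [key] at hge
    have f1 := abs_sub (R b t - (GS Jk (Zf riemannZeta (U1 b) (U2 b)) l t - GS Jk (Zf riemannZeta (U1 b) (U2 b)) l (t + h)))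
      (Db l h (XT T) t - (fld l (Pr X) t - fld l (Pr X) (t + h)))
    have f2 := abs_sub (R b t) (GS Jk (Zf riemannZeta (U1 b) (U2 b)) l t - GS Jk (Zf riemannZeta (U1 b) (U2 b)) l (t + h))
    have f3 := abs_sub (GS Jk (Zf riemannZeta (U1 b) (U2 b)) l t) (GS Jk (Zf riemannZeta (U1 b) (U2 b)) l (t + h))
    linarith
  refine (measureReal_mono hsub (measure_ne_top _ _)).trans ?_
  refine (measureReal_union_le _ _).trans ?_
  have w1 : (PT T).real (⋃ b ∈ Finset.range (4 * r), E1 b) ≤ η / 4 := by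
    refine (measureReal_biUnion_finset_le _ _).trans ?_
    refine (Finset.sum_le_sum fun b hb => v1 b (Finset.mem_range.1 hb)).trans ?_
    rw [Finset.sum_const, Finset.card_range, nsmul_eq_mul, hn4]
    exact n3
  have w2 : (PT T).real (⋃ b ∈ Finset.range (4 * r), E2 b) ≤ η / 4 := by
    refine (measureReal_biUnion_finset_le _ _).trans ?_
    refine (Finset.sum_le_sum fun b hb => v2 b (Finset.mem_range.1 hb)).trans ?_
    rw [Finset.sum_const, Finset.card_range, nsmul_eq_mul, hn4]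
    exact n4
  have w3 : (PT T).real (⋃ b ∈ Finset.Ico 1 (4 * r), E3 b) ≤ η / 4 := by
    refine (measureReal_biUnion_finset_le _ _).trans ?_
    refine (Finset.sum_le_sum v3).trans ?_
    rw [Finset.sum_const, Nat.card_Ico, nsmul_eq_mul]
    have h1 : ((4 * r - 1 : ℕ) : ℝ) ≤ 4 * r := by
      have : 4 * r - 1 ≤ 4 * r := by omega
      exact_mod_cast this
    calc ((4 * r - 1 : ℕ) : ℝ) * (η / (16 * r)) ≤ 4 * r * (η / (16 * r)) :=
          mul_le_mul_of_nonneg_right h1 (by positivity)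
      _ = η / 4 := by field_simp; norm_num
  have w23 := measureReal_union_le (μ := PT T) (⋃ b ∈ Finset.range (4 * r), E2 b) (⋃ b ∈ Finset.Ico 1 (4 * r), E3 b)
  have w123 := measureReal_union_le (μ := PT T) (⋃ b ∈ Finset.range (4 * r), E1 b)
    ((⋃ b ∈ Finset.range (4 * r), E2 b) ∪ (⋃ b ∈ Finset.Ico 1 (4 * r), E3 b))
  linarith

end

end Pool.Agent.U403.Ldp
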