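import Pool.Agent.U403.Ldp.CL

/-! # Large deviations: all zeros -/

set_option autoImplicit false

open Filter Topology MeasureTheory Set
open Pool.Agent.R320.JL (YY YY_meas SS_gL varB split_sum)
open Pool.Agent.Y743.NC (dev dev_nonneg dev_int ff)
open Pool.Agent.R320.CL (SS SS_ge)
open SP (RHs)
open SG (NZ ord)
open Pool.Agent.U403.Max

namespace Pool.Agent.U403.Ldp

noncomputable section

/-- blocks cover all zeros -/
theorem assembleL : ∃ c : ℝ, 0 < c ∧ ∀ ε : ℝ, 0 < ε → ∀ g : ℕ → ℂ, (∀ n, ‖g n‖ ≤ 1) →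
    (∀ᶠ T : ℝ in atTop, ∀ A B' : ℝ, T + 1 ≤ A → A + 1 ≤ B' → B' ≤ 2 * T →
      ‖∑ n ∈ Finset.Ioc (NZ A) (NZ B'), g n‖ ≤ c * ε * (T * Real.log T)) →
    ∀ᶠ N : ℕ in atTop, ‖∑ n ∈ Finset.Icc 1 N, g n‖ ≤ ε * N := by
  obtain ⟨C2, hC2, N1, hN1, hNx⟩ := Pool.Agent.R320.VQ.N_x
  obtain ⟨C3, T3, hC3, hT3, hup⟩ := LG.GapAux.NZ_up
  obtain ⟨C4, hC4, hunit⟩ := Pool.Agent.Y743.NC.unit_count
  refine ⟨1 / (12 * C2), by positivity, fun ε hε g hgn hblock => ?_⟩
  obtain ⟨K, hK⟩ : ∃ K : ℕ, (2 / 3 : ℝ) ^ K < ε / (4 * (C3 * C2)) :=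
    exists_pow_lt_of_lt_one (by positivity) (by norm_num)
  obtain ⟨ρ, hρ⟩ : ∃ ρ : ℝ, ρ = (2 / 3 : ℝ) ^ K := ⟨_, rfl⟩
  rw [← hρ] at hK
  have hρ0 : 0 < ρ := by rw [hρ]; positivity
  have hρ1 : ρ ≤ 1 := by rw [hρ]; exact pow_le_one₀ (by norm_num) (by norm_num)
  obtain ⟨ε', hε'⟩ : ∃ ε' : ℝ, ε' = 1 / (12 * C2) * ε := ⟨_, rfl⟩
  have hε'0 : 0 < ε' := by rw [hε']; positivity
  rw [← hε'] at hblock
  obtain ⟨TB, hTB⟩ := eventually_atTop.1 hblock
  have ev2 : ∀ᶠ y : ℝ in atTop, Real.log y + 20 ≤ y / 15 ∧ 2 * T3 ≤ y ∧ 3 ≤ y ∧ TB ≤ 3 / 5 * y := by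
    have h2 := Real.isLittleO_log_id_atTop.bound (c := 1 / 30) (by positivity)
    filter_upwards [h2, eventually_ge_atTop 600, eventually_ge_atTop (2 * T3), eventually_ge_atTop (5 / 3 * TB)] with x hx hx1 hx2 hx3
    rw [id, Real.norm_of_nonneg (Real.log_nonneg (by linarith)), Real.norm_of_nonneg (by linarith)] at hx
    exact ⟨by linarith, hx2, by linarith, by linarith⟩
  obtain ⟨y0, hy0⟩ := ev2.exists_forall_of_atTop
  have ev3 : ∀ᶠ x : ℝ in atTop, y0 ≤ ρ * x := by
    filter_upwards [eventually_ge_atTop (y0 / ρ)] with x hx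
    rw [div_le_iff₀ hρ0] at hx
    linarith
  have ev4 : ∀ᶠ x : ℝ in atTop, C4 * Real.log x ≤ ε / (4 * C2) * (x * Real.log x) := by
    filter_upwards [eventually_ge_atTop (max 1 (C4 / (ε / (4 * C2))))] with x hx
    have hx1 : 1 ≤ x := (le_max_left _ _).trans hx
    have hx2 : C4 / (ε / (4 * C2)) ≤ x := (le_max_right _ _).trans hx
    rw [div_le_iff₀ (by positivity)] at hx2
    have hl := Real.log_nonneg hx1
    calc C4 * Real.log x ≤ (x * (ε / (4 * C2))) * Real.log x := mul_le_mul_of_nonneg_right hx2 hl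
      _ = _ := by ring
  have ev := SG.ord_tendsto.eventually (ev3.and (ev4.and (eventually_ge_atTop 10)))
  filter_upwards [ev, eventually_ge_atTop N1, eventually_ge_atTop 1] with N hN hNN1 hN1'
  have hNr : (1 : ℝ) ≤ N := by exact_mod_cast hN1'
  have hNx1 := hNx N hNN1
  obtain ⟨hxN, hNx'⟩ := hNx1
  obtain ⟨g2, ⟨g3, g4⟩⟩ := hN
  obtain ⟨x, hx⟩ : ∃ x : ℝ, x = ord N := ⟨_, rfl⟩
  rw [← hx] at hxN hNx' g2 g3 g4
  have hcard : ∀ S : Finset ℕ, ‖∑ n ∈ S, g n‖ ≤ S.card := by
    intro S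
    refine (norm_sum_le _ _).trans ((Finset.sum_le_sum fun n _ => hgn n).trans (le_of_eq ?_))
    rw [Finset.sum_const, nsmul_eq_mul, mul_one]
  have hlx : 0 < Real.log x := Real.log_pos (by linarith)
  have hx0 : 0 < x := by linarith
  -- the index range
  have hNZ : N ≤ NZ x := by rw [hx]; exact SG.le_NZ_ord hN1'
  have e1 : ∑ n ∈ Finset.Icc 1 N, g n = ∑ n ∈ Finset.Icc 1 (NZ x), g n - ∑ n ∈ Finset.Ioc N (NZ x), g n := by
    have e2 : Finset.Icc 1 (NZ x) = Finset.Icc 1 N ∪ Finset.Ioc N (NZ x) := by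
      ext n
      simp only [Finset.mem_union, Finset.mem_Icc, Finset.mem_Ioc]
      omega
    rw [e2, Finset.sum_union, add_sub_cancel_right]
    rw [Finset.disjoint_left]
    intro n h4 h5
    rw [Finset.mem_Icc] at h4
    rw [Finset.mem_Ioc] at h5
    omega
  have hend : ‖∑ n ∈ Finset.Ioc N (NZ x), g n‖ ≤ ε / 4 * N := by
    refine (hcard _).trans ?_
    rw [Nat.card_Ioc]
    have a1 : NZ (x - 1) < N := by
      by_contra hcon
      push Not at hcon
      have := (SG.ord_le_iff hN1' _).mpr hcon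
      linarith
    have a2 := hunit (x - 1) (by linarith)
    rw [sub_add_cancel] at a2
    have a3 : ((NZ x - N : ℕ) : ℝ) ≤ C4 * Real.log x := by
      rw [Nat.cast_sub hNZ]
      have a4 : (NZ (x - 1) : ℝ) ≤ N := by exact_mod_cast a1.le
      have a5 : Real.log (x - 1) ≤ Real.log x := Real.log_le_log (by linarith) (by linarith)
      have a6 : C4 * Real.log (x - 1) ≤ C4 * Real.log x := mul_le_mul_of_nonneg_left a5 hC4.le
      linarith
    calc ((NZ x - N : ℕ) : ℝ) ≤ C4 * Real.log x := a3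
      _ ≤ ε / (4 * C2) * (x * Real.log x) := g3
      _ ≤ ε / (4 * C2) * (C2 * N) := by gcongr
      _ = _ := by field_simp
  -- the low part
  have hρx := hy0 (ρ * x) g2
  have hlow : ‖∑ n ∈ Finset.Icc 1 (NZ (ρ * x)), g n‖ ≤ ε / 4 * N := by
    refine (hcard _).trans ?_
    rw [Nat.card_Icc, Nat.add_sub_cancel]
    have a1 := hup (ρ * x / 2) (by linarith [hρx.2.1])
    have e2 : 2 * (ρ * x / 2) = ρ * x := by ring
    rw [e2] at a1
    have a2 : ρ * x / 2 * Real.log (ρ * x / 2) ≤ ρ * (x * Real.log x) := by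
      have b1 : Real.log (ρ * x / 2) ≤ Real.log x := Real.log_le_log (by positivity) (by nlinarith)
      calc ρ * x / 2 * Real.log (ρ * x / 2) ≤ ρ * x / 2 * Real.log x := by gcongr
        _ ≤ ρ * x * Real.log x := by
          apply mul_le_mul_of_nonneg_right _ hlx.le
          have : 0 < ρ * x := by positivity
          linarith
        _ = _ := by ring
    calc (NZ (ρ * x) : ℝ) ≤ C3 * (ρ * (x * Real.log x)) := by
          refine a1.trans ?_
          exact mul_le_mul_of_nonneg_left a2 hC3.le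
      _ ≤ C3 * (ρ * (C2 * N)) := by gcongr
      _ = (C3 * C2) * ρ * N := by ring
      _ ≤ (C3 * C2) * (ε / (4 * (C3 * C2))) * N := by gcongr
      _ = _ := by field_simp
  -- the blocks
  have hblk : ∀ j ∈ Finset.range K, ‖∑ n ∈ Finset.Ioc (NZ (2 / 3 * ((2 / 3) ^ j * x)))
      (NZ ((2 / 3) ^ j * x)), g n‖ ≤ ε' * (x * Real.log x) * (2 / 3) ^ j := by
    intro j hj
    rw [Finset.mem_range] at hj
    obtain ⟨y, hy⟩ : ∃ y : ℝ, y = (2 / 3) ^ j * x := ⟨_, rfl⟩
    rw [← hy]
    have hρy : ρ * x ≤ y := by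
      rw [hy, hρ]
      apply mul_le_mul_of_nonneg_right _ hx0.le
      exact pow_le_pow_of_le_one (by norm_num) (by norm_num) hj.le
    have hyx : y ≤ x := by
      rw [hy]
      have : (2 / 3 : ℝ) ^ j ≤ 1 := pow_le_one₀ (by norm_num) (by norm_num)
      nlinarith
    obtain ⟨k1, k2, k3, k4⟩ := hy0 y (g2.trans hρy)
    have hly : 0 ≤ Real.log y := Real.log_nonneg (by linarith)
    have hT1 : 1 ≤ 3 / 5 * y := by linarith
    have hlogT : Real.log (3 / 5 * y) ≤ Real.log y := Real.log_le_log (by linarith) (by linarith)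
    have h4 := hTB (3 / 5 * y) k4 (2 / 3 * y) y (by linarith) (by linarith) (by linarith)
    refine h4.trans ?_
    have h5 : 3 / 5 * y * Real.log (3 / 5 * y) ≤ y * Real.log x := by
      apply mul_le_mul (by linarith) (hlogT.trans (Real.log_le_log (by linarith) hyx))
        (Real.log_nonneg hT1) (by linarith)
    have h6 : ε' * (x * Real.log x) * (2 / 3) ^ j = ε' * (y * Real.log x) := by rw [hy]; ring
    rw [h6]
    gcongr
  have hblks : ‖∑ k ∈ Finset.range K, ∑ n ∈ Finset.Ioc (NZ (2 / 3 * ((2 / 3) ^ k * x)))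
      (NZ ((2 / 3) ^ k * x)), g n‖ ≤ ε / 4 * N := by
    refine (norm_sum_le _ _).trans ((Finset.sum_le_sum hblk).trans ?_)
    rw [← Finset.mul_sum]
    have hgeo : ∑ j ∈ Finset.range K, (2 / 3 : ℝ) ^ j ≤ 3 := by
      have h1 := geom_sum_eq (show (2 / 3 : ℝ) ≠ 1 by norm_num) K
      have h2 : 0 < (2 / 3 : ℝ) ^ K := by positivity
      rw [h1, div_le_iff_of_neg (by norm_num)]
      linarith
    have h0 : 0 ≤ ε' * (x * Real.log x) := by positivity
    calc ε' * (x * Real.log x) * ∑ j ∈ Finset.range K, (2 / 3 : ℝ) ^ j ≤ ε' * (x * Real.log x) * 3 := by gcongr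
      _ ≤ ε' * (C2 * N) * 3 := by gcongr
      _ = ε / 4 * N := by rw [hε']; field_simp; norm_num
  have e2 := split_sum g x hx0.le K
  rw [← hρ] at e2
  rw [e1, e2]
  refine (norm_sub_le _ _).trans ?_
  have h6 := norm_add_le (∑ n ∈ Finset.Icc 1 (NZ (ρ * x)), g n)
    (∑ k ∈ Finset.range K, ∑ n ∈ Finset.Ioc (NZ (2 / 3 * ((2 / 3) ^ k * x))) (NZ ((2 / 3) ^ k * x)), g n)
  have h7 : 0 ≤ ε * N := by positivity
  linarith

open Classical in
/-- **the upper bound for the tails** -/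
theorem tailUpper (hRH : RHs) (α ε : ℝ) (hα : 0 < α) (hε : 0 < ε) : ∀ᶠ r : ℕ in atTop, ∀ᶠ N : ℕ in atTop,
    (((Finset.Icc 1 N).filter (fun n => α * Real.log r ≤ |St r n - r|)).card : ℝ) ≤
      Real.exp (-((Real.pi ^ 2 * α ^ 2 / 2 - ε) * Real.log r)) * N := by
  obtain ⟨c, hc, has⟩ := assembleL
  have g1 := cntUp hRH α (ε / 2) hα (by positivity)
  have g2 := ev_pow (ε / 2) 0 (by positivity) 0 1 hc
  filter_upwards [g1, logr_top.eventually g2] with r g1 g2
  obtain ⟨q, hq⟩ : ∃ q : ℝ, q = Real.log r := ⟨_, rfl⟩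
  rw [← hq] at g1 g2 ⊢
  simp only [pow_zero, one_mul] at g2
  obtain ⟨η, hη⟩ : ∃ η : ℝ, η = Real.exp (-((Real.pi ^ 2 * α ^ 2 / 2 - ε) * q)) := ⟨_, rfl⟩
  have hη0 : 0 < η := by rw [hη]; exact Real.exp_pos _
  have h2 : Real.exp (-((Real.pi ^ 2 * α ^ 2 / 2 - ε / 2) * q)) ≤ c * η := by
    have : Real.exp (-((Real.pi ^ 2 * α ^ 2 / 2 - ε / 2) * q)) = Real.exp (-(ε / 2 * q)) * η := by
      rw [hη, ← Real.exp_add]; congr 1; ring
    rw [this]
    exact mul_le_mul_of_nonneg_right g2 hη0.le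
  rw [← hη]
  have hcard : ∀ S : Finset ℕ, ∑ n ∈ S, (if α * q ≤ |St r n - r| then (1 : ℂ) else 0) =
      (((S.filter (fun n => α * q ≤ |St r n - r|)).card : ℝ) : ℂ) := by
    intro S
    rw [Finset.card_filter]
    push_cast
    refine Finset.sum_congr rfl fun n _ => ?_
    by_cases h : α * q ≤ |St r n - r|
    · simp [h]
    · simp [h]
  have hev := has η hη0 (fun n => if α * q ≤ |St r n - r| then (1 : ℂ) else 0) (fun n => by
    split_ifs <;> simp) (by
      filter_upwards [g1, eventually_ge_atTop 1] with T g1 hT1 A B' h1 h3 h4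
      rw [hcard, Complex.norm_real, Real.norm_of_nonneg (Nat.cast_nonneg _)]
      refine (g1 A B' h1 h3 h4).trans ?_
      have : 0 ≤ T * Real.log T := mul_nonneg (by linarith) (Real.log_nonneg hT1)
      exact mul_le_mul_of_nonneg_right h2 this)
  filter_upwards [hev] with N hN
  rw [hcard, Complex.norm_real, Real.norm_of_nonneg (Nat.cast_nonneg _)] at hN
  exact hN

open Classical in
/-- **the lower bound for the tails** -/
theorem tailLower (hRH : RHs) (α ε : ℝ) (hα : 0 ≤ α) (hε : 0 < ε) (s : ℝ) (hs : s = 1 ∨ s = -1) :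
    ∀ᶠ r : ℕ in atTop, ∀ᶠ N : ℕ in atTop, Real.exp (-((Real.pi ^ 2 * α ^ 2 / 2 + ε) * Real.log r)) * N ≤
    (((Finset.Icc 1 N).filter (fun n => α * Real.log r ≤ s * (St r n - r))).card : ℝ) := by
  obtain ⟨C3, T3, hC3, hT3, hup⟩ := LG.GapAux.NZ_up
  have g1 := cntLow hRH α (ε / 2) hα (by positivity) s hs
  have g2 := ev_pow (ε / 2) 0 (by positivity) 0 1 (show 0 < 1 / (4 * C3) by positivity)
  filter_upwards [g1, logr_top.eventually g2] with r g1 g2
  obtain ⟨q, hq⟩ : ∃ q : ℝ, q = Real.log r := ⟨_, rfl⟩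
  rw [← hq] at g1 g2 ⊢
  simp only [pow_zero, one_mul] at g2
  obtain ⟨η, hη⟩ : ∃ η : ℝ, η = Real.exp (-((Real.pi ^ 2 * α ^ 2 / 2 + ε / 2) * q)) := ⟨_, rfl⟩
  have hη0 : 0 < η := by rw [hη]; exact Real.exp_pos _
  rw [← hη] at g1
  obtain ⟨T4, hT4⟩ := eventually_atTop.1 g1
  filter_upwards [SG.ord_tendsto.eventually_ge_atTop (max (2 * T4 + 1) (max (2 * T3) 8)), eventually_ge_atTop 1]
    with N hx hN1
  obtain ⟨x, hxd⟩ : ∃ x : ℝ, x = ord N := ⟨_, rfl⟩
  rw [← hxd] at hx
  have x1 : 2 * T4 + 1 ≤ x := (le_max_left _ _).trans hx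
  have x2 : 2 * T3 ≤ x := (le_max_left _ _).trans ((le_max_right _ _).trans hx)
  have x3 : 8 ≤ x := (le_max_right _ _).trans ((le_max_right _ _).trans hx)
  have h1 := hT4 ((x - 1) / 2) (by linarith)
  have e1 : 2 * ((x - 1) / 2) = x - 1 := by ring
  rw [e1] at h1
  have a1 : NZ (x - 1) < N := by
    by_contra hcon
    push Not at hcon
    have := (SG.ord_le_iff hN1 _).mpr hcon
    linarith
  have hsub : (Finset.Ioc (NZ ((x - 1) / 2)) (NZ (x - 1))).filter (fun n => α * q ≤ s * (St r n - r)) ⊆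
      (Finset.Icc 1 N).filter (fun n => α * q ≤ s * (St r n - r)) := by
    apply Finset.filter_subset_filter
    intro n hn
    rw [Finset.mem_Ioc] at hn
    rw [Finset.mem_Icc]
    omega
  have h2 : ((((Finset.Ioc (NZ ((x - 1) / 2)) (NZ (x - 1))).filter (fun n => α * q ≤ s * (St r n - r))).card : ℕ) : ℝ) ≤
      (((Finset.Icc 1 N).filter (fun n => α * q ≤ s * (St r n - r))).card : ℝ) := by
    exact_mod_cast Finset.card_le_card hsub
  have h3 := hup (x / 2) (by linarith)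
  have e2 : 2 * (x / 2) = x := by ring
  rw [e2] at h3
  have h4 : (N : ℝ) ≤ NZ x := by
    have := SG.le_NZ_ord hN1
    rw [← hxd] at this
    exact_mod_cast this
  have h5 : x / 2 * Real.log (x / 2) ≤ 4 * ((x - 1) / 2 * Real.log ((x - 1) / 2)) := by
    have h6 : Real.log (x / 2) ≤ 2 * Real.log (x / 4) := by
      have : 2 * Real.log (x / 4) = Real.log ((x / 4) ^ 2) := by rw [Real.log_pow]; push_cast; ring
      rw [this]
      apply Real.log_le_log (by linarith)
      nlinarith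
    have h7 : Real.log (x / 4) ≤ Real.log ((x - 1) / 2) := Real.log_le_log (by linarith) (by linarith)
    have h8 : 0 ≤ Real.log (x / 4) := Real.log_nonneg (by linarith)
    calc x / 2 * Real.log (x / 2) ≤ x / 2 * (2 * Real.log ((x - 1) / 2)) := by
          apply mul_le_mul_of_nonneg_left _ (by linarith)
          linarith
      _ ≤ (x - 1) * (2 * Real.log ((x - 1) / 2)) := by
          apply mul_le_mul_of_nonneg_right (by linarith)
          linarith
      _ = _ := by ring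
  have h6 : (N : ℝ) ≤ 4 * C3 * ((x - 1) / 2 * Real.log ((x - 1) / 2)) := by
    have := mul_le_mul_of_nonneg_left h5 hC3.le
    linarith
  have h7 : Real.exp (-((Real.pi ^ 2 * α ^ 2 / 2 + ε) * q)) = Real.exp (-(ε / 2 * q)) * η := by
    rw [hη, ← Real.exp_add]; congr 1; ring
  rw [h7]
  refine le_trans ?_ h2
  refine le_trans ?_ h1
  have h8 : Real.exp (-(ε / 2 * q)) * N ≤ (x - 1) / 2 * Real.log ((x - 1) / 2) := by
    have h9 : (0 : ℝ) ≤ N := Nat.cast_nonneg _
    calc Real.exp (-(ε / 2 * q)) * N ≤ 1 / (4 * C3) * N := mul_le_mul_of_nonneg_right g2 h9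
      _ ≤ 1 / (4 * C3) * (4 * C3 * ((x - 1) / 2 * Real.log ((x - 1) / 2))) := by gcongr
      _ = _ := by field_simp
  calc Real.exp (-(ε / 2 * q)) * η * N = η * (Real.exp (-(ε / 2 * q)) * N) := by ring
    _ ≤ _ := mul_le_mul_of_nonneg_left h8 hη0.le

open Classical in
/-- an interval on one side -/
theorem oneSide (hRH : RHs) (α β ε : ℝ) (hα : 0 ≤ α) (hαβ : α < β) (hε : 0 < ε) (s : ℝ) (hs : s = 1 ∨ s = -1) :
    ∀ᶠ r : ℕ in atTop, ∀ᶠ N : ℕ in atTop, Real.exp (-((Real.pi ^ 2 * α ^ 2 / 2 + ε) * Real.log r)) * N ≤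
    (((Finset.Icc 1 N).filter (fun n => α * Real.log r ≤ s * (St r n - r) ∧
      s * (St r n - r) ≤ β * Real.log r)).card : ℝ) := by
  have hpi := Real.pi_pos
  obtain ⟨D, hD⟩ : ∃ D : ℝ, D = Real.pi ^ 2 * (β ^ 2 - α ^ 2) := ⟨_, rfl⟩
  have hD0 : 0 < D := by
    rw [hD]
    have : 0 < β ^ 2 - α ^ 2 := by nlinarith
    positivity
  obtain ⟨e, he⟩ : ∃ e : ℝ, e = min (ε / 2) (D / 8) := ⟨_, rfl⟩
  have he0 : 0 < e := by rw [he]; exact lt_min (by positivity) (by positivity)
  have he1 : e ≤ ε / 2 := by rw [he]; exact min_le_left _ _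
  have he2 : e ≤ D / 8 := by rw [he]; exact min_le_right _ _
  have g1 := tailLower hRH α e hα he0 s hs
  have g2 := tailUpper hRH β e (by linarith) he0
  filter_upwards [g1, g2, logr_top.eventually_ge_atTop (4 / D), logr_top.eventually_ge_atTop (2 / ε),
    logr_top.eventually_ge_atTop 0] with r g1 g2 g3 g4 g5
  filter_upwards [g1, g2] with N g1 g2
  obtain ⟨q, hq⟩ : ∃ q : ℝ, q = Real.log r := ⟨_, rfl⟩
  rw [← hq] at g1 g2 g3 g4 g5 ⊢
  rw [div_le_iff₀ hD0] at g3
  rw [div_le_iff₀ hε] at g4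
  have hN0 : (0 : ℝ) ≤ N := Nat.cast_nonneg _
  have hsub : (Finset.Icc 1 N).filter (fun n => α * q ≤ s * (St r n - r)) ⊆
      (Finset.Icc 1 N).filter (fun n => α * q ≤ s * (St r n - r) ∧ s * (St r n - r) ≤ β * q) ∪
      (Finset.Icc 1 N).filter (fun n => β * q ≤ |St r n - r|) := by
    intro n hn
    rw [Finset.mem_filter] at hn
    rw [Finset.mem_union, Finset.mem_filter, Finset.mem_filter]
    by_cases h : s * (St r n - r) ≤ β * q
    · exact Or.inl ⟨hn.1, hn.2, h⟩
    · right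
      refine ⟨hn.1, ?_⟩
      push Not at h
      refine h.le.trans ?_
      rcases hs with h' | h'
      · rw [h', one_mul]; exact le_abs_self _
      · rw [h', neg_one_mul]; exact neg_le_abs _
  have h1 : (((Finset.Icc 1 N).filter (fun n => α * q ≤ s * (St r n - r))).card : ℝ) ≤
      (((Finset.Icc 1 N).filter (fun n => α * q ≤ s * (St r n - r) ∧ s * (St r n - r) ≤ β * q)).card : ℝ) +
      (((Finset.Icc 1 N).filter (fun n => β * q ≤ |St r n - r|)).card : ℝ) := by
    exact_mod_cast (Finset.card_le_card hsub).trans (Finset.card_union_le _ _)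
  obtain ⟨ρ, hρ⟩ : ∃ ρ : ℝ, ρ = Real.exp (-((Real.pi ^ 2 * α ^ 2 / 2 + e) * q)) := ⟨_, rfl⟩
  have hρ0 : 0 < ρ := by rw [hρ]; exact Real.exp_pos _
  have h2 : Real.exp (-((Real.pi ^ 2 * β ^ 2 / 2 - e) * q)) ≤ ρ / 2 := by
    have h3 : Real.exp (-((Real.pi ^ 2 * β ^ 2 / 2 - e) * q)) ≤ ρ * Real.exp (-(D / 4 * q)) := by
      rw [hρ, ← Real.exp_add]
      apply Real.exp_le_exp.2
      have := mul_le_mul_of_nonneg_right (show Real.pi ^ 2 * α ^ 2 / 2 + e + D / 4 ≤ Real.pi ^ 2 * β ^ 2 / 2 - e by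
        rw [hD] at he2 ⊢; linarith) g5
      linarith
    have h4 : Real.exp (-(D / 4 * q)) ≤ 1 / 2 := by
      rw [Real.exp_neg, ← one_div]
      apply one_div_le_one_div_of_le (by norm_num)
      have := Real.add_one_le_exp (D / 4 * q)
      linarith
    have := mul_le_mul_of_nonneg_left h4 hρ0.le
    linarith
  have h3 : Real.exp (-((Real.pi ^ 2 * α ^ 2 / 2 + ε) * q)) ≤ ρ / 2 := by
    have h4 : Real.exp (-((Real.pi ^ 2 * α ^ 2 / 2 + ε) * q)) ≤ ρ * Real.exp (-(ε / 2 * q)) := by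
      rw [hρ, ← Real.exp_add]
      apply Real.exp_le_exp.2
      have := mul_le_mul_of_nonneg_right he1 g5
      linarith
    have h5 : Real.exp (-(ε / 2 * q)) ≤ 1 / 2 := by
      rw [Real.exp_neg, ← one_div]
      apply one_div_le_one_div_of_le (by norm_num)
      have := Real.add_one_le_exp (ε / 2 * q)
      linarith
    have := mul_le_mul_of_nonneg_left h5 hρ0.le
    linarith
  rw [← hρ] at g1
  have h4 := mul_le_mul_of_nonneg_right h2 hN0
  have h5 := mul_le_mul_of_nonneg_right h3 hN0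
  linarith

open Classical in
/-- **the large deviation principle** -/
theorem ldp (hRH : RHs) (a b m ε : ℝ) (hab : a < b) (hm : IsLeast ((fun x : ℝ => x ^ 2) '' Icc a b) m) (hε : 0 < ε) :
    ∀ᶠ r : ℕ in atTop, ∀ᶠ N : ℕ in atTop,
      Real.exp (-((Real.pi ^ 2 * m / 2 + ε) * Real.log r)) * N ≤
        (((Finset.Icc 1 N).filter (fun n => a * Real.log r ≤ St r n - r ∧ St r n - r ≤ b * Real.log r)).card : ℝ) ∧
      (((Finset.Icc 1 N).filter (fun n => a * Real.log r ≤ St r n - r ∧ St r n - r ≤ b * Real.log r)).card : ℝ) ≤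
        Real.exp (-((Real.pi ^ 2 * m / 2 - ε) * Real.log r)) * N := by
  have hpi := Real.pi_pos
  obtain ⟨⟨c, hc, hcm⟩, hmin⟩ := hm
  have hcm' : c ^ 2 = m := hcm
  have hmina : m ≤ a ^ 2 := hmin ⟨a, ⟨le_rfl, hab.le⟩, rfl⟩
  have hminb : m ≤ b ^ 2 := hmin ⟨b, ⟨hab.le, le_rfl⟩, rfl⟩
  have triv : ∀ r N : ℕ, 0 ≤ Real.log r → m = 0 →
      (((Finset.Icc 1 N).filter (fun n => a * Real.log r ≤ St r n - r ∧ St r n - r ≤ b * Real.log r)).card : ℝ) ≤
        Real.exp (-((Real.pi ^ 2 * m / 2 - ε) * Real.log r)) * N := by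
    intro r N hr hm0
    have h1 := Finset.card_filter_le (Finset.Icc 1 N)
      (fun n => a * Real.log r ≤ St r n - r ∧ St r n - r ≤ b * Real.log r)
    rw [Nat.card_Icc, Nat.add_sub_cancel] at h1
    have h2 : (((Finset.Icc 1 N).filter (fun n => a * Real.log r ≤ St r n - r ∧ St r n - r ≤ b * Real.log r)).card : ℝ) ≤ N := by
      exact_mod_cast h1
    refine h2.trans ?_
    apply le_mul_of_one_le_left (Nat.cast_nonneg _)
    apply Real.one_le_exp
    rw [hm0]
    have : 0 ≤ ε * Real.log r := by positivity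
    linarith
  rcases lt_or_ge b 0 with hb | hb
  · -- negative side
    have hmb : m = b ^ 2 := by
      apply le_antisymm hminb
      rw [← hcm']
      nlinarith [hc.1, hc.2]
    have g1 := oneSide hRH (-b) (-a) ε (by linarith) (by linarith) hε (-1) (Or.inr rfl)
    have g2 := tailUpper hRH (-b) ε (by linarith) hε
    filter_upwards [g1, g2, logr_top.eventually_ge_atTop 0] with r g1 g2 g3
    filter_upwards [g1, g2] with N g1 g2
    rw [neg_sq, ← hmb] at g1 g2
    constructor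
    · refine g1.trans (le_of_eq ?_)
      congr 2
      apply Finset.filter_congr
      intro n _
      constructor
      · rintro ⟨h1, h2⟩
        constructor <;> linarith
      · rintro ⟨h1, h2⟩
        constructor <;> linarith
    · refine le_trans ?_ g2
      have : (Finset.Icc 1 N).filter (fun n => a * Real.log r ≤ St r n - r ∧ St r n - r ≤ b * Real.log r) ⊆
          (Finset.Icc 1 N).filter (fun n => -b * Real.log r ≤ |St r n - r|) := by
        intro n hn
        rw [Finset.mem_filter] at hn ⊢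
        refine ⟨hn.1, le_trans ?_ (neg_le_abs _)⟩
        linarith [hn.2.2]
      exact_mod_cast Finset.card_le_card this
  rcases lt_or_ge 0 a with ha | ha
  · -- positive side
    have hma : m = a ^ 2 := by
      apply le_antisymm hmina
      rw [← hcm']
      nlinarith [hc.1, hc.2]
    have g1 := oneSide hRH a b ε ha.le hab hε 1 (Or.inl rfl)
    have g2 := tailUpper hRH a ε ha hε
    filter_upwards [g1, g2, logr_top.eventually_ge_atTop 0] with r g1 g2 g3
    filter_upwards [g1, g2] with N g1 g2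
    rw [← hma] at g1 g2
    constructor
    · refine g1.trans (le_of_eq ?_)
      congr 2
      apply Finset.filter_congr
      intro n _
      rw [one_mul]
    · refine le_trans ?_ g2
      have : (Finset.Icc 1 N).filter (fun n => a * Real.log r ≤ St r n - r ∧ St r n - r ≤ b * Real.log r) ⊆
          (Finset.Icc 1 N).filter (fun n => a * Real.log r ≤ |St r n - r|) := by
        intro n hn
        rw [Finset.mem_filter] at hn ⊢
        exact ⟨hn.1, hn.2.1.trans (le_abs_self _)⟩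
      exact_mod_cast Finset.card_le_card this
  · -- the interval contains zero
    have hm0 : m = 0 := by
      apply le_antisymm
      · have : m ≤ (0 : ℝ) ^ 2 := hmin ⟨0, ⟨ha, hb⟩, rfl⟩
        simpa using this
      · rw [← hcm']
        positivity
    rcases lt_or_eq_of_le hb with hb' | hb'
    · have g1 := oneSide hRH 0 b ε le_rfl hb' hε 1 (Or.inl rfl)
      filter_upwards [g1, logr_top.eventually_ge_atTop 0] with r g1 g3
      filter_upwards [g1] with N g1
      refine ⟨?_, triv r N g3 hm0⟩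
      rw [hm0]
      have e0 : (0 : ℝ) ^ 2 = 0 := by norm_num
      rw [e0] at g1
      refine g1.trans ?_
      have : (Finset.Icc 1 N).filter (fun n => 0 * Real.log r ≤ 1 * (St r n - r) ∧
          1 * (St r n - r) ≤ b * Real.log r) ⊆
          (Finset.Icc 1 N).filter (fun n => a * Real.log r ≤ St r n - r ∧ St r n - r ≤ b * Real.log r) := by
        intro n hn
        rw [Finset.mem_filter] at hn ⊢
        obtain ⟨h1, h2, h3⟩ := hn
        refine ⟨h1, ?_, by linarith⟩
        have := mul_nonneg_of_nonpos_of_nonpos ha (neg_nonpos.2 g3)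
        linarith
      exact_mod_cast Finset.card_le_card this
    · have ha' : a < 0 := by rw [← hb'] at hab; exact hab
      have g1 := oneSide hRH 0 (-a) ε le_rfl (by linarith) hε (-1) (Or.inr rfl)
      filter_upwards [g1, logr_top.eventually_ge_atTop 0] with r g1 g3
      filter_upwards [g1] with N g1
      refine ⟨?_, triv r N g3 hm0⟩
      rw [hm0]
      have e0 : (0 : ℝ) ^ 2 = 0 := by norm_num
      rw [e0] at g1
      refine g1.trans ?_
      have : (Finset.Icc 1 N).filter (fun n => 0 * Real.log r ≤ -1 * (St r n - r) ∧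
          -1 * (St r n - r) ≤ -a * Real.log r) ⊆
          (Finset.Icc 1 N).filter (fun n => a * Real.log r ≤ St r n - r ∧ St r n - r ≤ b * Real.log r) := by
        intro n hn
        rw [Finset.mem_filter] at hn ⊢
        obtain ⟨h1, h2, h3⟩ := hn
        refine ⟨h1, by linarith, ?_⟩
        rw [← hb']
        linarith
      exact_mod_cast Finset.card_le_card this

end

end Pool.Agent.U403.Ldp
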