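import Pool.Agent.U403.Ldp.YYb
import Pool.Agent.U403.Max.Blk

/-! # Large deviations: from heights to zeros, the pointwise part -/

set_option autoImplicit false

open Filter Topology MeasureTheory Set
open Pool.Agent.Y743.CL (XK Pr mem_Pr)
open Pool.Agent.R320.JL (YY YY_meas SS_gL)
open Pool.Agent.Y743.NC (dev dev_nonneg dev_int ff)
open Pool.Agent.Y743.LR (yv)
open Pool.Agent.R320.CL (SS SS_ge)
open SP (RHs)
open SG (NZ ord)
open Pool.Agent.U403.Max

namespace Pool.Agent.U403.Ldp

noncomputable section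

lemma ff_eq {T : ℝ} (hL : 0 < Real.log T) (r n : ℕ) :
    ff T r n = (ord (n + r) - ord n) / (2 * Real.pi) * Real.log T - r := by
  unfold ff yv
  have := Real.pi_pos
  field_simp

lemma ord_ff {T : ℝ} (hL : 0 < Real.log T) (r n : ℕ) :
    ord (n + r) = ord n + (r + ff T r n) * (2 * Real.pi / Real.log T) := by
  rw [ff_eq hL]
  have := Real.pi_pos
  field_simp
  ring

/-- the sum of `r` consecutive gaps of the numbers `γ log γ / 2π` -/
def St (r n : ℕ) : ℝ :=
  1 / (2 * Real.pi) * ord (n + r) * Real.log (ord (n + r)) - 1 / (2 * Real.pi) * ord n * Real.log (ord n)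

lemma St_low {T : ℝ} {r n : ℕ} (hT : 100 ≤ T) (hn : 1 ≤ n) (h1 : T ≤ ord n) :
    (ord (n + r) - ord n) / (2 * Real.pi) * Real.log T ≤ St r n := by
  have hpi := Real.pi_pos
  have hmono : ord n ≤ ord (n + r) := SG.ord_mono hn (by omega)
  have h2 : Real.log T ≤ Real.log (ord n) := Real.log_le_log (by linarith) h1
  have h3 : Real.log (ord n) ≤ Real.log (ord (n + r)) := Real.log_le_log (by linarith) hmono
  have h4 : ord (n + r) * Real.log (ord n) ≤ ord (n + r) * Real.log (ord (n + r)) :=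
    mul_le_mul_of_nonneg_left h3 (by linarith)
  have h5 : (ord (n + r) - ord n) * Real.log T ≤ (ord (n + r) - ord n) * Real.log (ord n) :=
    mul_le_mul_of_nonneg_left h2 (by linarith)
  unfold St
  rw [div_mul_eq_mul_div, div_le_iff₀ (by positivity)]
  have e : (1 / (2 * Real.pi) * ord (n + r) * Real.log (ord (n + r)) -
      1 / (2 * Real.pi) * ord n * Real.log (ord n)) * (2 * Real.pi) =
      ord (n + r) * Real.log (ord (n + r)) - ord n * Real.log (ord n) := by field_simp
  rw [e]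
  linarith

lemma St_up {T : ℝ} {r n : ℕ} (hT : 100 ≤ T) (hn : 1 ≤ n) (h1 : T ≤ ord n) (h2 : ord n ≤ 2 * T)
    (hg : (ord (n + r) - ord n) / (2 * Real.pi) ≤ 1 / 16) :
    St r n ≤ (ord (n + r) - ord n) / (2 * Real.pi) * (Real.log T + 2) := by
  have hpi := Real.pi_pos
  have hpi4 := Real.pi_lt_d2
  have hmono : ord n ≤ ord (n + r) := SG.ord_mono hn (by omega)
  have ha : 0 < ord n := by linarith
  have hb : 0 < ord (n + r) := by linarith
  have h3 : ord n * (Real.log (ord (n + r)) - Real.log (ord n)) ≤ ord (n + r) - ord n := by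
    rw [← Real.log_div hb.ne' ha.ne']
    have h4 := Real.log_le_sub_one_of_pos (show 0 < ord (n + r) / ord n by positivity)
    have h5 := mul_le_mul_of_nonneg_left h4 ha.le
    have e : ord n * (ord (n + r) / ord n - 1) = ord (n + r) - ord n := by field_simp
    linarith
  have h6 : Real.log (ord (n + r)) ≤ Real.log T + 1 := by
    rw [div_le_iff₀ (by positivity)] at hg
    have h7 : ord (n + r) ≤ T * Real.exp 1 := by
      have := Real.exp_one_gt_d9
      nlinarith
    have h8 := Real.log_le_log hb h7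
    rwa [Real.log_mul (by linarith) (Real.exp_pos 1).ne', Real.log_exp] at h8
  have h7 : (ord (n + r) - ord n) * Real.log (ord (n + r)) ≤ (ord (n + r) - ord n) * (Real.log T + 1) :=
    mul_le_mul_of_nonneg_left h6 (by linarith)
  unfold St
  have e0 : (ord (n + r) - ord n) / (2 * Real.pi) * (Real.log T + 2) =
      (ord (n + r) - ord n) * (Real.log T + 2) / (2 * Real.pi) := by ring
  rw [e0, le_div_iff₀ (by positivity)]
  have e : (1 / (2 * Real.pi) * ord (n + r) * Real.log (ord (n + r)) -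
      1 / (2 * Real.pi) * ord n * Real.log (ord n)) * (2 * Real.pi) =
      ord (n + r) * Real.log (ord (n + r)) - ord n * Real.log (ord n) := by field_simp
  rw [e]
  linarith

/-- deviations of the sums give deviations of the scaled sums -/
lemma ss_ff {T Y : ℝ} {r n : ℕ} (hT : 100 ≤ T) (hn : 1 ≤ n) (h1 : T ≤ ord n) (h2 : ord n ≤ 2 * T)
    (hL : 16 * (r + Y) ≤ Real.log T) (h : Y ≤ |St r n - r|) : Y - 1 ≤ |ff T r n| := by
  have hL0 : 0 < Real.log T := Real.log_pos (by linarith)
  have hpi := Real.pi_pos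
  have h3 := ff_eq hL0 r n
  have h4 := St_low (r := r) hT hn h1
  rcases le_total ((ord (n + r) - ord n) / (2 * Real.pi)) (1 / 16) with hg | hg
  · have h5 := St_up hT hn h1 h2 hg
    have h6 : |St r n - r| ≤ |ff T r n| + 1 := by
      have h7 : |St r n - r - ff T r n| ≤ 1 := by
        rw [abs_le, h3]
        constructor <;> linarith
      have h8 := abs_add_le (St r n - r - ff T r n) (ff T r n)
      rw [sub_add_cancel] at h8
      linarith
    linarith
  · have h4 := mul_le_mul_of_nonneg_right hg hL0.le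
    refine le_trans ?_ (le_abs_self _)
    rw [h3]
    linarith

/-- long sums -/
lemma ff_ss_long {T Y : ℝ} {r n : ℕ} (hT : 100 ≤ T) (hn : 1 ≤ n) (h1 : T ≤ ord n) (_hY : 0 ≤ Y)
    (_hL : 16 * (r + Y + 2) ≤ Real.log T) (h : Y + 2 ≤ ff T r n) : Y ≤ St r n - r := by
  have hL0 : 0 < Real.log T := Real.log_pos (by linarith)
  have h3 := ff_eq hL0 r n
  have h4 := St_low (r := r) hT hn h1
  linarith

/-- short sums -/
lemma ff_ss_short {T Y : ℝ} {r n : ℕ} (hT : 100 ≤ T) (hn : 1 ≤ n) (h1 : T ≤ ord n) (h2 : ord n ≤ 2 * T) (hY : 0 ≤ Y)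
    (hL : 16 * (r + Y + 2) ≤ Real.log T) (h : ff T r n ≤ -(Y + 2)) : St r n - r ≤ -Y := by
  have hL0 : 0 < Real.log T := Real.log_pos (by linarith)
  have hr0 : (0 : ℝ) ≤ r := Nat.cast_nonneg _
  have h3 := ff_eq hL0 r n
  have hg : (ord (n + r) - ord n) / (2 * Real.pi) ≤ 1 / 16 := by
    have h4 : (ord (n + r) - ord n) / (2 * Real.pi) * Real.log T ≤ 1 / 16 * Real.log T := by linarith
    exact le_of_mul_le_mul_right h4 hL0
  have h5 := St_up hT hn h1 h2 hg
  linarith

/-- a deviation at a zero gives deviations of the counts at the heights before the zero -/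
lemma up_pt {T t y e : ℝ} {r n : ℕ} (hL : 0 < Real.log T) (hn : 1 ≤ n) (hy : 0 ≤ y) (hyr : y ≤ r)
    (ht1 : ord n - 2 * Real.pi / Real.log T ≤ t) (ht2 : t < ord n) (hff : y ≤ |ff T r n|)
    (he : YY T 1 t < e) (he0 : 0 ≤ e) :
    y - e - 2 ≤ |YY T (⌊(r : ℝ) + y⌋₊ : ℕ) t| ∨ y - e - 2 ≤ |YY T (⌈(r : ℝ) - y⌉₊ + 1 : ℕ) t| := by
  have hpi := Real.pi_pos
  obtain ⟨w, hw⟩ : ∃ w : ℝ, w = 2 * Real.pi / Real.log T := ⟨_, rfl⟩
  have hw0 : 0 < w := by rw [hw]; positivity
  have hord := ord_ff hL r n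
  rw [← hw] at ht1 hord
  have hfrac : ∀ x : ℝ, 2 * Real.pi * x / Real.log T = x * w := fun x => by rw [hw]; ring
  have a1 : NZ t < n := by
    by_contra hcon
    push Not at hcon
    have := (SG.ord_le_iff hn _).mpr hcon
    linarith
  have a1' : (NZ t : ℝ) + 1 ≤ n := by exact_mod_cast a1
  have a2 : (n : ℝ) ≤ NZ t + 1 + e := by
    have h3 : n ≤ NZ (t + w) := (SG.ord_le_iff hn _).mp (by linarith)
    have h4 : (n : ℝ) ≤ NZ (t + w) := by exact_mod_cast h3
    unfold YY at he
    rw [hfrac, one_mul] at he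
    linarith
  rcases le_abs'.1 hff with h | h
  · right
    obtain ⟨d, hd⟩ : ∃ d : ℕ, d = ⌈(r : ℝ) - y⌉₊ + 1 := ⟨_, rfl⟩
    rw [← hd]
    have hc1 : (r : ℝ) - y + 1 ≤ d := by rw [hd]; push_cast; linarith [Nat.le_ceil ((r : ℝ) - y)]
    have hc2 : (d : ℝ) < r - y + 2 := by
      rw [hd]; push_cast; linarith [Nat.ceil_lt_add_one (show 0 ≤ (r : ℝ) - y by linarith)]
    have h5 : n + r ≤ NZ (t + 2 * Real.pi * d / Real.log T) := by
      refine (SG.ord_le_iff (by omega : 1 ≤ n + r) _).mp ?_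
      rw [hfrac, hord]
      have h6 := mul_le_mul_of_nonneg_right hc1 hw0.le
      have h7 : (r + ff T r n) * w ≤ (r - y) * w := mul_le_mul_of_nonneg_right (by linarith) hw0.le
      have h8 : ((r : ℝ) - y + 1) * w = (r - y) * w + w := by ring
      linarith
    have h6 : (n : ℝ) + r ≤ NZ (t + 2 * Real.pi * d / Real.log T) := by exact_mod_cast h5
    refine le_trans ?_ (le_abs_self _)
    unfold YY
    linarith
  · left
    obtain ⟨d, hd⟩ : ∃ d : ℕ, d = ⌊(r : ℝ) + y⌋₊ := ⟨_, rfl⟩
    rw [← hd]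
    have hc1 : (d : ℝ) ≤ r + y := by rw [hd]; exact Nat.floor_le (by positivity)
    have hc2 : (r : ℝ) + y < d + 1 := by rw [hd]; exact Nat.lt_floor_add_one _
    have h5 : NZ (t + 2 * Real.pi * d / Real.log T) < n + r := by
      by_contra hc
      push Not at hc
      have h6 := (SG.ord_le_iff (by omega : 1 ≤ n + r) _).mpr hc
      rw [hfrac, hord] at h6
      have h7 := mul_le_mul_of_nonneg_right hc1 hw0.le
      have h8 : (r + y) * w ≤ (r + ff T r n) * w := mul_le_mul_of_nonneg_right (by linarith) hw0.le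
      linarith
    have h6 : (NZ (t + 2 * Real.pi * d / Real.log T) : ℝ) + 1 ≤ n + r := by exact_mod_cast h5
    refine le_trans ?_ (neg_le_abs _)
    unfold YY
    linarith

/-- the first zero after a height -/
lemma lo_pt {T t : ℝ} {r d w : ℕ} (hL : 0 < Real.log T) (hw : -(w : ℝ) < YY T w t) :
    t < ord (NZ t + 1) ∧ ord (NZ t + 1) ≤ t + w * (2 * Real.pi / Real.log T) ∧
    ((NZ (t + 2 * Real.pi * d / Real.log T) : ℝ) ≤ NZ t + r → (d : ℝ) - w - r < ff T r (NZ t + 1)) ∧
    ((NZ t : ℝ) + r + 1 ≤ NZ (t + 2 * Real.pi * d / Real.log T) → ff T r (NZ t + 1) < d - r) := by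
  have hpi := Real.pi_pos
  obtain ⟨u, hu⟩ : ∃ u : ℝ, u = 2 * Real.pi / Real.log T := ⟨_, rfl⟩
  have hu0 : 0 < u := by rw [hu]; positivity
  obtain ⟨n, hn⟩ : ∃ n : ℕ, n = NZ t + 1 := ⟨_, rfl⟩
  have hord := ord_ff hL r n
  have hfrac : ∀ x : ℝ, 2 * Real.pi * x / Real.log T = x * u := fun x => by rw [hu]; ring
  rw [← hn, ← hu]
  rw [← hu] at hord
  have hn1 : 1 ≤ n := by omega
  have hnr : (n : ℝ) = NZ t + 1 := by rw [hn]; push_cast; ring
  have b1 : t < ord n := by
    by_contra hc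
    push Not at hc
    have := (SG.ord_le_iff hn1 _).mp hc
    omega
  have b2 : ord n ≤ t + w * u := by
    refine (SG.ord_le_iff hn1 _).mpr ?_
    unfold YY at hw
    rw [hfrac] at hw
    have h1 : (NZ t : ℝ) < NZ (t + w * u) := by linarith
    have h2 : NZ t < NZ (t + w * u) := by exact_mod_cast h1
    omega
  refine ⟨b1, b2, fun h => ?_, fun h => ?_⟩
  · rw [hfrac] at h
    have h1 : t + d * u < ord (n + r) := by
      by_contra hc
      push Not at hc
      have h2 := (SG.ord_le_iff (by omega : 1 ≤ n + r) _).mp hc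
      have h3 : (n : ℝ) + r ≤ NZ (t + d * u) := by exact_mod_cast h2
      linarith
    rw [hord] at h1
    have h2 : (d - w : ℝ) * u < (r + ff T r n) * u := by linarith
    have h3 := lt_of_mul_lt_mul_right h2 hu0.le
    linarith
  · rw [hfrac] at h
    have h1 : ord (n + r) ≤ t + d * u := by
      refine (SG.ord_le_iff (by omega : 1 ≤ n + r) _).mpr ?_
      have : ((n + r : ℕ) : ℝ) ≤ NZ (t + d * u) := by push_cast; linarith
      exact_mod_cast this
    rw [hord] at h1
    have h2 : (r + ff T r n) * u < d * u := by linarith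
    have h3 := lt_of_mul_lt_mul_right h2 hu0.le
    linarith

end

end Pool.Agent.U403.Ldp
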