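import Pool.Agent.U403.Ldp.Er
import Pool.Agent.R320.JL.Leb

/-! # Large deviations: comparison of the count with the main field -/

set_option autoImplicit false

open Filter Topology MeasureTheory Set
open Pool.Agent.Y743.CL
open Pool.Agent.R320.JL
open SP (RHs)
open SG (NZ)
open Pool.Agent.U403.Max

namespace Pool.Agent.U403.Ldp

noncomputable section

lemma fld_split2 {T κ q u l : ℝ} (hT : 1 ≤ T) (hκq : 0 < κ * q) (h1 : Real.log (κ * q) ≤ Real.log (4 * q))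
    (h2 : Real.log (4 * q) ≤ u) (s : ℝ) :
    fld l (Pr (XK (1 / (κ * q)) T)) s = fld l (Pr (XK (Real.exp (-u)) T)) s +
      fld l (PI T u (Real.log (4 * q))) s + fld l (PI T (Real.log (4 * q)) (Real.log (κ * q))) s := by
  have e1 : Real.exp (-Real.log (κ * q)) = 1 / (κ * q) := by
    rw [Real.exp_neg, Real.exp_log hκq, one_div]
  have e2 : Pr (XK (1 / (κ * q)) T) = Pr (XK (Real.exp (-u)) T) ∪ PI T u (Real.log (κ * q)) := by
    ext p
    rw [Finset.mem_union, mem_Pr, mem_Pr]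
    unfold PI
    rw [Finset.mem_filter, Finset.mem_Ioc, e1]
    have h3 : XK (Real.exp (-u)) T ≤ XK (1 / (κ * q)) T := by
      apply XK_mono hT
      rw [← e1]
      exact Real.exp_le_exp.2 (by linarith)
    constructor
    · rintro ⟨k1, k2⟩
      by_cases h : p ≤ XK (Real.exp (-u)) T
      · exact Or.inl ⟨k1, h⟩
      · exact Or.inr ⟨⟨by omega, k2⟩, k1⟩
    · rintro (⟨k1, k2⟩ | ⟨⟨k1, k2⟩, k3⟩)
      · exact ⟨k1, k2.trans h3⟩
      · exact ⟨k3, k2⟩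
  have d1 : Disjoint (Pr (XK (Real.exp (-u)) T)) (PI T u (Real.log (κ * q))) := by
    rw [Finset.disjoint_left]
    intro p hp hp2
    rw [mem_Pr] at hp
    unfold PI at hp2
    rw [Finset.mem_filter, Finset.mem_Ioc] at hp2
    omega
  rw [e2, fld_union d1, PI_union hT h2 h1, fld_union (PI_disj hT le_rfl)]
  ring

/-- the tail of a Dirichlet polynomial, with a rate -/
lemma tailZ {z : ℕ → ℂ} {κX T V v A c q ρ : ℝ} {k : ℕ} (hκX : 0 < κX) (hT : 1 ≤ T)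
    (hXk : κX * (2 * k) ≤ 1 / 2) (hV : VS (nz z) (XK κX T) ≤ V) (hV0 : 0 ≤ V) (hv : 0 < v)
    (hkV : k * V ≤ ρ * v ^ 2) (hA : 0 ≤ A) (hc : 0 < c) (hk : c * q - 1 ≤ k) (hρ0 : 0 ≤ ρ)
    (hρ : ρ ≤ Real.exp (-((A + 4) / c))) (hq : (A + 4) / c + 3 ≤ 4 * q) :
    (PT T).real {t | v ≤ ‖PP z (XK κX T) t‖} ≤ Real.exp (-(A * q)) := by
  have hX1 : 1 ≤ XK κX T := by
    unfold XK
    apply Nat.le_floor
    rw [Nat.cast_one]
    exact Real.one_le_rpow hT hκX.le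
  have hXT : ((XK κX T ^ (k + k) : ℕ) : ℝ) ≤ Real.sqrt T := by
    apply XK_pow hT
    push_cast
    linarith
  refine (pp_tail z _ hX1 T V v hT k hXT hV hv).trans ?_
  refine le_trans ?_ (rho_pow hA hc hk hρ0 hρ hq)
  exact mul_le_mul_of_nonneg_left (fact_ratio hV0 hv hkV) (by norm_num)

/-- the tail of a field, with a rate -/
lemma tailF {l : ℝ} {I : Finset ℕ} {κX T V v A c q ρ h : ℝ} {k : ℕ} (hκX : 0 < κX) (hT : 1 ≤ T)
    (hI : I ⊆ Pr (XK κX T)) (hXk : κX * (2 * k) ≤ 1 / 2) (hV : ∑ p ∈ I, be l p ^ 2 ≤ V) (hV0 : 0 ≤ V) (hv : 0 < v)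
    (hkV : k * V ≤ ρ * v ^ 2) (hA : 0 ≤ A) (hc : 0 < c) (hk : c * q - 1 ≤ k) (hρ0 : 0 ≤ ρ)
    (hρ : ρ ≤ Real.exp (-((A + 4) / c))) (hq : (A + 4) / c + 3 ≤ 4 * q) :
    (PT T).real {t | v ≤ |fld l I (t + h)|} ≤ Real.exp (-(A * q)) := by
  have hX1 : 1 ≤ XK κX T := by
    unfold XK
    apply Nat.le_floor
    rw [Nat.cast_one]
    exact Real.one_le_rpow hT hκX.le
  have hXT : ((XK κX T ^ (k + k) : ℕ) : ℝ) ≤ Real.sqrt T := by
    apply XK_pow hT
    push_cast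
    linarith
  refine (fld_tail l hI hX1 T h V v hT k hXT hV hv).trans ?_
  refine le_trans (le_of_eq ?_) (le_trans (mul_le_mul_of_nonneg_left (fact_ratio hV0 hv hkV) (by norm_num : (0 : ℝ) ≤ 17))
    (rho_pow hA hc hk hρ0 hρ hq))
  ring

/-- numerical conditions -/
lemma numC (A ε κ C1 : ℝ) (hA : 0 ≤ A) (hε : 0 < ε) (hκ : 0 < κ) (hC1 : 0 ≤ C1) (K : ℕ) (hK : 3 ≤ K)
    (hKA : 1 / (K : ℝ) ≤ ε ^ 2 * Real.exp (-(A + 4))) :
    ∀ᶠ q : ℝ in atTop, 4 ≤ q ∧ A + 8 ≤ q ∧ (A + 4) / (κ / 4) + 3 ≤ 4 * q ∧ Real.log (4 * q) ≤ q / K ∧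
      Real.log (4 * q) ≤ 2 * Real.log q ∧
      (q * ((q / K + C1) / Real.pi ^ 2) ≤ Real.exp (-((A + 4) / 1)) * (ε * q) ^ 2) ∧
      (κ * q / 4 * ((Real.log (4 / κ) + C1) / Real.pi ^ 2) ≤ Real.exp (-((A + 4) / (κ / 4))) * (ε * q) ^ 2) ∧
      (q * 32 ≤ Real.exp (-((A + 4) / 1)) * (ε * q) ^ 2) ∧
      (q * ((2 * Real.log q + C1) / Real.pi ^ 2) ≤ Real.exp (-((A + 4) / 1)) * (ε * q) ^ 2) := by
  have hpi3 := Real.pi_gt_three
  have hpi9 : 9 ≤ Real.pi ^ 2 := by nlinarith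
  have hK0 : (0 : ℝ) < K := by exact_mod_cast (by omega : 0 < K)
  obtain ⟨ρ, hρ⟩ : ∃ ρ : ℝ, ρ = Real.exp (-(A + 4)) := ⟨_, rfl⟩
  have hρ0 : 0 < ρ := by rw [hρ]; exact Real.exp_pos _
  obtain ⟨ρ', hρ'⟩ : ∃ ρ' : ℝ, ρ' = Real.exp (-((A + 4) / (κ / 4))) := ⟨_, rfl⟩
  have hρ'0 : 0 < ρ' := by rw [hρ']; exact Real.exp_pos _
  have e1 : Real.exp (-((A + 4) / 1)) = ρ := by rw [div_one, hρ]
  rw [e1, ← hρ']
  rw [← hρ] at hKA
  have g0 : Tendsto (fun q : ℝ => Real.log q / q) atTop (𝓝 0) := by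
    simpa using (Real.isLittleO_log_id_atTop.tendsto_div_nhds_zero)
  have g1 : ∀ᶠ q : ℝ in atTop, Real.log q / q < min (1 / (2 * (K : ℝ))) (ρ * ε ^ 2 / 4) :=
    g0.eventually (gt_mem_nhds (lt_min (by positivity) (by positivity)))
  filter_upwards [g1, eventually_ge_atTop 4, eventually_ge_atTop (A + 8),
    eventually_ge_atTop (((A + 4) / (κ / 4) + 3) / 4), eventually_ge_atTop (2 * K * Real.log 4),
    eventually_ge_atTop (C1 / (ε ^ 2 * ρ)),
    eventually_ge_atTop (κ / 4 * ((Real.log (4 / κ) + C1) / Real.pi ^ 2) / (ρ' * ε ^ 2)),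
    eventually_ge_atTop (32 / (ρ * ε ^ 2))] with q h1 h2 h3 h4 h5 h6 h7 h8
  have hq0 : 0 < q := by linarith
  have hl1 : Real.log q ≤ q / (2 * K) := by
    have := h1.le.trans (min_le_left _ _)
    rw [div_le_iff₀ hq0] at this
    linarith [show 1 / (2 * (K : ℝ)) * q = q / (2 * K) by ring]
  have hl2 : Real.log q ≤ ρ * ε ^ 2 / 4 * q := by
    have := h1.le.trans (min_le_right _ _)
    rwa [div_le_iff₀ hq0] at this
  have hlog4 : Real.log (4 * q) = Real.log 4 + Real.log q := Real.log_mul (by norm_num) hq0.ne'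
  refine ⟨h2, h3, by linarith, ?_, ?_, ?_, ?_, ?_, ?_⟩
  · rw [hlog4]
    have h9 : Real.log 4 ≤ q / (2 * K) := by
      rw [le_div_iff₀ (by positivity)]
      linarith
    have h10 : q / K = q / (2 * K) + q / (2 * K) := by field_simp; norm_num
    linarith
  · rw [hlog4]
    have : Real.log 4 ≤ Real.log q := Real.log_le_log (by norm_num) h2
    linarith
  · rw [div_le_iff₀ (by positivity)] at h6
    have h9 : q / K ≤ ε ^ 2 * ρ * q := by
      have := mul_le_mul_of_nonneg_right hKA hq0.le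
      calc q / K = 1 / (K : ℝ) * q := by ring
        _ ≤ _ := this
    have h10 : (q / K + C1) / Real.pi ^ 2 ≤ ρ * ε ^ 2 * q := by
      rw [div_le_iff₀ (by positivity)]
      have h11 : 0 < ρ * ε ^ 2 * q := by positivity
      nlinarith
    calc q * ((q / K + C1) / Real.pi ^ 2) ≤ q * (ρ * ε ^ 2 * q) := by gcongr
      _ = _ := by ring
  · rw [div_le_iff₀ (by positivity)] at h7
    have := mul_le_mul_of_nonneg_left h7 hq0.le
    calc κ * q / 4 * ((Real.log (4 / κ) + C1) / Real.pi ^ 2) = q * (κ / 4 * ((Real.log (4 / κ) + C1) / Real.pi ^ 2)) := by ring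
      _ ≤ q * (q * (ρ' * ε ^ 2)) := this
      _ = _ := by ring
  · rw [div_le_iff₀ (by positivity)] at h8
    have := mul_le_mul_of_nonneg_left h8 hq0.le
    calc q * 32 ≤ q * (q * (ρ * ε ^ 2)) := this
      _ = _ := by ring
  · rw [div_le_iff₀ (by positivity)] at h6
    have h10 : (2 * Real.log q + C1) / Real.pi ^ 2 ≤ ρ * ε ^ 2 * q := by
      rw [div_le_iff₀ (by positivity)]
      have h11 : 0 < ρ * ε ^ 2 * q := by positivity
      nlinarith
    calc q * ((2 * Real.log q + C1) / Real.pi ^ 2) ≤ q * (ρ * ε ^ 2 * q) := by gcongr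
      _ = _ := by ring

end

end Pool.Agent.U403.Ldp
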