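import Pool.Agent.U403.Max.Up

/-! # Large deviations: variances of differences -/

set_option autoImplicit false

open Filter Topology MeasureTheory Set
open Pool.Agent.Y743.CL
open Pool.Agent.R320.JL
open Pool.Agent.TH850.UV (ggo ggo_le ggo_low ggo_nonneg)
open Pool.Agent.U403.Max

namespace Pool.Agent.U403.Ldp

noncomputable section

/-- **the parameters of a level** -/
theorem par2 : ∃ C1 : ℝ, 0 ≤ C1 ∧ ∀ (κ q u v B0 η : ℝ) (r : ℕ), 0 < κ → 0 < q → 0 ≤ v → v < u →
    κ * q * Real.exp (-v) ≤ 1 / 100 → 0 < B0 → 0 < η → ∀ᶠ T : ℝ in atTop,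
    (∑ p ∈ PI T u v, be (Real.log T / (κ * q)) p ^ 2 ≤ (u - v + C1) / Real.pi ^ 2) ∧
    ((1 - 64 * (κ * q * Real.exp (-v))) * ((u - v - C1) / (2 * Real.pi ^ 2)) ≤
      vI (Real.log T / (κ * q)) (PI T u v)) ∧
    (∀ p ∈ PI T u v, be (Real.log T / (κ * q)) p ^ 2 ≤ B0) ∧
    (∀ d : ℕ, 1 ≤ d → d ≤ r → |cI (Real.log T / (κ * q)) (PI T u v) (2 * Real.pi * d / Real.log T)| ≤
      Real.exp u / d + η + 4 * (κ * q * Real.exp (-v)) * (u - v + C1)) := by
  obtain ⟨C, hC, hsum⟩ := sum_inv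
  refine ⟨C, hC, fun κ q u v B0 η r hκ hq hv huv hκq hB0 hη => ?_⟩
  have hpi := Real.pi_gt_three
  have hpi2 := Real.pi_lt_d2
  obtain ⟨c, hc⟩ : ∃ c : ℝ, c = κ * q := ⟨_, rfl⟩
  have hc0 : 0 < c := by rw [hc]; positivity
  have heu : 0 < Real.exp (-u) := Real.exp_pos _
  have hev : 0 < Real.exp (-v) := Real.exp_pos _
  have hXt : Tendsto (fun T : ℝ => XK (Real.exp (-u)) T) atTop atTop := by
    unfold XK
    exact tendsto_nat_floor_atTop.comp (tendsto_rpow_atTop heu)
  have hppt := ppt_tendsto.comp hXt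
  have hppt2 : ∀ᶠ T : ℝ in atTop, ppt (XK (Real.exp (-u)) T) < η / 2 :=
    hppt.eventually (gt_mem_nhds (by positivity))
  have hXB : ∀ᶠ T : ℝ in atTop, ⌈1 / B0⌉₊ ≤ XK (Real.exp (-u)) T := hXt.eventually_ge_atTop _
  have hXB2 : ∀ᶠ T : ℝ in atTop, ⌈4 / (c * Real.exp (-v))⌉₊ ≤ XK (Real.exp (-u)) T := hXt.eventually_ge_atTop _
  rw [← hc] at hκq ⊢
  filter_upwards [hsum u v huv.le, XK_log heu, XK_log hev, hppt2, hXB, hXB2, eventually_ge_atTop 3,
    Real.tendsto_log_atTop.eventually_ge_atTop (4 * Real.exp u), Real.tendsto_log_atTop.eventually_ge_atTop c,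
    Real.tendsto_log_atTop.eventually_ge_atTop (2 * Real.pi * r),
    Real.tendsto_log_atTop.eventually_ge_atTop (4 * Real.exp v),
    Real.tendsto_log_atTop.eventually_ge_atTop (2 / η * (32 * Real.exp u + 48 * Real.pi * r * Real.exp u))]
    with T hs hXu hXv hpp hXB hXB2 hT3 hL1 hL2 hL3 hL5 hL4
  obtain ⟨L, hL⟩ : ∃ L : ℝ, L = Real.log T := ⟨_, rfl⟩
  rw [← hL] at hXu hXv hL1 hL2 hL3 hL4 hL5 ⊢
  have hL0 : 0 < L := by linarith [Real.exp_pos u]
  obtain ⟨l, hl⟩ : ∃ l : ℝ, l = L / c := ⟨_, rfl⟩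
  rw [← hl]
  have hl1 : 1 ≤ l := by rw [hl, le_div_iff₀ hc0]; linarith
  have hl0 : 0 < l := by linarith
  have hu1 : Real.exp u * Real.exp (-u) = 1 := by rw [← Real.exp_add]; simp
  have hv1 : Real.exp v * Real.exp (-v) = 1 := by rw [← Real.exp_add]; simp
  have hl2 := Real.log_two_lt_d9
  have hl20 := Real.log_two_gt_d9
  -- the primes of the level
  have hPI : ∀ p ∈ PI T u v, p.Prime ∧ XK (Real.exp (-u)) T < p ∧ Real.log p ≤ Real.exp (-v) * L := by
    intro p hp
    unfold PI at hp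
    rw [Finset.mem_filter, Finset.mem_Ioc] at hp
    refine ⟨hp.2, hp.1.1, ?_⟩
    refine le_trans (Real.log_le_log (by exact_mod_cast hp.2.pos) ?_) hXv.2.1
    exact_mod_cast hp.1.2
  obtain ⟨S, hS⟩ : ∃ S : ℝ, S = ∑ p ∈ PI T u v, (1 : ℝ) / p := ⟨_, rfl⟩
  rw [← hS] at hs
  have hs' := abs_le.1 hs
  have hS0 : 0 ≤ S := by rw [hS]; positivity
  have hϑ : ∀ p ∈ PI T u v, (1 + Real.log p) / l + 1 / p ≤ 2 * (c * Real.exp (-v)) := by
    intro p hp
    obtain ⟨h1, h2, h3⟩ := hPI p hp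
    have h4 : (1 + Real.log p) / l ≤ c * Real.exp (-v) + c * Real.exp (-v) / 4 := by
      rw [hl, div_div_eq_mul_div, div_le_iff₀ hL0]
      have h5 : 1 ≤ Real.exp (-v) * L / 4 := by
        have := mul_le_mul_of_nonneg_right hL5 hev.le
        nlinarith
      nlinarith
    have hp0 : (0 : ℝ) < p := by exact_mod_cast h1.pos
    have h6 : 1 / (p : ℝ) ≤ c * Real.exp (-v) / 4 := by
      rw [div_le_iff₀ hp0]
      have h7 : (4 : ℝ) / (c * Real.exp (-v)) ≤ p := by
        refine (Nat.le_ceil _).trans ?_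
        exact_mod_cast hXB2.trans h2.le
      rw [div_le_iff₀ (by positivity)] at h7
      linarith
    have : 0 < c * Real.exp (-v) := by positivity
    linarith
  have hlow : ∀ p ∈ PI T u v, (1 - 64 * (c * Real.exp (-v))) * (1 / (Real.pi ^ 2 * p)) ≤ be l p ^ 2 ∧
      be l p ^ 2 ≤ 1 / (Real.pi ^ 2 * p) := by
    intro p hp
    obtain ⟨h1, h2, h3⟩ := hPI p hp
    have hp0 : (0 : ℝ) < p := by exact_mod_cast h1.pos
    obtain ⟨w, w0, w1, w2, w3⟩ := be_prime hl0 h1
    have h4 : Real.log p ≤ l / 2 := by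
      refine h3.trans ?_
      rw [hl, div_div, le_div_iff₀ (by positivity)]
      nlinarith
    have h5 := w3 _ hl1 h4 (hϑ p hp)
    have h6 : 0 ≤ 1 / (Real.pi ^ 2 * p) := by positivity
    rw [w2]
    constructor
    · apply mul_le_mul_of_nonneg_right _ h6
      nlinarith
    · have : w ^ 2 ≤ 1 := pow_le_one₀ w0 w1
      nlinarith
  have e1 : ∀ p : ℕ, (1 : ℝ) / (Real.pi ^ 2 * p) = 1 / Real.pi ^ 2 * (1 / p) := fun p => by
    rw [one_div_mul_one_div]
  have hsumb : ∑ p ∈ PI T u v, be l p ^ 2 ≤ S / Real.pi ^ 2 := by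
    refine (Finset.sum_le_sum fun p hp => (hlow p hp).2).trans (le_of_eq ?_)
    simp only [e1]
    rw [← Finset.mul_sum, ← hS]
    ring
  refine ⟨?_, ?_, ?_, ?_⟩
  · refine hsumb.trans ?_
    apply div_le_div_of_nonneg_right _ (by positivity)
    linarith [hs'.2]
  · unfold vI
    have h1 : (1 - 64 * (c * Real.exp (-v))) * (S / Real.pi ^ 2) ≤ ∑ p ∈ PI T u v, be l p ^ 2 := by
      refine le_trans (le_of_eq ?_) (Finset.sum_le_sum fun p hp => (hlow p hp).1)
      simp only [e1]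
      rw [← Finset.mul_sum, ← Finset.mul_sum, ← hS]
      ring
    have h2 : (1 - 64 * (c * Real.exp (-v))) * ((u - v - C) / (2 * Real.pi ^ 2)) ≤
        (1 - 64 * (c * Real.exp (-v))) * (S / Real.pi ^ 2) / 2 := by
      rw [mul_div_assoc, div_div, mul_comm (Real.pi ^ 2) 2]
      apply mul_le_mul_of_nonneg_left _ (by linarith)
      apply div_le_div_of_nonneg_right _ (by positivity)
      linarith [hs'.1]
    linarith
  · intro p hp
    obtain ⟨h1, h2, h3⟩ := hPI p hp
    have hp0 : (0 : ℝ) < p := by exact_mod_cast h1.pos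
    refine (hlow p hp).2.trans ?_
    have h7 : (1 : ℝ) / B0 ≤ p := by
      refine (Nat.le_ceil _).trans ?_
      exact_mod_cast hXB.trans h2.le
    rw [div_le_iff₀ hB0] at h7
    rw [div_le_iff₀ (by positivity)]
    have : 1 ≤ Real.pi ^ 2 := by nlinarith
    nlinarith [mul_pos hB0 hp0]
  · intro d hd hdr
    have hd0 : (0 : ℝ) < d := by exact_mod_cast hd
    have hd1 : (1 : ℝ) ≤ d := by exact_mod_cast hd
    have hdr' : (d : ℝ) ≤ r := by exact_mod_cast hdr
    obtain ⟨x, hx⟩ : ∃ x : ℝ, x = 2 * Real.pi * d / L := ⟨_, rfl⟩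
    rw [← hx]
    have hx0 : 0 < x := by rw [hx]; positivity
    have hx1 : x ≤ 1 := by
      rw [hx, div_le_one hL0]
      refine le_trans ?_ hL3
      gcongr
    have hXuv : XK (Real.exp (-u)) T ≤ XK (Real.exp (-v)) T :=
      XK_mono (by linarith) (Real.exp_le_exp.2 (by linarith))
    have h1 := prime_cos hx0 hx1 (by omega : 2 ≤ XK (Real.exp (-u)) T) hXuv
    have hlu : Real.exp (-u) * L / 2 ≤ Real.log (XK (Real.exp (-u)) T) := by
      have h5 : 4 ≤ Real.exp (-u) * L := by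
        have := mul_le_mul_of_nonneg_right hL1 heu.le
        nlinarith
      linarith [hXu.1]
    have hlu0 : 0 < Real.exp (-u) * L / 2 := by positivity
    have hlv : Real.log (XK (Real.exp (-v)) T) ≤ L := by
      refine hXv.2.1.trans ?_
      have : Real.exp (-v) ≤ 1 := Real.exp_le_one_iff.2 (by linarith)
      nlinarith
    have h2 : 2 * (8 + 6 * x * Real.log (XK (Real.exp (-v)) T) + 1 / x) / Real.log (XK (Real.exp (-u)) T) ≤
        η / 2 + 2 * Real.exp u / d := by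
      have h3 : 2 * (8 + 6 * x * Real.log (XK (Real.exp (-v)) T) + 1 / x) / Real.log (XK (Real.exp (-u)) T) ≤
          2 * (8 + 6 * x * L + 1 / x) / (Real.exp (-u) * L / 2) := by
        apply div_le_div₀ (by positivity) _ hlu0 hlu
        gcongr
      refine h3.trans ?_
      have h4 : 2 * (8 + 6 * x * L + 1 / x) / (Real.exp (-u) * L / 2) =
          (32 * Real.exp u + 48 * Real.pi * d * Real.exp u) / L + 2 * Real.exp u / (Real.pi * d) := by
        rw [hx]
        have : Real.exp (-u) = 1 / Real.exp u := by rw [Real.exp_neg, one_div]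
        rw [this]
        field_simp
        ring
      rw [h4]
      apply add_le_add
      · rw [div_le_iff₀ hL0]
        have h6 : 32 * Real.exp u + 48 * Real.pi * d * Real.exp u ≤ 32 * Real.exp u + 48 * Real.pi * r * Real.exp u := by
          gcongr
        have h7 : η / 2 * (2 / η * (32 * Real.exp u + 48 * Real.pi * r * Real.exp u)) ≤ η / 2 * L :=
          mul_le_mul_of_nonneg_left hL4 (by positivity)
        have h8 : η / 2 * (2 / η * (32 * Real.exp u + 48 * Real.pi * r * Real.exp u)) =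
          32 * Real.exp u + 48 * Real.pi * r * Real.exp u := by field_simp
        linarith
      · apply div_le_div_of_nonneg_left (by positivity) hd0
        nlinarith
    unfold cI
    obtain ⟨Cs, hCs⟩ : ∃ Cs : ℝ, Cs = ∑ p ∈ PI T u v, Real.cos (x * Real.log p) / p := ⟨_, rfl⟩
    have h3 : |Cs| ≤ η + 2 * Real.exp u / d := by
      rw [hCs]
      unfold PI
      refine h1.trans ?_
      linarith
    have h4 : |∑ p ∈ PI T u v, be l p ^ 2 * Real.cos (x * Real.log p) - 1 / Real.pi ^ 2 * Cs| ≤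
        64 * (c * Real.exp (-v)) * (S / Real.pi ^ 2) := by
      rw [hCs, hS, Finset.mul_sum, Finset.sum_div, Finset.mul_sum, ← Finset.sum_sub_distrib]
      refine (Finset.abs_sum_le_sum_abs _ _).trans (Finset.sum_le_sum fun p hp => ?_)
      obtain ⟨b1, b2⟩ := hlow p hp
      have hp0 : (0 : ℝ) < p := by exact_mod_cast (hPI p hp).1.pos
      have hcos := abs_le.1 (Real.abs_cos_le_one (x * Real.log p))
      have h5 : 1 / Real.pi ^ 2 * (Real.cos (x * Real.log p) / p) =
          1 / (Real.pi ^ 2 * p) * Real.cos (x * Real.log p) := by field_simp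
      have h6 : 64 * (c * Real.exp (-v)) * (1 / (p : ℝ) / Real.pi ^ 2) = 64 * (c * Real.exp (-v)) * (1 / (Real.pi ^ 2 * p)) := by
        field_simp
      rw [h5, h6, ← sub_mul, abs_mul]
      have h8 : |be l p ^ 2 - 1 / (Real.pi ^ 2 * p)| ≤ 64 * (c * Real.exp (-v)) * (1 / (Real.pi ^ 2 * p)) := by
        rw [abs_le]
        constructor <;> [linarith; (have : 0 < 64 * (c * Real.exp (-v)) * (1 / (Real.pi ^ 2 * p)) := by positivity
                                    linarith)]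
      calc |be l p ^ 2 - 1 / (Real.pi ^ 2 * p)| * |Real.cos (x * Real.log p)| ≤
          |be l p ^ 2 - 1 / (Real.pi ^ 2 * p)| * 1 :=
            mul_le_mul_of_nonneg_left (Real.abs_cos_le_one _) (abs_nonneg _)
        _ ≤ _ := by rw [mul_one]; exact h8
    have hpi9 : 9 ≤ Real.pi ^ 2 := by nlinarith
    have h5 : |1 / Real.pi ^ 2 * Cs| ≤ (η + 2 * Real.exp u / d) / 9 := by
      have h7 : 0 ≤ η + 2 * Real.exp u / d := by positivity
      rw [one_div_mul_eq_div, abs_div, abs_of_pos (by positivity : (0 : ℝ) < Real.pi ^ 2)]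
      calc |Cs| / Real.pi ^ 2 ≤ (η + 2 * Real.exp u / d) / Real.pi ^ 2 := div_le_div_of_nonneg_right h3 (by positivity)
        _ ≤ _ := div_le_div_of_nonneg_left h7 (by norm_num) hpi9
    have h6 : 64 * (c * Real.exp (-v)) * (S / Real.pi ^ 2) ≤ 8 * (c * Real.exp (-v)) * (u - v + C) := by
      have h7 : S ≤ u - v + C := by linarith [hs'.2]
      have h8 : S / Real.pi ^ 2 ≤ (u - v + C) / 9 := by
        calc S / Real.pi ^ 2 ≤ S / 9 := div_le_div_of_nonneg_left hS0 (by norm_num) hpi9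
          _ ≤ _ := div_le_div_of_nonneg_right h7 (by norm_num)
      have h9 : 0 < c * Real.exp (-v) := by positivity
      nlinarith
    have h7 : 2 * Real.exp u / d = 2 * (Real.exp u / d) := by ring
    rw [h7] at h5
    have h8 : 0 < Real.exp u / d := by positivity
    rw [abs_div, abs_two, div_le_iff₀ (by norm_num : (0 : ℝ) < 2)]
    have h9 := abs_sub_abs_le_abs_sub (∑ p ∈ PI T u v, be l p ^ 2 * Real.cos (x * Real.log p)) (1 / Real.pi ^ 2 * Cs)
    linarith

/-- the coefficients of a difference of a field at two heights; the real part of the sum is the difference -/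
def zd (l : ℝ) (I : Finset ℕ) (h : ℝ) (p : ℕ) : ℂ :=
  if p ∈ I then -Complex.I * ((be l p : ℂ) * ((p : ℂ) ^ (-(h : ℂ) * Complex.I) - 1)) else 0

lemma zd_re (l : ℝ) {I : Finset ℕ} {X : ℕ} (hI : I ⊆ Pr X) (h t : ℝ) :
    (PP (zd l I h) X t).re = fld l I (t + h) - fld l I t := by
  unfold fld PP
  rw [Complex.re_sum, neg_sub_neg, ← Finset.sum_sub_distrib]
  have e : ∑ p ∈ Pr X, (zd l I h p * (p : ℂ) ^ (-(t : ℂ) * Complex.I)).re =
      ∑ p ∈ I, (zd l I h p * (p : ℂ) ^ (-(t : ℂ) * Complex.I)).re := by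
    symm
    apply Finset.sum_subset hI
    intro p _ hp
    unfold zd
    rw [if_neg hp, zero_mul, Complex.zero_re]
  rw [e]
  refine Finset.sum_congr rfl fun p hp => ?_
  have hp' := mem_Pr.1 (hI hp)
  unfold zd
  rw [if_pos hp]
  rw [mul_assoc, mul_assoc, sub_mul, one_mul, cpow_mul_add hp'.1.ne_zero, cpow_re_im hp'.1.ne_zero, cpow_re_im hp'.1.ne_zero]
  generalize Real.sin (t * Real.log p) = s1
  generalize Real.sin ((t + h) * Real.log p) = s2
  generalize Real.cos (t * Real.log p) = c1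
  generalize Real.cos ((t + h) * Real.log p) = c2
  have e3 : -Complex.I * ((be l p : ℂ) * ((c2 : ℂ) - Complex.I * (s2 : ℂ) - ((c1 : ℂ) - Complex.I * (s1 : ℂ)))) =
      ((be l p * s1 - be l p * s2 : ℝ) : ℂ) + Complex.I * ((be l p * (c1 - c2) : ℝ) : ℂ) := by
    push_cast
    linear_combination ((be l p : ℂ) * ((s2 : ℂ) - (s1 : ℂ))) * Complex.I_sq
  rw [e3, Complex.add_re, Complex.ofReal_re, Complex.I_mul_re, Complex.ofReal_im]
  ring

lemma zd_sq (l : ℝ) {I : Finset ℕ} (h : ℝ) {p : ℕ} (hp : p ∈ I) (hp0 : p ≠ 0) :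
    ‖zd l I h p‖ ^ 2 = be l p ^ 2 * (2 * (1 - Real.cos (h * Real.log p))) := by
  unfold zd
  rw [if_pos hp, norm_mul, norm_neg, Complex.norm_I, one_mul, norm_mul, mul_pow, Complex.norm_real, Real.norm_eq_abs,
    sq_abs, cpow_re_im hp0]
  congr 1
  rw [← Complex.normSq_eq_norm_sq, Complex.normSq_apply]
  have e1 : ((Real.cos (h * Real.log p) : ℂ) - Complex.I * (Real.sin (h * Real.log p) : ℂ) - 1).re =
      Real.cos (h * Real.log p) - 1 := by
    rw [Complex.sub_re, Complex.sub_re, Complex.ofReal_re, Complex.I_mul_re, Complex.ofReal_im, Complex.one_re]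
    ring
  have e2 : ((Real.cos (h * Real.log p) : ℂ) - Complex.I * (Real.sin (h * Real.log p) : ℂ) - 1).im =
      -Real.sin (h * Real.log p) := by
    rw [Complex.sub_im, Complex.sub_im, Complex.ofReal_im, Complex.I_mul_im, Complex.ofReal_re, Complex.one_im]
    ring
  rw [e1, e2]
  have := Real.sin_sq_add_cos_sq (h * Real.log p)
  linear_combination this

lemma zd_VS (l : ℝ) {I : Finset ℕ} {X : ℕ} (hI : I ⊆ Pr X) (h : ℝ) :
    VS (nz (zd l I h)) X = 4 * (vI l I - cI l I h) := by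
  unfold VS nz vI cI
  have e : ∑ p ∈ Pr X, ‖zd l I h p‖ ^ 2 = ∑ p ∈ I, ‖zd l I h p‖ ^ 2 := by
    symm
    apply Finset.sum_subset hI
    intro p _ hp
    unfold zd
    rw [if_neg hp, norm_zero]
    norm_num
  rw [e, Finset.sum_congr rfl (fun p hp => zd_sq l h hp (mem_Pr.1 (hI hp)).1.ne_zero)]
  have e2 : ∀ p ∈ I, be l p ^ 2 * (2 * (1 - Real.cos (h * Real.log p))) =
      2 * be l p ^ 2 - 2 * (be l p ^ 2 * Real.cos (h * Real.log p)) := fun p _ => by ring
  rw [Finset.sum_congr rfl e2, Finset.sum_sub_distrib, ← Finset.mul_sum, ← Finset.mul_sum]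
  ring

lemma zd_bd (l : ℝ) {I : Finset ℕ} {X : ℕ} (hI : I ⊆ Pr X) (h : ℝ) {B0 : ℝ} (hB0 : 0 ≤ B0)
    (hB : ∀ p ∈ I, be l p ^ 2 ≤ B0) (p : ℕ) : ‖zd l I h p‖ ^ 2 ≤ 4 * B0 := by
  by_cases hp : p ∈ I
  · rw [zd_sq l h hp (mem_Pr.1 (hI hp)).1.ne_zero]
    have h1 := Real.neg_one_le_cos (h * Real.log p)
    have h2 := hB p hp
    have h3 := Real.cos_le_one (h * Real.log p)
    nlinarith [sq_nonneg (be l p)]
  · unfold zd
    rw [if_neg hp, norm_zero]
    nlinarith

end

end Pool.Agent.U403.Ldp
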