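import Pool.Agent.U403.Ldp.Var

/-! # Large deviations: the variance of the main field -/

set_option autoImplicit false

open Filter Topology MeasureTheory Set
open Pool.Agent.Y743.CL
open Pool.Agent.R320.JL
open Pool.Agent.U403.Max

namespace Pool.Agent.U403.Ldp

noncomputable section

lemma logr_top : Tendsto (fun r : ℕ => Real.log (r : ℝ)) atTop atTop :=
  Real.tendsto_log_atTop.comp tendsto_natCast_atTop_atTop

lemma ev_small {K : ℕ} (hK : 0 < K) (D C : ℝ) (k : ℕ) {δ : ℝ} (hδ : 0 < δ) :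
    ∀ᶠ q : ℝ in atTop, D * ((q + C) ^ k * Real.exp (-(q / K))) ≤ δ := by
  have hK0 : (0 : ℝ) < K := by exact_mod_cast hK
  have := ev_pow (1 / K) C (by positivity) k D hδ
  filter_upwards [this] with q hq
  refine le_trans (le_of_eq ?_) hq
  congr 4
  ring

/-- **the variance of the main field** -/
theorem vsb : ∃ C2 : ℝ, 0 ≤ C2 ∧ ∀ κ : ℝ, 0 < κ → ∀ K : ℕ, 3 ≤ K → ∀ᶠ r : ℕ in atTop, ∀ B0 : ℝ, 0 < B0 →
    ∀ᶠ T : ℝ in atTop,
    (∀ p ∈ PI T (Real.log r) (Real.log r / K), be (Real.log T / (κ * Real.log r)) p ^ 2 ≤ B0) ∧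
    ∀ d : ℕ, r ≤ 2 * d → d ≤ 2 * r →
      (1 - 1 / (K : ℝ)) * Real.log r / Real.pi ^ 2 - C2 ≤
        2 * (vI (Real.log T / (κ * Real.log r)) (PI T (Real.log r) (Real.log r / K)) -
          cI (Real.log T / (κ * Real.log r)) (PI T (Real.log r) (Real.log r / K)) (2 * Real.pi * d / Real.log T)) ∧
      2 * (vI (Real.log T / (κ * Real.log r)) (PI T (Real.log r) (Real.log r / K)) -
          cI (Real.log T / (κ * Real.log r)) (PI T (Real.log r) (Real.log r / K)) (2 * Real.pi * d / Real.log T)) ≤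
        Real.log r / Real.pi ^ 2 + C2 := by
  obtain ⟨C1, hC1, hpar⟩ := par2
  have hpi3 := Real.pi_gt_three
  have hpi := Real.pi_pos
  refine ⟨2 * C1 + 20, by positivity, fun κ hκ K hK => ?_⟩
  have hK0 : 0 < K := by omega
  have hKr : (3 : ℝ) ≤ K := by exact_mod_cast hK
  have e1 := ev_small hK0 (100 * κ) 0 1 (show (0 : ℝ) < 1 by norm_num)
  have e2 := ev_small hK0 (64 * κ) C1 2 (show (0 : ℝ) < 1 by norm_num)
  filter_upwards [logr_top.eventually e1, logr_top.eventually e2, logr_top.eventually_ge_atTop 1,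
    eventually_ge_atTop 1] with r h1 h2 h3 hr1 B0 hB0
  have hr0 : (0 : ℝ) < r := by exact_mod_cast hr1
  obtain ⟨q, hq⟩ : ∃ q : ℝ, q = Real.log r := ⟨_, rfl⟩
  have hrq : (r : ℝ) = Real.exp q := by rw [hq, Real.exp_log hr0]
  rw [← hq] at h1 h2 h3 ⊢
  have hq0 : 0 < q := by linarith
  simp only [add_zero, pow_one] at h1
  have hKq : 0 < q / K := by positivity
  have hKq1 : q / K < q := by
    rw [div_lt_iff₀ (by linarith)]
    nlinarith
  have h4 : κ * q * Real.exp (-(q / K)) ≤ 1 / 100 := by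
    have : 100 * (κ * q * Real.exp (-(q / K))) ≤ 1 := by
      calc _ = 100 * κ * (q * Real.exp (-(q / K))) := by ring
        _ ≤ 1 := h1
    linarith
  filter_upwards [hpar κ q q (q / K) B0 1 (2 * r) hκ hq0 hKq.le hKq1 h4 hB0 one_pos] with T hT
  obtain ⟨a1, a2, a3, a4⟩ := hT
  refine ⟨a3, fun d hd1 hd2 => ?_⟩
  have hd0 : 1 ≤ d := by omega
  have b4 := a4 d hd0 hd2
  obtain ⟨l, hl⟩ : ∃ l : ℝ, l = Real.log T / (κ * q) := ⟨_, rfl⟩
  obtain ⟨I, hI⟩ : ∃ I : Finset ℕ, I = PI T q (q / K) := ⟨_, rfl⟩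
  rw [← hl, ← hI] at a1 a2 b4 ⊢
  have hd0' : (1 : ℝ) ≤ d := by exact_mod_cast hd0
  have c1 : Real.exp q / d ≤ 2 := by
    rw [div_le_iff₀ (by linarith), ← hrq]
    exact_mod_cast hd1
  have c2 : 64 * (κ * q * Real.exp (-(q / K))) * (q - q / K + C1) ≤ 1 := by
    calc 64 * (κ * q * Real.exp (-(q / K))) * (q - q / K + C1) ≤
        64 * (κ * (q + C1) * Real.exp (-(q / K))) * (q + C1) := by
          have : q - q / K + C1 ≤ q + C1 := by linarith
          have h0 : 0 ≤ q - q / K + C1 := by linarith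
          have h5 : q ≤ q + C1 := by linarith
          gcongr
      _ = 64 * κ * ((q + C1) ^ 2 * Real.exp (-(q / K))) := by ring
      _ ≤ 1 := h2
  have c3 : |cI l I (2 * Real.pi * d / Real.log T)| ≤ 4 := by
    refine b4.trans ?_
    have : 4 * (κ * q * Real.exp (-(q / K))) * (q - q / K + C1) ≤ 1 := by
      have h0 : 0 ≤ (κ * q * Real.exp (-(q / K))) * (q - q / K + C1) := by
        have : 0 ≤ q - q / K + C1 := by linarith
        positivity
      linarith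
    linarith
  have c4 := abs_le.1 c3
  have hpi9 : 9 ≤ Real.pi ^ 2 := by nlinarith
  have c5 : vI l I ≤ (q - q / K + C1) / Real.pi ^ 2 / 2 := by
    unfold vI
    linarith
  have c6 : (q - q / K + C1) / Real.pi ^ 2 ≤ q / Real.pi ^ 2 + C1 := by
    rw [div_add' _ _ _ (by positivity)]
    apply div_le_div_of_nonneg_right _ (by positivity)
    nlinarith
  constructor
  · have c7 : (1 - 1 / (K : ℝ)) * q / Real.pi ^ 2 - 2 * C1 - 1 ≤
        2 * ((1 - 64 * (κ * q * Real.exp (-(q / K)))) * ((q - q / K - C1) / (2 * Real.pi ^ 2))) := by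
      have e : 2 * ((1 - 64 * (κ * q * Real.exp (-(q / K)))) * ((q - q / K - C1) / (2 * Real.pi ^ 2))) =
          ((q - q / K) - C1 - 64 * (κ * q * Real.exp (-(q / K))) * (q - q / K - C1)) / Real.pi ^ 2 := by
        field_simp
      have e' : (1 - 1 / (K : ℝ)) * q / Real.pi ^ 2 = (q - q / K) / Real.pi ^ 2 := by
        congr 1
        ring
      rw [e, e', le_div_iff₀ (by positivity)]
      have h6 : 64 * (κ * q * Real.exp (-(q / K))) * (q - q / K - C1) ≤ 1 := by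
        refine le_trans ?_ c2
        have : 0 ≤ 64 * (κ * q * Real.exp (-(q / K))) := by positivity
        apply mul_le_mul_of_nonneg_left _ this
        linarith
      have h7 : ((q - q / K) / Real.pi ^ 2 - 2 * C1 - 1) * Real.pi ^ 2 = (q - q / K) - (2 * C1 + 1) * Real.pi ^ 2 := by
        rw [sub_mul, sub_mul, div_mul_cancel₀ _ (by positivity)]
        ring
      rw [h7]
      nlinarith
    linarith [c4.2]
  · linarith [c4.1]

/-- the tail of a Dirichlet polynomial -/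
lemma pp_tail (z : ℕ → ℂ) (X : ℕ) (hX : 1 ≤ X) (T V v : ℝ) (hT : 1 ≤ T) (k : ℕ)
    (hXT : ((X ^ (k + k) : ℕ) : ℝ) ≤ Real.sqrt T) (hV : VS (nz z) X ≤ V) (hv : 0 < v) :
    (PT T).real {t | v ≤ ‖PP z X t‖} ≤ 17 * (k.factorial * V ^ k / v ^ (2 * k)) := by
  have hT0 : 0 < T := by linarith
  rw [PT_real hT0 (measurableSet_le measurable_const (PP_cont z X).norm.measurable), div_le_iff₀ hT0]
  have := tail_vol z X hX T T V v hT k hXT hV hv
  rw [← two_mul] at this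
  refine this.trans (le_of_eq ?_)
  ring

/-- rates -/
lemma rho_pow {A c q ρ : ℝ} {k : ℕ} (hA : 0 ≤ A) (hc : 0 < c) (hk : c * q - 1 ≤ k) (hρ0 : 0 ≤ ρ)
    (hρ : ρ ≤ Real.exp (-((A + 4) / c))) (hq : (A + 4) / c + 3 ≤ 4 * q) :
    17 * ρ ^ k ≤ Real.exp (-(A * q)) := by
  have h1 : ρ ^ k ≤ Real.exp ((A + 4) / c - (A + 4) * q) := by
    refine (pow_le_pow_left₀ hρ0 hρ k).trans ?_
    rw [← Real.exp_nat_mul]
    apply Real.exp_le_exp.2
    have h2 := mul_le_mul_of_nonneg_right hk (by positivity : 0 ≤ (A + 4) / c)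
    have h3 : (c * q - 1) * ((A + 4) / c) = (A + 4) * q - (A + 4) / c := by field_simp
    linarith
  have h2 : (17 : ℝ) ≤ Real.exp 3 := by
    have h3 : Real.exp 3 = Real.exp 1 ^ 3 := by rw [← Real.exp_nat_mul]; norm_num
    rw [h3]
    have := Real.exp_one_gt_d9
    calc (17 : ℝ) ≤ 2.7 ^ 3 := by norm_num
      _ ≤ Real.exp 1 ^ 3 := pow_le_pow_left₀ (by norm_num) (by linarith) 3
  calc 17 * ρ ^ k ≤ Real.exp 3 * Real.exp ((A + 4) / c - (A + 4) * q) := by gcongr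
    _ = Real.exp (3 + ((A + 4) / c - (A + 4) * q)) := by rw [Real.exp_add]
    _ ≤ Real.exp (-(A * q)) := by
      apply Real.exp_le_exp.2
      linarith

/-- the difference of the main field at two heights -/
def Gd (κ : ℝ) (K r d : ℕ) (T t : ℝ) : ℝ :=
  fld (Real.log T / (κ * Real.log r)) (PI T (Real.log r) (Real.log r / K)) (t + 2 * Real.pi * d / Real.log T) -
    fld (Real.log T / (κ * Real.log r)) (PI T (Real.log r) (Real.log r / K)) t

/-- **the upper tail of the main field** -/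
theorem mainUp (κ : ℝ) (hκ : 0 < κ) (K : ℕ) (hK : 3 ≤ K) (α ε : ℝ) (hα : 0 < α) (hε : 0 < ε) :
    ∀ᶠ r : ℕ in atTop, ∀ᶠ T : ℝ in atTop, ∀ d : ℕ, r ≤ 2 * d → d ≤ 2 * r →
      (PT T).real {t | α * Real.log r ≤ |Gd κ K r d T t|} ≤
        Real.exp (-((Real.pi ^ 2 * α ^ 2 / 2 - ε) * Real.log r)) := by
  obtain ⟨C2, hC2, hvs⟩ := vsb
  have hpi3 := Real.pi_gt_three
  have hpi := Real.pi_pos
  have hK0 : 0 < K := by omega
  obtain ⟨C3, hC3⟩ : ∃ C3 : ℝ, C3 = Real.pi ^ 4 * α ^ 2 * C2 / 2 := ⟨_, rfl⟩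
  have hC30 : 0 ≤ C3 := by rw [hC3]; positivity
  have e1 := ev_small hK0 (2 * (Real.pi ^ 2 * α ^ 2)) 0 1 (show (0 : ℝ) < 1 by norm_num)
  have e2 := ev_pow ε 0 hε 1 (17 * Real.exp 1 * Real.exp (1 + C3) * (Real.pi ^ 2 * α ^ 2 / 2)) (show (0 : ℝ) < 1 by norm_num)
  filter_upwards [hvs κ hκ K hK, logr_top.eventually e1, logr_top.eventually e2, logr_top.eventually_ge_atTop 1,
    logr_top.eventually_ge_atTop ((2 + C3) / (Real.pi ^ 2 * α ^ 2 / 2)), eventually_ge_atTop 1] with r hv h1 h2 h3 h4 hr1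
  obtain ⟨q, hq⟩ : ∃ q : ℝ, q = Real.log r := ⟨_, rfl⟩
  unfold Gd
  have hv' := hv 1 one_pos
  rw [← hq] at hv' h1 h2 h3 h4 ⊢
  have hq0 : 0 < q := by linarith
  simp only [add_zero, pow_one] at h1 h2
  filter_upwards [hv', eventually_ge_atTop 1] with T hT hT1 d hd1 hd2
  obtain ⟨-, hVd⟩ := hT
  obtain ⟨-, hVu⟩ := hVd d hd1 hd2
  obtain ⟨l, hl⟩ : ∃ l : ℝ, l = Real.log T / (κ * q) := ⟨_, rfl⟩
  obtain ⟨I, hI⟩ : ∃ I : Finset ℕ, I = PI T q (q / K) := ⟨_, rfl⟩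
  obtain ⟨h, hh⟩ : ∃ h : ℝ, h = 2 * Real.pi * d / Real.log T := ⟨_, rfl⟩
  rw [← hl, ← hI, ← hh] at hVu ⊢
  obtain ⟨X, hX⟩ : ∃ X : ℕ, X = XK (Real.exp (-(q / K))) T := ⟨_, rfl⟩
  have hX1 : 1 ≤ X := by
    rw [hX]
    unfold XK
    apply Nat.le_floor
    rw [Nat.cast_one]
    exact Real.one_le_rpow hT1 (Real.exp_pos _).le
  have hIX : I ⊆ Pr X := by rw [hI, hX]; exact PI_sub hT1 le_rfl
  obtain ⟨V, hV⟩ : ∃ V : ℝ, V = 2 * (q / Real.pi ^ 2 + C2) := ⟨_, rfl⟩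
  have hV0 : 0 < V := by rw [hV]; positivity
  have hVS : VS (nz (zd l I h)) X ≤ V := by
    rw [zd_VS l hIX h, hV]
    linarith
  obtain ⟨y, hy⟩ : ∃ y : ℝ, y = α * q := ⟨_, rfl⟩
  have hy0 : 0 < y := by rw [hy]; positivity
  -- the quotient
  have hlow : Real.pi ^ 2 * α ^ 2 / 2 * q - C3 ≤ y ^ 2 / V := by
    rw [le_div_iff₀ hV0, hV, hy, hC3]
    have e : (Real.pi ^ 2 * α ^ 2 / 2 * q - Real.pi ^ 4 * α ^ 2 * C2 / 2) * (2 * (q / Real.pi ^ 2 + C2)) =
        (α * q) ^ 2 - Real.pi ^ 4 * α ^ 2 * C2 ^ 2 := by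
      field_simp
      ring
    rw [e]
    have : 0 ≤ Real.pi ^ 4 * α ^ 2 * C2 ^ 2 := by positivity
    linarith
  have hupp : y ^ 2 / V ≤ Real.pi ^ 2 * α ^ 2 / 2 * q := by
    rw [div_le_iff₀ hV0, hV, hy]
    have e : Real.pi ^ 2 * α ^ 2 / 2 * q * (2 * (q / Real.pi ^ 2 + C2)) =
        (α * q) ^ 2 + Real.pi ^ 2 * α ^ 2 * q * C2 := by
      field_simp
    rw [e]
    have : 0 ≤ Real.pi ^ 2 * α ^ 2 * q * C2 := by positivity
    linarith
  obtain ⟨k, hk⟩ : ∃ k : ℕ, k = ⌊y ^ 2 / V⌋₊ := ⟨_, rfl⟩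
  have hk1 : (k : ℝ) ≤ y ^ 2 / V := by rw [hk]; exact Nat.floor_le (by positivity)
  have hk2 : y ^ 2 / V - 1 ≤ k := by
    have := Nat.lt_floor_add_one (y ^ 2 / V)
    rw [← hk] at this
    linarith
  have hk3 : 1 ≤ k := by
    have h5 : (2 + C3) ≤ Real.pi ^ 2 * α ^ 2 / 2 * q := by
      rw [div_le_iff₀ (by positivity)] at h4
      linarith
    have : (0 : ℝ) < k := by linarith
    exact_mod_cast this
  have hkV : (k : ℝ) * V ≤ 1 * y ^ 2 := by
    rw [le_div_iff₀ hV0] at hk1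
    linarith
  have hXT : ((X ^ (k + k) : ℕ) : ℝ) ≤ Real.sqrt T := by
    rw [hX]
    apply XK_pow hT1
    push_cast
    have h5 : 2 * (Real.pi ^ 2 * α ^ 2) * (q * Real.exp (-(q / K))) ≤ 1 := h1
    have h6 : (k : ℝ) ≤ Real.pi ^ 2 * α ^ 2 / 2 * q := hk1.trans hupp
    have h7 := mul_le_mul_of_nonneg_left h6 (Real.exp_pos (-(q / K))).le
    nlinarith
  have hsub : {t | y ≤ |fld l I (t + h) - fld l I t|} ⊆ {t | y ≤ ‖PP (zd l I h) X t‖} := by
    intro t ht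
    rw [Set.mem_ofPred_eq] at ht ⊢
    rw [← zd_re l hIX h t] at ht
    exact ht.trans (Complex.abs_re_le_norm _)
  rw [← hy]
  have hPT := PT_univ (show (0 : ℝ) < T by linarith)
  refine (measureReal_mono hsub (measure_ne_top _ _)).trans ?_
  refine (pp_tail (zd l I h) X hX1 T V y hT1 k hXT hVS hy0).trans ?_
  have h8 := fact_ratio2 hk3 hV0.le hy0 hkV
  have h9 : (1 / Real.exp 1) ^ k ≤ Real.exp (1 + C3 - Real.pi ^ 2 * α ^ 2 / 2 * q) := by
    rw [one_div, ← Real.exp_neg, ← Real.exp_nat_mul]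
    apply Real.exp_le_exp.2
    linarith
  have h10 : (k : ℝ) ≤ Real.pi ^ 2 * α ^ 2 / 2 * q := hk1.trans hupp
  calc 17 * ((k.factorial : ℝ) * V ^ k / y ^ (2 * k)) ≤ 17 * (Real.exp 1 * k * (1 / Real.exp 1) ^ k) := by
        gcongr
    _ ≤ 17 * (Real.exp 1 * (Real.pi ^ 2 * α ^ 2 / 2 * q) * Real.exp (1 + C3 - Real.pi ^ 2 * α ^ 2 / 2 * q)) := by
        gcongr
    _ = (17 * Real.exp 1 * Real.exp (1 + C3) * (Real.pi ^ 2 * α ^ 2 / 2) * (q * Real.exp (-(ε * q)))) *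
        Real.exp (-((Real.pi ^ 2 * α ^ 2 / 2 - ε) * q)) := by
        have e5 : Real.exp (1 + C3 - Real.pi ^ 2 * α ^ 2 / 2 * q) =
            Real.exp (1 + C3) * (Real.exp (-(ε * q)) * Real.exp (-((Real.pi ^ 2 * α ^ 2 / 2 - ε) * q))) := by
          rw [← Real.exp_add, ← Real.exp_add]
          congr 1
          ring
        rw [e5]
        ring
    _ ≤ 1 * Real.exp (-((Real.pi ^ 2 * α ^ 2 / 2 - ε) * q)) := by
        gcongr
    _ = _ := one_mul _

end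

end Pool.Agent.U403.Ldp
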