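import Pool.Agent.U403.Ldp.Cmp

/-! # Large deviations of the counts at uniform heights -/

set_option autoImplicit false

open Filter Topology MeasureTheory Set
open Pool.Agent.Y743.CL
open Pool.Agent.R320.JL
open SP (RHs)
open SG (NZ)
open Pool.Agent.U403.Max

namespace Pool.Agent.U403.Ldp

noncomputable section

lemma eps_choice {α ε : ℝ} (hα : 0 ≤ α) (hε : 0 < ε) : ∃ e : ℝ, 0 < e ∧ e ≤ 1 ∧
    Real.pi ^ 2 * (α + e) ^ 2 / 2 ≤ Real.pi ^ 2 * α ^ 2 / 2 + ε / 4 ∧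
    Real.pi ^ 2 * α ^ 2 / 2 - ε / 4 ≤ Real.pi ^ 2 * (α - e) ^ 2 / 2 ∧ (0 < α → e < α) := by
  have hpi := Real.pi_pos
  have h0 : 0 < ε / (8 * Real.pi ^ 2 * (α + 1)) := by positivity
  obtain ⟨e0, he0⟩ : ∃ e0 : ℝ, e0 = min 1 (ε / (8 * Real.pi ^ 2 * (α + 1))) := ⟨_, rfl⟩
  have he00 : 0 < e0 := by rw [he0]; exact lt_min one_pos h0
  have he01 : e0 ≤ 1 := by rw [he0]; exact min_le_left _ _
  have he02 : e0 * (8 * Real.pi ^ 2 * (α + 1)) ≤ ε := by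
    have : e0 ≤ ε / (8 * Real.pi ^ 2 * (α + 1)) := by rw [he0]; exact min_le_right _ _
    rwa [le_div_iff₀ (by positivity)] at this
  have key : ∀ e : ℝ, 0 < e → e ≤ e0 → Real.pi ^ 2 * (α + e) ^ 2 / 2 ≤ Real.pi ^ 2 * α ^ 2 / 2 + ε / 4 ∧
    Real.pi ^ 2 * α ^ 2 / 2 - ε / 4 ≤ Real.pi ^ 2 * (α - e) ^ 2 / 2 := by
    intro e h1 h2
    have h3 : e * (8 * Real.pi ^ 2 * (α + 1)) ≤ ε := le_trans (by gcongr) he02
    have h4 : e ^ 2 ≤ e := by nlinarith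
    have h5 : Real.pi ^ 2 * e ^ 2 ≤ Real.pi ^ 2 * e := by gcongr
    have h6 : 0 ≤ Real.pi ^ 2 * (α * e) := by positivity
    constructor
    · nlinarith
    · nlinarith [sq_nonneg e, mul_nonneg (sq_nonneg Real.pi) (sq_nonneg e)]
  rcases eq_or_lt_of_le hα with h | h
  · obtain ⟨k1, k2⟩ := key e0 he00 le_rfl
    exact ⟨e0, he00, he01, k1, k2, fun h' => absurd h' (by rw [← h]; exact lt_irrefl _)⟩
  · obtain ⟨k1, k2⟩ := key (min e0 (α / 2)) (lt_min he00 (by linarith)) (min_le_left _ _)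
    refine ⟨min e0 (α / 2), lt_min he00 (by linarith), (min_le_left _ _).trans he01, k1, k2, fun _ => ?_⟩
    exact (min_le_right _ _).trans_lt (by linarith)

/-- **upper tail** -/
theorem yyUp (hRH : RHs) (α ε : ℝ) (hα : 0 < α) (hε : 0 < ε) : ∀ᶠ r : ℕ in atTop, ∀ᶠ T : ℝ in atTop,
    ∀ d : ℕ, r ≤ 2 * d → d ≤ 2 * r → (PT T).real {t | α * Real.log r ≤ |YY T d t|} ≤
      Real.exp (-((Real.pi ^ 2 * α ^ 2 / 2 - ε) * Real.log r)) := by
  obtain ⟨e, he0, he1, he2, he3, he4⟩ := eps_choice hα.le hε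
  have hα' : 0 < α - e := by linarith [he4 hα]
  obtain ⟨κ, hκ, K₀, hcmp⟩ := cmp hRH e he0 (Real.pi ^ 2 * α ^ 2 / 2) (by positivity)
  have h1 := hcmp (K₀ + 3) (by omega) (by omega)
  have h2 := mainUp κ hκ (K₀ + 3) (by omega) (α - e) (ε / 4) hα' (by positivity)
  filter_upwards [h1, h2, logr_top.eventually_ge_atTop (2 / ε), logr_top.eventually_ge_atTop 1] with r h1 h2 h3 h4
  filter_upwards [h1, h2, eventually_gt_atTop 0] with T h1 h2 hT0 d hd1 hd2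
  have := PT_univ hT0
  have a1 := h1 d hd1 hd2
  have a2 := h2 d hd1 hd2
  obtain ⟨q, hq⟩ : ∃ q : ℝ, q = Real.log r := ⟨_, rfl⟩
  rw [← hq] at a1 a2 h3 h4 ⊢
  have hq0 : 0 < q := by linarith
  rw [div_le_iff₀ hε] at h3
  have hsub : {t | α * q ≤ |YY T d t|} ⊆ {t | e * q ≤ |YY T d t - Gd κ (K₀ + 3) r d T t|} ∪
      {t | (α - e) * q ≤ |Gd κ (K₀ + 3) r d T t|} := by
    intro t ht
    by_contra hcon
    simp only [Set.mem_union, not_or, Set.mem_ofPred_eq, not_le] at hcon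
    rw [Set.mem_ofPred_eq] at ht
    have := abs_sub_abs_le_abs_sub (YY T d t) (Gd κ (K₀ + 3) r d T t)
    linarith [hcon.1, hcon.2]
  refine (measureReal_mono hsub (measure_ne_top _ _)).trans ((measureReal_union_le _ _).trans ?_)
  have b1 : Real.exp (-(Real.pi ^ 2 * α ^ 2 / 2 * q)) ≤ Real.exp (-((Real.pi ^ 2 * α ^ 2 / 2 - ε / 2) * q)) := by
    apply Real.exp_le_exp.2
    have : 0 < ε / 2 * q := by positivity
    linarith
  have b2 : Real.exp (-((Real.pi ^ 2 * (α - e) ^ 2 / 2 - ε / 4) * q)) ≤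
      Real.exp (-((Real.pi ^ 2 * α ^ 2 / 2 - ε / 2) * q)) := by
    apply Real.exp_le_exp.2
    have := mul_le_mul_of_nonneg_right (show Real.pi ^ 2 * α ^ 2 / 2 - ε / 2 ≤ Real.pi ^ 2 * (α - e) ^ 2 / 2 - ε / 4 by
      linarith) hq0.le
    linarith
  have b3 : Real.exp (-((Real.pi ^ 2 * α ^ 2 / 2 - ε) * q)) =
      Real.exp (ε / 2 * q) * Real.exp (-((Real.pi ^ 2 * α ^ 2 / 2 - ε / 2) * q)) := by
    rw [← Real.exp_add]; congr 1; ring
  have b4 : 2 ≤ Real.exp (ε / 2 * q) := by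
    have := Real.add_one_le_exp (ε / 2 * q)
    linarith
  rw [b3]
  have b5 := mul_le_mul_of_nonneg_right b4 (Real.exp_pos (-((Real.pi ^ 2 * α ^ 2 / 2 - ε / 2) * q))).le
  linarith

/-- **lower bound for the tails** -/
theorem yyLow (hRH : RHs) (α ε : ℝ) (hα : 0 ≤ α) (hε : 0 < ε) : ∀ᶠ r : ℕ in atTop, ∀ᶠ T : ℝ in atTop,
    ∀ d : ℕ, r ≤ 2 * d → d ≤ 2 * r → ∀ σ : ℝ, σ = 1 ∨ σ = -1 →
      Real.exp (-((Real.pi ^ 2 * α ^ 2 / 2 + ε) * Real.log r)) ≤ (PT T).real {t | α * Real.log r ≤ σ * YY T d t} := by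
  obtain ⟨e, he0, he1, he2, he3, he4⟩ := eps_choice hα hε
  obtain ⟨κ, hκ, K₀, hcmp⟩ := cmp hRH e he0 (Real.pi ^ 2 * α ^ 2 / 2 + ε) (by positivity)
  obtain ⟨K₁, hlow⟩ := mainLow (α + e) (ε / 4) (by positivity) (by positivity)
  have h1 := hcmp (K₀ + K₁ + 3) (by omega) (by omega)
  have h2 := hlow (K₀ + K₁ + 3) (by omega) (by omega) κ hκ
  filter_upwards [h1, h2, logr_top.eventually_ge_atTop (2 / ε), logr_top.eventually_ge_atTop 1] with r h1 h2 h3 h4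
  filter_upwards [h1, h2, eventually_gt_atTop 0] with T h1 h2 hT0 d hd1 hd2 σ hσ
  have := PT_univ hT0
  have a1 := h1 d hd1 hd2
  have a2 := h2 d hd1 hd2 σ hσ
  obtain ⟨q, hq⟩ : ∃ q : ℝ, q = Real.log r := ⟨_, rfl⟩
  rw [← hq] at a1 a2 h3 h4 ⊢
  have hq0 : 0 < q := by linarith
  rw [div_le_iff₀ hε] at h3
  have hsub : {t | (α + e) * q ≤ σ * Gd κ (K₀ + K₁ + 3) r d T t} ⊆ {t | α * q ≤ σ * YY T d t} ∪
      {t | e * q ≤ |YY T d t - Gd κ (K₀ + K₁ + 3) r d T t|} := by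
    intro t ht
    by_contra hcon
    simp only [Set.mem_union, not_or, Set.mem_ofPred_eq, not_le] at hcon
    rw [Set.mem_ofPred_eq] at ht
    obtain ⟨k1, k2⟩ := hcon
    have k3 := abs_lt.1 k2
    rcases hσ with h | h
    · rw [h] at ht k1
      linarith [k3.1, k3.2]
    · rw [h] at ht k1
      linarith [k3.1, k3.2]
  have c1 := a2.trans ((measureReal_mono hsub (measure_ne_top _ _)).trans (measureReal_union_le _ _))
  have b2 : Real.exp (-((Real.pi ^ 2 * α ^ 2 / 2 + ε / 2) * q)) ≤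
      Real.exp (-((Real.pi ^ 2 * (α + e) ^ 2 / 2 + ε / 4) * q)) := by
    apply Real.exp_le_exp.2
    have := mul_le_mul_of_nonneg_right (show Real.pi ^ 2 * (α + e) ^ 2 / 2 + ε / 4 ≤ Real.pi ^ 2 * α ^ 2 / 2 + ε / 2 by
      linarith) hq0.le
    linarith
  have b3 : Real.exp (-((Real.pi ^ 2 * α ^ 2 / 2 + ε / 2) * q)) =
      Real.exp (ε / 2 * q) * Real.exp (-((Real.pi ^ 2 * α ^ 2 / 2 + ε) * q)) := by
    rw [← Real.exp_add]; congr 1; ring
  have b4 : 2 ≤ Real.exp (ε / 2 * q) := by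
    have := Real.add_one_le_exp (ε / 2 * q)
    linarith
  have b5 := mul_le_mul_of_nonneg_right b4 (Real.exp_pos (-((Real.pi ^ 2 * α ^ 2 / 2 + ε) * q))).le
  linarith

end

end Pool.Agent.U403.Ldp
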